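import Mathlib

/-!
# The equation `F S² = Φ (A, W)` in polynomials

`Φ` is a binary form of degree `n` without multiple factors. Everything follows from the two
identities `W Φ' - n W' Φ = Φ_A J`, `A Φ' - n A' Φ = - Φ_W J`, `J = A' W - A W'`.
-/

set_option autoImplicit false

namespace Pool.Agent.Q29.TW

open Polynomial Finset

section forms

variable {R : Type*} [CommRing R]

/-- the binary form `∑ f_i A^i W^(n-i)` -/
def hm (n : ℕ) (f : ℕ → R) (A W : R) : R := ∑ i ∈ range (n + 1), f i * A ^ i * W ^ (n - i)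

/-- the derivative with respect to `A` -/
def hA (n : ℕ) (f : ℕ → R) (A W : R) : R :=
  ∑ i ∈ range (n + 1), (i : R) * f i * A ^ (i - 1) * W ^ (n - i)

/-- the derivative with respect to `W` -/
def hW (n : ℕ) (f : ℕ → R) (A W : R) : R :=
  ∑ i ∈ range (n + 1), ((n - i : ℕ) : R) * f i * A ^ i * W ^ (n - i - 1)

theorem euler (n : ℕ) (f : ℕ → R) (A W : R) :
    A * hA n f A W + W * hW n f A W = n * hm n f A W := by
  unfold hA hW hm
  rw [Finset.mul_sum, Finset.mul_sum, Finset.mul_sum, ← Finset.sum_add_distrib]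
  refine Finset.sum_congr rfl fun i hi => ?_
  rw [Finset.mem_range] at hi
  have h1 : A * ((i : R) * f i * A ^ (i - 1) * W ^ (n - i)) = (i : R) * f i * A ^ i * W ^ (n - i) := by
    rcases Nat.eq_zero_or_pos i with rfl | h
    · simp
    · obtain ⟨k, rfl⟩ : ∃ k, i = k + 1 := ⟨i - 1, by omega⟩
      rw [Nat.add_sub_cancel, pow_succ]
      ring
  have h2 : W * (((n - i : ℕ) : R) * f i * A ^ i * W ^ (n - i - 1)) =
      ((n - i : ℕ) : R) * f i * A ^ i * W ^ (n - i) := by
    rcases Nat.eq_zero_or_pos (n - i) with h | h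
    · rw [h]; simp
    · obtain ⟨k, hk⟩ : ∃ k, n - i = k + 1 := ⟨n - i - 1, by omega⟩
      rw [hk, Nat.add_sub_cancel, pow_succ]
      ring
  rw [h1, h2]
  have h3 : (n : R) = (i : R) + ((n - i : ℕ) : R) := by
    rw [← Nat.cast_add]
    congr 1
    omega
  rw [h3]
  ring

theorem hm_map {R' : Type*} [CommRing R'] (φ : R →+* R') (n : ℕ) (f : ℕ → R) (A W : R) :
    φ (hm n f A W) = hm n (fun i => φ (f i)) (φ A) (φ W) := by
  unfold hm
  simp [map_sum, map_mul, map_pow]

theorem hA_map {R' : Type*} [CommRing R'] (φ : R →+* R') (n : ℕ) (f : ℕ → R) (A W : R) :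
    φ (hA n f A W) = hA n (fun i => φ (f i)) (φ A) (φ W) := by
  unfold hA
  simp [map_sum, map_mul, map_pow]

theorem hW_map {R' : Type*} [CommRing R'] (φ : R →+* R') (n : ℕ) (f : ℕ → R) (A W : R) :
    φ (hW n f A W) = hW n (fun i => φ (f i)) (φ A) (φ W) := by
  unfold hW
  simp [map_sum, map_mul, map_pow]

theorem hm_zero_right (n : ℕ) (f : ℕ → R) (A : R) : hm n f A 0 = f n * A ^ n := by
  unfold hm
  rw [Finset.sum_range_succ, Finset.sum_eq_zero, zero_add, Nat.sub_self, pow_zero, mul_one]
  intro i hi
  rw [Finset.mem_range] at hi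
  rw [zero_pow (by omega), mul_zero]

theorem hA_zero_right (n : ℕ) (f : ℕ → R) (A : R) :
    hA n f A 0 = n * f n * A ^ (n - 1) := by
  unfold hA
  rw [Finset.sum_range_succ, Finset.sum_eq_zero, zero_add, Nat.sub_self, pow_zero, mul_one]
  intro i hi
  rw [Finset.mem_range] at hi
  rw [zero_pow (by omega), mul_zero]

theorem hW_zero_right {n : ℕ} (hn : 1 ≤ n) (f : ℕ → R) (A : R) :
    hW n f A 0 = f (n - 1) * A ^ (n - 1) := by
  unfold hW
  obtain ⟨k, rfl⟩ : ∃ k, n = k + 1 := ⟨n - 1, by omega⟩
  rw [Finset.sum_range_succ, Finset.sum_range_succ, Finset.sum_eq_zero, zero_add]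
  · simp
  intro i hi
  rw [Finset.mem_range] at hi
  rw [zero_pow (by omega), mul_zero]

end forms

section field

variable {k : Type*} [Field k] [CharZero k]

theorem hm_of_ne (n : ℕ) (f : k[X]) (hf : f.natDegree ≤ n) {a w : k} (hw : w ≠ 0) :
    hm n f.coeff a w = w ^ n * f.eval (a / w) := by
  unfold hm
  rw [eval_eq_sum_range' (Nat.lt_succ_of_le hf), Finset.mul_sum]
  refine Finset.sum_congr rfl fun i hi => ?_
  rw [Finset.mem_range] at hi
  rw [div_pow]
  have h1 : w ^ n = w ^ (n - i) * w ^ i := by rw [← pow_add]; congr 1; omega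
  rw [h1]
  field_simp

theorem hA_of_ne (n : ℕ) (hn : 1 ≤ n) (f : k[X]) (hf : f.natDegree ≤ n) {a w : k}
    (hw : w ≠ 0) : w * hA n f.coeff a w = w ^ n * f.derivative.eval (a / w) := by
  unfold hA
  have hd : f.derivative.natDegree < n :=
    lt_of_le_of_lt (natDegree_derivative_le f) (by omega)
  rw [eval_eq_sum_range' hd, Finset.sum_range_succ']
  simp only [Nat.cast_zero, zero_mul, add_zero]
  rw [Finset.mul_sum, Finset.mul_sum]
  refine Finset.sum_congr rfl fun i hi => ?_
  rw [Finset.mem_range] at hi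
  rw [coeff_derivative, div_pow, Nat.add_sub_cancel]
  have h1 : w ^ n = w ^ (n - (i + 1)) * w ^ i * w := by
    rw [← pow_add, ← pow_succ]; congr 1; omega
  rw [h1]
  push_cast
  field_simp

/-- a form without multiple factors has no singular zeros -/
theorem ns (n : ℕ) (hn : 2 ≤ n) (f : k[X]) (hf : f.natDegree ≤ n) (hf' : n ≤ f.natDegree + 1)
    (hs : f.Separable) {a w : k} (haw : a ≠ 0 ∨ w ≠ 0) :
    hA n f.coeff a w ≠ 0 ∨ hW n f.coeff a w ≠ 0 := by
  by_contra hcon
  push Not at hcon
  obtain ⟨h1, h2⟩ := hcon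
  have hn0 : (n : k) ≠ 0 := by
    have : n ≠ 0 := by omega
    exact_mod_cast this
  by_cases hw : w = 0
  · subst hw
    have ha : a ≠ 0 := haw.resolve_right (fun h => h rfl)
    rw [hA_zero_right] at h1
    rw [hW_zero_right (by omega)] at h2
    have h3 : f.coeff n = 0 := by
      rcases mul_eq_zero.mp h1 with h | h
      · exact (mul_eq_zero.mp h).resolve_left hn0
      · exact absurd h (pow_ne_zero _ ha)
    have h4 : f.coeff (n - 1) = 0 := by
      rcases mul_eq_zero.mp h2 with h | h
      · exact h
      · exact absurd h (pow_ne_zero _ ha)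
    have hf0 : f ≠ 0 := by
      rintro rfl
      simp at hf'
      omega
    have h5 : f.leadingCoeff = 0 := by
      unfold leadingCoeff
      rcases Nat.lt_or_ge f.natDegree n with h | h
      · have : f.natDegree = n - 1 := by omega
        rw [this]; exact h4
      · have : f.natDegree = n := by omega
        rw [this]; exact h3
    exact hf0 (leadingCoeff_eq_zero.mp h5)
  · have h3 := euler n f.coeff a w
    rw [h1, h2, mul_zero, mul_zero, add_zero] at h3
    have h4 : hm n f.coeff a w = 0 := by
      rcases mul_eq_zero.mp h3.symm with h | h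
      · exact absurd h hn0
      · exact h
    rw [hm_of_ne n f hf hw] at h4
    have h5 := hA_of_ne n (by omega) f hf (a := a) hw
    rw [h1, mul_zero] at h5
    have hwn : w ^ n ≠ 0 := pow_ne_zero _ hw
    have h6 : f.eval (a / w) = 0 := (mul_eq_zero.mp h4).resolve_left hwn
    have h7 : f.derivative.eval (a / w) = 0 := (mul_eq_zero.mp h5.symm).resolve_left hwn
    obtain ⟨p, q, hpq⟩ := hs
    have h8 := congrArg (eval (a / w)) hpq
    rw [eval_add, eval_mul, eval_mul, h6, h7, mul_zero, mul_zero, add_zero, eval_one] at h8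
    exact zero_ne_one h8

end field

section poly

variable {k : Type*} [Field k]

/-- the polynomial `Φ (A, W)` -/
noncomputable def Ph (n : ℕ) (f A W : k[X]) : k[X] := hm n (fun i => C (f.coeff i)) A W

/-- the polynomial `Φ_A (A, W)` -/
noncomputable def PA (n : ℕ) (f A W : k[X]) : k[X] := hA n (fun i => C (f.coeff i)) A W

/-- the polynomial `Φ_W (A, W)` -/
noncomputable def PW (n : ℕ) (f A W : k[X]) : k[X] := hW n (fun i => C (f.coeff i)) A W

/-- the Wronskian -/
noncomputable def J (A W : k[X]) : k[X] := derivative A * W - A * derivative W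

theorem euler' (n : ℕ) (f A W : k[X]) :
    A * PA n f A W + W * PW n f A W = (n : k[X]) * Ph n f A W := euler _ _ _ _

theorem der_Ph (n : ℕ) (f A W : k[X]) : derivative (Ph n f A W) =
    PA n f A W * derivative A + PW n f A W * derivative W := by
  unfold Ph PA PW hm hA hW
  rw [derivative_sum, Finset.sum_mul, Finset.sum_mul, ← Finset.sum_add_distrib]
  refine Finset.sum_congr rfl fun i _ => ?_
  rw [derivative_mul, derivative_mul, derivative_C, derivative_pow, derivative_pow]
  simp only [map_natCast]
  ring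

theorem id1 (n : ℕ) (f A W : k[X]) :
    W * derivative (Ph n f A W) - (n : k[X]) * derivative W * Ph n f A W =
      PA n f A W * J A W := by
  rw [der_Ph]
  unfold J
  linear_combination (derivative W) * euler' n f A W

theorem id2 (n : ℕ) (f A W : k[X]) :
    A * derivative (Ph n f A W) - (n : k[X]) * derivative A * Ph n f A W =
      - (PW n f A W * J A W) := by
  rw [der_Ph]
  unfold J
  linear_combination (derivative A) * euler' n f A W

variable [CharZero k]

/-- the partial derivatives are coprime at coprime arguments -/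
theorem cop (n : ℕ) (hn : 2 ≤ n) (f : k[X]) (hf : f.natDegree ≤ n) (hf' : n ≤ f.natDegree + 1)
    (hs : f.Separable) {A W : k[X]} (hAW : IsCoprime A W) :
    IsCoprime (PA n f A W) (PW n f A W) := by
  have main : ∀ z : k[X], Prime z → z ∣ PA n f A W → ¬ z ∣ PW n f A W := by
    intro z hz h1 h2
    haveI : Fact (Irreducible z) := ⟨hz.irreducible⟩
    haveI : CharZero (AdjoinRoot z) :=
      charZero_of_injective_algebraMap (algebraMap k (AdjoinRoot z)).injective
    have h3 : AdjoinRoot.mk z (PA n f A W) = 0 := AdjoinRoot.mk_eq_zero.2 h1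
    have h4 : AdjoinRoot.mk z (PW n f A W) = 0 := AdjoinRoot.mk_eq_zero.2 h2
    unfold PA at h3
    unfold PW at h4
    rw [hA_map] at h3
    rw [hW_map] at h4
    have h5 : (fun i => AdjoinRoot.mk z (C (f.coeff i))) =
        (f.map (algebraMap k (AdjoinRoot z))).coeff := by
      funext i
      rw [coeff_map]
      rfl
    rw [h5] at h3 h4
    have h6 : AdjoinRoot.mk z A ≠ 0 ∨ AdjoinRoot.mk z W ≠ 0 := by
      by_contra hcon
      push Not at hcon
      rw [AdjoinRoot.mk_eq_zero, AdjoinRoot.mk_eq_zero] at hcon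
      exact hz.not_unit (hAW.isUnit_of_dvd' hcon.1 hcon.2)
    rcases ns n hn (f.map (algebraMap k (AdjoinRoot z))) (by rwa [natDegree_map])
      (by rwa [natDegree_map]) (hs.map) h6 with h | h
    · exact h h3
    · exact h h4
  refine isCoprime_of_prime_dvd ?_ main
  rintro ⟨h1, h2⟩
  exact main X prime_X (by rw [h1]; exact dvd_zero _) (by rw [h2]; exact dvd_zero _)

/-- the square root divides the Wronskian -/
theorem S_dvd (n : ℕ) (hn : 2 ≤ n) (f : k[X]) (hf : f.natDegree ≤ n) (hf' : n ≤ f.natDegree + 1)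
    (hs : f.Separable) {A W F S : k[X]} (hAW : IsCoprime A W) (h : F * S ^ 2 = Ph n f A W) :
    S ∣ J A W := by
  have h1 : S ∣ Ph n f A W := ⟨F * S, by rw [← h]; ring⟩
  have h2 : S ∣ derivative (Ph n f A W) := by
    rw [← h, derivative_mul, derivative_pow]
    refine dvd_add ?_ ?_
    · exact Dvd.dvd.mul_left (dvd_pow_self S two_ne_zero) _
    · refine Dvd.dvd.mul_left ?_ _
      refine Dvd.dvd.mul_right ?_ _
      refine Dvd.dvd.mul_left ?_ _
      simp
  have h3 : S ∣ PA n f A W * J A W := by
    rw [← id1]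
    exact dvd_sub (h2.mul_left _) (h1.mul_left _)
  have h4 : S ∣ PW n f A W * J A W := by
    rw [← dvd_neg, ← id2]
    exact dvd_sub (h2.mul_left _) (h1.mul_left _)
  obtain ⟨u, v, huv⟩ := cop n hn f hf hf' hs hAW
  have h5 : J A W = u * (PA n f A W * J A W) + v * (PW n f A W * J A W) := by
    linear_combination (-(J A W)) * huv
  rw [h5]
  exact dvd_add (h3.mul_left _) (h4.mul_left _)

theorem J_zero {A W : k[X]} (hAW : IsCoprime A W) (h : J A W = 0) :
    A.natDegree = 0 ∧ W.natDegree = 0 := by
  unfold J at h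
  have h1 : derivative A * W = A * derivative W := sub_eq_zero.mp h
  have h2 : A ∣ derivative A := hAW.dvd_of_dvd_mul_right ⟨derivative W, h1⟩
  have h3 : W ∣ derivative W := hAW.symm.dvd_of_dvd_mul_left ⟨derivative A, by rw [← h1]; ring⟩
  have key : ∀ B : k[X], B ∣ derivative B → B.natDegree = 0 := by
    intro B hB
    by_contra hne
    have h4 : derivative B ≠ 0 := by
      intro h0
      exact hne (natDegree_eq_zero_of_derivative_eq_zero h0)
    have h5 := natDegree_le_of_dvd hB h4
    have h6 := natDegree_derivative_lt hne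
    omega
  exact ⟨key A h2, key W h3⟩

theorem J_deg {A W : k[X]} {M : ℕ} (hM : 1 ≤ M) (hA : A.natDegree ≤ M) (hW : W.natDegree ≤ M) :
    (J A W).natDegree ≤ 2 * M - 2 := by
  have h1 : (J A W).natDegree ≤ 2 * M - 1 := by
    unfold J
    refine (natDegree_sub_le _ _).trans (max_le ?_ ?_)
    · refine natDegree_mul_le.trans ?_
      have := natDegree_derivative_le A
      omega
    · refine natDegree_mul_le.trans ?_
      have := natDegree_derivative_le W
      omega
  have h2 : (J A W).coeff (2 * M - 1) = 0 := by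
    obtain ⟨m, rfl⟩ : ∃ m, M = m + 1 := ⟨M - 1, by omega⟩
    unfold J
    rw [coeff_sub]
    have e1 : 2 * (m + 1) - 1 = m + (m + 1) := by omega
    have e2 : 2 * (m + 1) - 1 = (m + 1) + m := by omega
    have hA' : (derivative A).natDegree ≤ m := (natDegree_derivative_le A).trans (by omega)
    have hW' : (derivative W).natDegree ≤ m := (natDegree_derivative_le W).trans (by omega)
    have a1 : (derivative A * W).coeff (m + (m + 1)) =
        (derivative A).coeff m * W.coeff (m + 1) := coeff_mul_add_eq_of_natDegree_le hA' hW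
    have a2 : (A * derivative W).coeff ((m + 1) + m) =
        A.coeff (m + 1) * (derivative W).coeff m := coeff_mul_add_eq_of_natDegree_le hA hW'
    rw [e1, a1, ← e1, e2, a2, coeff_derivative, coeff_derivative]
    ring
  by_contra hcon
  have h3 : (J A W).natDegree = 2 * M - 1 := by omega
  have h4 : J A W = 0 := by
    rw [← leadingCoeff_eq_zero]
    unfold leadingCoeff
    rw [h3]
    exact h2
  rw [h4, natDegree_zero] at hcon
  omega

theorem top_form {n M : ℕ} {A W : k[X]} (hA : A.natDegree ≤ M) (hW : W.natDegree ≤ M) (i j : ℕ)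
    (hij : i + j = n) : (A ^ i * W ^ j).coeff (n * M) = A.coeff M ^ i * W.coeff M ^ j ∧
      (A ^ i * W ^ j).natDegree ≤ n * M := by
  have h1 : (A ^ i).natDegree ≤ i * M := natDegree_pow_le.trans (Nat.mul_le_mul_left _ hA)
  have h2 : (W ^ j).natDegree ≤ j * M := natDegree_pow_le.trans (Nat.mul_le_mul_left _ hW)
  have h3 : n * M = i * M + j * M := by rw [← hij]; ring
  constructor
  · rw [h3, coeff_mul_add_eq_of_natDegree_le h1 h2, coeff_pow_of_natDegree_le hA,
      coeff_pow_of_natDegree_le hW]
  · rw [h3]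
    exact natDegree_mul_le.trans (by omega)

theorem top_PA (n M : ℕ) (hn : 1 ≤ n) (f : k[X]) {A W : k[X]} (hA : A.natDegree ≤ M)
    (hW : W.natDegree ≤ M) :
    (PA n f A W).coeff ((n - 1) * M) = Pool.Agent.Q29.TW.hA n f.coeff (A.coeff M) (W.coeff M) := by
  unfold PA Pool.Agent.Q29.TW.hA
  rw [finset_sum_coeff]
  refine Finset.sum_congr rfl fun i hi => ?_
  rw [Finset.mem_range] at hi
  rcases Nat.eq_zero_or_pos i with rfl | h
  · simp
  · have h1 := (top_form (n := n - 1) hA hW (i - 1) (n - i) (by omega)).1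
    have h2 : ((i : k[X]) * C (f.coeff i) * A ^ (i - 1) * W ^ (n - i)) =
        C ((i : k) * f.coeff i) * (A ^ (i - 1) * W ^ (n - i)) := by
      simp only [map_mul, map_natCast]
      ring
    rw [h2, coeff_C_mul, h1]
    ring

theorem top_PW (n M : ℕ) (hn : 1 ≤ n) (f : k[X]) {A W : k[X]} (hA : A.natDegree ≤ M)
    (hW : W.natDegree ≤ M) :
    (PW n f A W).coeff ((n - 1) * M) = Pool.Agent.Q29.TW.hW n f.coeff (A.coeff M) (W.coeff M) := by
  unfold PW Pool.Agent.Q29.TW.hW
  rw [finset_sum_coeff]
  refine Finset.sum_congr rfl fun i hi => ?_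
  rw [Finset.mem_range] at hi
  rcases Nat.eq_zero_or_pos (n - i) with h | h
  · rw [h]; simp
  · have h1 := (top_form (n := n - 1) hA hW i (n - i - 1) (by omega)).1
    have h2 : (((n - i : ℕ) : k[X]) * C (f.coeff i) * A ^ i * W ^ (n - i - 1)) =
        C (((n - i : ℕ) : k) * f.coeff i) * (A ^ i * W ^ (n - i - 1)) := by
      simp only [map_mul, map_natCast]
      ring
    rw [h2, coeff_C_mul, h1]
    ring

/-- **The degrees**: with `c = J / S` one has `(n - 4) M + 2 deg c + 3 ≤ deg F`. -/
theorem main_deg (n : ℕ) (hn : 4 ≤ n) (f : k[X]) (hf : f.natDegree ≤ n)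
    (hf' : n ≤ f.natDegree + 1) (hs : f.Separable) {A W F S : k[X]} (hAW : IsCoprime A W)
    (h : F * S ^ 2 = Ph n f A W) (hJ : J A W ≠ 0) :
    ∃ c : k[X], J A W = S * c ∧
      (n - 4) * max A.natDegree W.natDegree + 2 * c.natDegree + 3 ≤ F.natDegree := by
  obtain ⟨c, hc⟩ := S_dvd n (by omega) f hf hf' hs hAW h
  refine ⟨c, hc, ?_⟩
  obtain ⟨M, hM⟩ : ∃ M, M = max A.natDegree W.natDegree := ⟨_, rfl⟩
  have hA : A.natDegree ≤ M := by omega
  have hW : W.natDegree ≤ M := by omega
  have hM1 : 1 ≤ M := by
    by_contra hcon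
    apply hJ
    have h1 : derivative A = 0 := by
      rw [eq_C_of_natDegree_eq_zero (p := A) (by omega), derivative_C]
    have h2 : derivative W = 0 := by
      rw [eq_C_of_natDegree_eq_zero (p := W) (by omega), derivative_C]
    unfold J
    rw [h1, h2]
    ring
  rw [← hM]
  have hS0 : S ≠ 0 := by
    rintro rfl
    rw [zero_mul] at hc
    exact hJ hc
  have hc0 : c ≠ 0 := by
    rintro rfl
    rw [mul_zero] at hc
    exact hJ hc
  have haw : A.coeff M ≠ 0 ∨ W.coeff M ≠ 0 := by
    by_contra hcon
    push Not at hcon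
    rcases max_choice A.natDegree W.natDegree with h1 | h1
    · rw [hM, h1, coeff_natDegree, leadingCoeff_eq_zero] at hcon
      rw [h1, hcon.1, natDegree_zero] at hM
      omega
    · rw [hM, h1, coeff_natDegree, leadingCoeff_eq_zero] at hcon
      rw [h1, hcon.2, natDegree_zero] at hM
      omega
  have hF0 : F ≠ 0 := by
    rintro rfl
    rw [zero_mul] at h
    have e1 := id1 n f A W
    have e2 := id2 n f A W
    rw [← h, derivative_zero, mul_zero, mul_zero, sub_zero] at e1 e2
    rcases ns n (by omega) f hf hf' hs haw with h1 | h1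
    · have h2 : PA n f A W ≠ 0 := by
        intro h3
        rw [← top_PA n M (by omega) f hA hW, h3, coeff_zero] at h1
        exact h1 rfl
      exact mul_ne_zero h2 hJ e1.symm
    · have h2 : PW n f A W ≠ 0 := by
        intro h3
        rw [← top_PW n M (by omega) f hA hW, h3, coeff_zero] at h1
        exact h1 rfl
      have := neg_eq_zero.mp e2.symm
      exact mul_ne_zero h2 hJ this
  have hPh0 : Ph n f A W ≠ 0 := by
    rw [← h]
    exact mul_ne_zero hF0 (pow_ne_zero _ hS0)
  have hdPh : (Ph n f A W).natDegree = F.natDegree + 2 * S.natDegree := by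
    rw [← h, natDegree_mul hF0 (pow_ne_zero _ hS0), natDegree_pow]
  have hdJ : (J A W).natDegree = S.natDegree + c.natDegree := by
    rw [hc, natDegree_mul hS0 hc0]
  have hJ2 := J_deg hM1 hA hW
  -- a bound for the products
  have hprod : ∀ B : k[X], B.natDegree ≤ M →
      (B * derivative (Ph n f A W) - (n : k[X]) * derivative B * Ph n f A W).natDegree + 1 ≤
        M + (Ph n f A W).natDegree := by
    intro B hB
    have h1 : (B * derivative (Ph n f A W)).natDegree + 1 ≤ M + (Ph n f A W).natDegree := by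
      by_cases h0 : (Ph n f A W).natDegree = 0
      · have : derivative (Ph n f A W) = 0 := by
          rw [eq_C_of_natDegree_eq_zero h0, derivative_C]
        rw [this, mul_zero, natDegree_zero]
        omega
      · have h2 := natDegree_mul_le (p := B) (q := derivative (Ph n f A W))
        have h3 := natDegree_derivative_le (Ph n f A W)
        omega
    have h2 : ((n : k[X]) * derivative B * Ph n f A W).natDegree + 1 ≤
        M + (Ph n f A W).natDegree := by
      have h3 := natDegree_mul_le (p := (n : k[X]) * derivative B) (q := Ph n f A W)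
      have h4 := natDegree_mul_le (p := (n : k[X])) (q := derivative B)
      have h5 := natDegree_derivative_le B
      rw [natDegree_natCast] at h4
      omega
    have h3 := natDegree_sub_le (B * derivative (Ph n f A W))
      ((n : k[X]) * derivative B * Ph n f A W)
    omega
  have hkey : (n - 1) * M + (J A W).natDegree + 1 ≤ M + (Ph n f A W).natDegree := by
    rcases ns n (by omega) f hf hf' hs haw with h1 | h1
    · rw [← top_PA n M (by omega) f hA hW] at h1
      have h2 : PA n f A W ≠ 0 := by
        intro h3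
        rw [h3, coeff_zero] at h1
        exact h1 rfl
      have h3 := le_natDegree_of_ne_zero h1
      have h4 := hprod W hW
      rw [id1, natDegree_mul h2 hJ] at h4
      omega
    · rw [← top_PW n M (by omega) f hA hW] at h1
      have h2 : PW n f A W ≠ 0 := by
        intro h3
        rw [h3, coeff_zero] at h1
        exact h1 rfl
      have h3 := le_natDegree_of_ne_zero h1
      have h4 := hprod A hA
      rw [id2, natDegree_neg, natDegree_mul h2 hJ] at h4
      omega
  rw [hdPh, hdJ] at hkey
  rw [hdJ] at hJ2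
  obtain ⟨q, rfl⟩ : ∃ q, n = q + 4 := ⟨n - 4, by omega⟩
  have e1 : (q + 4 - 1) * M = q * M + 3 * M := by
    have : q + 4 - 1 = q + 3 := by omega
    rw [this]
    ring
  have e2 : (q + 4 - 4) * M = q * M := by rw [Nat.add_sub_cancel]
  rw [e1] at hkey
  rw [e2]
  omega

end poly

end Pool.Agent.Q29.TW
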