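import Mathlib
import Pool.Agent.Q29.TW.FF

/-!
# Solutions of `G y² = f(x)` in rational functions: counting
-/

set_option autoImplicit false

namespace Pool.Agent.Q29.TW

open Polynomial Finset

section lift

variable {k : Type*} [Field k]

theorem Ph_mul (n : ℕ) (f g A W : k[X]) : Ph n f (g * A) (g * W) = g ^ n * Ph n f A W := by
  unfold Ph hm
  rw [Finset.mul_sum]
  refine Finset.sum_congr rfl fun i hi => ?_
  rw [Finset.mem_range] at hi
  have h1 : g ^ n = g ^ i * g ^ (n - i) := by rw [← pow_add]; congr 1; omega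
  rw [h1]
  ring

/-- reduction to lowest terms -/
theorem lift_point (m : ℕ) (f : k[X]) {U V W0 G : k[X]} (hG : Squarefree G)
    (hW0 : W0 ≠ 0) (h : G * V ^ 2 * W0 ^ (2 * m) = Ph (2 * (m + 1)) f U W0) :
    ∃ A W S : k[X], IsCoprime A W ∧ W ≠ 0 ∧ U * W = W0 * A ∧
      G * S ^ 2 = Ph (2 * (m + 1)) f A W := by
  classical
  obtain ⟨g, hg⟩ : ∃ g, g = EuclideanDomain.gcd U W0 := ⟨_, rfl⟩
  have hg0 : g ≠ 0 := by
    intro h0
    rw [hg, EuclideanDomain.gcd_eq_zero_iff] at h0
    exact hW0 h0.2
  obtain ⟨A, hA⟩ : g ∣ U := by rw [hg]; exact EuclideanDomain.gcd_dvd_left _ _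
  obtain ⟨W, hW⟩ : g ∣ W0 := by rw [hg]; exact EuclideanDomain.gcd_dvd_right _ _
  have hWne : W ≠ 0 := by
    rintro rfl
    rw [mul_zero] at hW
    exact hW0 hW
  have hcop : IsCoprime A W := by
    have h1 := EuclideanDomain.gcd_eq_gcd_ab U W0
    rw [← hg] at h1
    refine ⟨EuclideanDomain.gcdA U W0, EuclideanDomain.gcdB U W0, ?_⟩
    apply mul_left_cancel₀ hg0
    rw [mul_one]
    conv_rhs => rw [h1]
    rw [hA, hW]
    ring
  have hG0 : G ≠ 0 := hG.ne_zero
  have h2 : G * (V * W ^ m) ^ 2 = g ^ 2 * Ph (2 * (m + 1)) f A W := by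
    rw [hA, hW, Ph_mul] at h
    apply mul_left_cancel₀ (pow_ne_zero (2 * m) hg0)
    calc g ^ (2 * m) * (G * (V * W ^ m) ^ 2) = G * V ^ 2 * (g * W) ^ (2 * m) := by
          rw [mul_pow g W]; ring
      _ = g ^ (2 * (m + 1)) * Ph (2 * (m + 1)) f A W := h
      _ = _ := by ring
  have h3 : g ^ 2 ∣ (G * (V * W ^ m)) ^ 2 :=
    ⟨G * Ph (2 * (m + 1)) f A W, by linear_combination G * h2⟩
  obtain ⟨Y, hY⟩ := (IsIntegrallyClosed.pow_dvd_pow_iff two_ne_zero).1 h3
  have h4 : Y ^ 2 = G * Ph (2 * (m + 1)) f A W := by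
    apply mul_left_cancel₀ (pow_ne_zero 2 hg0)
    calc g ^ 2 * Y ^ 2 = (G * (V * W ^ m)) ^ 2 := by rw [hY]; ring
      _ = g ^ 2 * (G * Ph (2 * (m + 1)) f A W) := by linear_combination G * h2
  obtain ⟨S, hS⟩ : G ∣ Y := (hG.dvd_pow_iff_dvd two_ne_zero).1 ⟨_, h4⟩
  refine ⟨A, W, S, hcop, hWne, by rw [hA, hW]; ring, ?_⟩
  apply mul_left_cancel₀ hG0
  rw [← h4, hS]
  ring

end lift

section count

variable {k : Type} [Field k] [CharZero k]

/-- the value at a point of the algebraic closure; `none` is infinity -/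
noncomputable def val (A W : k[X]) (α : AlgebraicClosure k) : Option (AlgebraicClosure k) :=
  open Classical in if aeval α W = 0 then none else some (aeval α A / aeval α W)

theorem val_eq {A W A' W' : k[X]} (h : IsCoprime A W) (h' : IsCoprime A' W')
    {α : AlgebraicClosure k} (hv : val A W α = val A' W' α) :
    aeval α (A * W' - A' * W) = 0 := by
  unfold val at hv
  rw [map_sub, map_mul, map_mul]
  by_cases h1 : aeval α W = 0
  · rw [if_pos h1] at hv
    by_cases h2 : aeval α W' = 0
    · rw [h1, h2]; ring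
    · rw [if_neg h2] at hv
      exact absurd hv (by simp)
  · rw [if_neg h1] at hv
    by_cases h2 : aeval α W' = 0
    · rw [if_pos h2] at hv
      exact absurd hv (by simp)
    · rw [if_neg h2, Option.some.injEq, div_eq_div_iff h1 h2] at hv
      linear_combination hv

open Classical in
/-- infinity and the roots of `f` -/
noncomputable def Zf (n : ℕ) (f : k[X]) : Finset (Option (AlgebraicClosure k)) :=
  (if f.natDegree = n then ∅ else {none}) ∪
    ((f.map (algebraMap k (AlgebraicClosure k))).roots.toFinset.image some)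

omit [CharZero k] in
theorem Zf_card (n : ℕ) (f : k[X]) (hf : f.natDegree ≤ n) : (Zf n f).card ≤ n := by
  classical
  unfold Zf
  refine (Finset.card_union_le _ _).trans ?_
  have h1 : ((f.map (algebraMap k (AlgebraicClosure k))).roots.toFinset.image some).card ≤
      f.natDegree := by
    refine Finset.card_image_le.trans ?_
    refine (Multiset.toFinset_card_le _).trans ?_
    refine (card_roots' _).trans ?_
    rw [natDegree_map]
  split_ifs with h
  · rw [Finset.card_empty]
    omega
  · rw [Finset.card_singleton]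
    omega

theorem val_mem (n : ℕ) (f : k[X]) (hf : f.natDegree ≤ n) (hf0 : f ≠ 0) {A W G S : k[X]}
    (hAW : IsCoprime A W)
    (h : G * S ^ 2 = Ph n f A W) {α : AlgebraicClosure k} (hα : aeval α G = 0) :
    val A W α ∈ Zf n f := by
  classical
  have h2 := congrArg (aeval α) h
  rw [map_mul, hα, zero_mul] at h2
  have h3 : aeval α (Ph n f A W) = hm n (f.map (algebraMap k (AlgebraicClosure k))).coeff
      (aeval α A) (aeval α W) := by
    have h4 := hm_map (aeval α : k[X] →ₐ[k] AlgebraicClosure k).toRingHom n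
      (fun i => C (f.coeff i)) A W
    unfold Ph
    refine Eq.trans h4 ?_
    congr 1
    funext i
    rw [coeff_map]
    show aeval α (C (f.coeff i)) = _
    rw [aeval_C]
  rw [h3] at h2
  unfold val Zf
  by_cases h1 : aeval α W = 0
  · rw [if_pos h1]
    refine Finset.mem_union_left _ ?_
    have hne : f.natDegree ≠ n := by
      intro hn
      rw [h1, hm_zero_right] at h2
      rcases mul_eq_zero.mp h2.symm with h5 | h5
      · rw [coeff_map, ← hn, coeff_natDegree, map_eq_zero] at h5
        exact hf0 (leadingCoeff_eq_zero.mp h5)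
      · have h6 : aeval α A = 0 := eq_zero_of_pow_eq_zero h5
        obtain ⟨a, b, hab⟩ := hAW
        have h7 := congrArg (aeval α) hab
        rw [map_add, map_mul, map_mul, h6, h1, mul_zero, mul_zero, add_zero, map_one] at h7
        exact zero_ne_one h7
    rw [if_neg hne]
    exact Finset.mem_singleton_self _
  · rw [if_neg h1]
    refine Finset.mem_union_right _ (Finset.mem_image.2 ⟨_, ?_, rfl⟩)
    rw [Multiset.mem_toFinset]
    rw [hm_of_ne n _ (by rwa [natDegree_map]) h1] at h2
    have h5 := (mul_eq_zero.mp h2.symm).resolve_left (pow_ne_zero _ h1)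
    rw [mem_roots']
    refine ⟨?_, h5⟩
    intro h6
    rw [Polynomial.map_eq_zero] at h6
    exact hf0 h6

/-- the roots of `G` -/
noncomputable def Rt (G : k[X]) : Finset (AlgebraicClosure k) :=
  open Classical in (G.map (algebraMap k (AlgebraicClosure k))).roots.toFinset

theorem Rt_card {G : k[X]} (hG : Squarefree G) : (Rt G).card = G.natDegree := by
  classical
  have hsep : G.Separable := PerfectField.separable_iff_squarefree.2 hG
  have h2 := IsAlgClosed.splits (G.map (algebraMap k (AlgebraicClosure k)))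
  unfold Rt
  rw [Multiset.toFinset_card_of_nodup (nodup_roots hsep.map), ← h2.natDegree_eq_card_roots,
    natDegree_map]

theorem Rt_mem {G : k[X]} {α : AlgebraicClosure k} (h : α ∈ Rt G) : aeval α G = 0 := by
  classical
  have h1 := Multiset.mem_toFinset.1 h
  rw [mem_roots'] at h1
  have := h1.2
  rwa [IsRoot.def, eval_map_algebraMap] at this

/-- polynomials of small degree with too many zeros vanish -/
theorem eq_zero_of_Rt {B : k[X]} (R : Finset (AlgebraicClosure k)) (hB : B.natDegree < R.card)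
    (h : ∀ α ∈ R, aeval α B = 0) : B = 0 := by
  classical
  by_contra hB0
  have h1 : (B.map (algebraMap k (AlgebraicClosure k))) ≠ 0 := by
    intro h2
    rw [Polynomial.map_eq_zero] at h2
    exact hB0 h2
  have h2 : R.card ≤ B.natDegree := by
    refine le_trans ?_ ((card_roots' (B.map (algebraMap k (AlgebraicClosure k)))).trans
      (by rw [natDegree_map]))
    refine le_trans ?_ (Multiset.toFinset_card_le _)
    refine Finset.card_le_card fun α hα => ?_
    rw [Multiset.mem_toFinset, mem_roots']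
    refine ⟨h1, ?_⟩
    rw [IsRoot.def, eval_map_algebraMap]
    exact h α hα
  omega

/-- **The count.** -/
theorem count (m : ℕ) (hm : 2 ≤ m) (f : k[X]) (hf : f.natDegree ≤ 2 * (m + 1))
    (hf' : 2 * (m + 1) ≤ f.natDegree + 1) (hs : f.Separable) {G : k[X]} (hG : Squarefree G)
    (hG1 : 1 ≤ G.natDegree) (t : k) (hGt : G.eval t ≠ 0) (P : Set (k × k))
    (hP : ∀ q ∈ P, G.eval t * q.2 ^ 2 = f.eval q.1 ∧ ∃ U V W0 : k[X], W0.eval t ≠ 0 ∧
      q.1 = U.eval t / W0.eval t ∧ G * V ^ 2 * W0 ^ (2 * m) = Ph (2 * (m + 1)) f U W0) :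
    (P.Finite ∧ P.ncard ≤ 2 * (2 * m + 2) ^ (2 * ((G.natDegree - 3) / (2 * m - 2)) + 1) +
      f.natDegree) ∧ (G.natDegree ≤ 2 * m → ∀ q ∈ P, q.2 = 0) := by
  classical
  have hf0 : f ≠ 0 := by
    rintro rfl
    simp at hf'
    omega
  -- lowest terms
  have hlow : ∀ q ∈ P, ∃ A W S : k[X], IsCoprime A W ∧ W.eval t ≠ 0 ∧
      q.1 = A.eval t / W.eval t ∧ G * S ^ 2 = Ph (2 * (m + 1)) f A W := by
    intro q hq
    obtain ⟨_, U, V, W0, hW0, hq1, hrel⟩ := hP q hq
    have hW00 : W0 ≠ 0 := by
      rintro rfl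
      rw [eval_zero] at hW0
      exact hW0 rfl
    obtain ⟨A, W, S, hcop, hW, hUW, hS⟩ := lift_point m f hG hW00 hrel
    have h1 : U.eval t * W.eval t = W0.eval t * A.eval t := by
      rw [← eval_mul, ← eval_mul, hUW]
    have h2 : W.eval t ≠ 0 := by
      intro h2
      rw [h2, mul_zero] at h1
      have h3 : A.eval t = 0 := (mul_eq_zero.mp h1.symm).resolve_left hW0
      obtain ⟨a, b, hab⟩ := hcop
      have h4 := congrArg (eval t) hab
      rw [eval_add, eval_mul, eval_mul, h2, h3, mul_zero, mul_zero, add_zero, eval_one] at h4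
      exact zero_ne_one h4
    refine ⟨A, W, S, hcop, h2, ?_, hS⟩
    rw [hq1, div_eq_div_iff hW0 h2]
    linear_combination h1
  choose! A W S hcop hWt hq1 hrel using hlow
  -- the constant ones
  have hconst : ∀ q ∈ P, J (A q) (W q) = 0 → f.eval q.1 = 0 ∧ q.2 = 0 := by
    intro q hq hJ
    obtain ⟨hA0, hW0⟩ := J_zero (hcop q hq) hJ
    have hr := hrel q hq
    have hAC : A q = C ((A q).eval t) := by
      conv_lhs => rw [eq_C_of_natDegree_eq_zero hA0]
      rw [eq_C_of_natDegree_eq_zero hA0, eval_C, coeff_C_zero]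
    have hWC : W q = C ((W q).eval t) := by
      conv_lhs => rw [eq_C_of_natDegree_eq_zero hW0]
      rw [eq_C_of_natDegree_eq_zero hW0, eval_C, coeff_C_zero]
    have h1 : Ph (2 * (m + 1)) f (A q) (W q) =
        C (Pool.Agent.Q29.TW.hm (2 * (m + 1)) f.coeff ((A q).eval t) ((W q).eval t)) := by
      rw [hm_map (C : k →+* k[X])]
      unfold Ph
      rw [← hAC, ← hWC]
    have h2 : Pool.Agent.Q29.TW.hm (2 * (m + 1)) f.coeff ((A q).eval t) ((W q).eval t) = 0 := by
      by_contra hne
      rw [h1] at hr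
      have h3 : S q ≠ 0 := by
        intro h3
        rw [h3] at hr
        have : (C (Pool.Agent.Q29.TW.hm (2 * (m + 1)) f.coeff ((A q).eval t)
          ((W q).eval t)) : k[X]) = 0 := by rw [← hr]; ring
        rw [C_eq_zero] at this
        exact hne this
      have h4 := congrArg natDegree hr
      rw [natDegree_C, natDegree_mul hG.ne_zero (pow_ne_zero _ h3)] at h4
      omega
    rw [hm_of_ne _ f hf (hWt q hq), ← hq1 q hq] at h2
    have h3 : f.eval q.1 = 0 := (mul_eq_zero.mp h2).resolve_left (pow_ne_zero _ (hWt q hq))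
    refine ⟨h3, ?_⟩
    have h4 := (hP q hq).1
    rw [h3] at h4
    have h5 := (mul_eq_zero.mp h4).resolve_left hGt
    exact pow_eq_zero_iff two_ne_zero |>.1 h5
  -- the degrees
  have hdeg : ∀ q ∈ P, J (A q) (W q) ≠ 0 → 2 * m + 1 ≤ G.natDegree ∧
      max (A q).natDegree (W q).natDegree ≤ (G.natDegree - 3) / (2 * m - 2) := by
    intro q hq hJ
    obtain ⟨c, _, hc⟩ := main_deg _ (by omega) f hf hf' hs (hcop q hq) (hrel q hq) hJ
    have hM1 : 1 ≤ max (A q).natDegree (W q).natDegree := by
      by_contra hcon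
      apply hJ
      have h1 : derivative (A q) = 0 := by
        rw [eq_C_of_natDegree_eq_zero (p := A q) (by omega), derivative_C]
      have h2 : derivative (W q) = 0 := by
        rw [eq_C_of_natDegree_eq_zero (p := W q) (by omega), derivative_C]
      unfold J
      rw [h1, h2]
      ring
    have e1 : 2 * (m + 1) - 4 = 2 * m - 2 := by omega
    rw [e1] at hc
    constructor
    · have : (2 * m - 2) * 1 ≤ (2 * m - 2) * max (A q).natDegree (W q).natDegree :=
        Nat.mul_le_mul_left _ hM1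
      omega
    · rw [Nat.le_div_iff_mul_le (by omega), mul_comm]
      omega
  refine ⟨?_, ?_⟩
  swap
  · intro hG2 q hq
    by_cases hJ : J (A q) (W q) = 0
    · exact (hconst q hq hJ).2
    · have := (hdeg q hq hJ).1
      omega
  -- the nonconstant ones
  obtain ⟨P0, hP0⟩ : ∃ P0 : Set (k × k), P0 = {q ∈ P | J (A q) (W q) = 0} := ⟨_, rfl⟩
  obtain ⟨P1, hP1⟩ : ∃ P1 : Set (k × k), P1 = {q ∈ P | J (A q) (W q) ≠ 0} := ⟨_, rfl⟩
  have hunion : P = P0 ∪ P1 := by
    rw [hP0, hP1]
    ext q
    simp only [Set.mem_union, Set.mem_setOf_eq]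
    tauto
  have h0 : P0.Finite ∧ P0.ncard ≤ f.natDegree := by
    have hmaps : ∀ q ∈ P0, q.1 ∈ (f.roots.toFinset : Set k) := by
      intro q hq
      rw [hP0] at hq
      rw [Finset.mem_coe, Multiset.mem_toFinset, mem_roots hf0]
      exact (hconst q hq.1 hq.2).1
    have hinj : Set.InjOn (fun q : k × k => q.1) P0 := by
      intro q hq q' hq' h
      rw [hP0] at hq hq'
      exact Prod.ext h (by rw [(hconst q hq.1 hq.2).2, (hconst q' hq'.1 hq'.2).2])
    refine ⟨Set.Finite.of_injOn hmaps hinj (Finset.finite_toSet _), ?_⟩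
    refine (Set.ncard_le_ncard_of_injOn _ hmaps hinj (Finset.finite_toSet _)).trans ?_
    rw [Set.ncard_coe_finset]
    exact (Multiset.toFinset_card_le _).trans (card_roots' f)
  have h1 : P1.Finite ∧ P1.ncard ≤
      2 * (2 * m + 2) ^ (2 * ((G.natDegree - 3) / (2 * m - 2)) + 1) := by
    by_cases hne : P1 = ∅
    · rw [hne]
      exact ⟨Set.finite_empty, by rw [Set.ncard_empty]; exact Nat.zero_le _⟩
    obtain ⟨q1, hq1'⟩ := Set.nonempty_iff_ne_empty.2 hne
    obtain ⟨M, hM⟩ : ∃ M, M = (G.natDegree - 3) / (2 * m - 2) := ⟨_, rfl⟩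
    rw [← hM]
    have hMG : 2 * M + 1 ≤ (Rt G).card := by
      rw [Rt_card hG]
      rw [hP1] at hq1'
      have h2 := (hdeg q1 hq1'.1 hq1'.2).1
      have h3 : M * (2 * m - 2) ≤ G.natDegree - 3 := by
        rw [hM]
        exact Nat.div_mul_le_self _ _
      have h4 : M * 2 ≤ M * (2 * m - 2) := Nat.mul_le_mul_left _ (by omega)
      omega
    obtain ⟨R, hRsub, hRcard⟩ := Finset.exists_subset_card_eq hMG
    obtain ⟨T, hT⟩ : ∃ T : Finset ((↥R → Option (AlgebraicClosure k)) × Bool),
      T = (Fintype.piFinset fun _ : ↥R => Zf (2 * (m + 1)) f) ×ˢ Finset.univ := ⟨_, rfl⟩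
    -- a choice of the square root
    obtain ⟨y0, hy0⟩ : ∃ y0 : k → k, ∀ q ∈ P, q.2 = y0 q.1 ∨ q.2 = - y0 q.1 := by
      have h2 : ∀ x : k, ∃ y : k, ∀ q ∈ P, q.1 = x → q.2 = y ∨ q.2 = - y := by
        intro x
        by_cases hx : ∃ q ∈ P, q.1 = x
        · obtain ⟨q, hq, hqx⟩ := hx
          refine ⟨q.2, fun q' hq' hqx' => ?_⟩
          have e1 := (hP q hq).1
          have e2 := (hP q' hq').1
          rw [hqx] at e1
          rw [hqx', ← e1] at e2
          exact sq_eq_sq_iff_eq_or_eq_neg.1 (mul_left_cancel₀ hGt e2)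
        · exact ⟨0, fun q hq hqx => absurd ⟨q, hq, hqx⟩ hx⟩
      choose y hy using h2
      exact ⟨y, fun q hq => hy q.1 q hq rfl⟩
    obtain ⟨g, hg⟩ : ∃ g : k × k → (↥R → Option (AlgebraicClosure k)) × Bool,
      g = fun q => (fun α => val (A q) (W q) α.1, decide (q.2 = y0 q.1)) := ⟨_, rfl⟩
    have hmaps : ∀ q ∈ P1, g q ∈ (T : Set _) := by
      intro q hq
      rw [hP1] at hq
      rw [hT, Finset.mem_coe, Finset.mem_product]
      refine ⟨?_, Finset.mem_univ _⟩
      rw [Fintype.mem_piFinset, hg]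
      intro α
      exact val_mem _ f hf hf0 (hcop q hq.1) (hrel q hq.1) (Rt_mem (hRsub α.2))
    have hinj : Set.InjOn g P1 := by
      intro q hq q' hq' h
      have hqP : q ∈ P ∧ J (A q) (W q) ≠ 0 := by rw [hP1] at hq; exact hq
      have hqP' : q' ∈ P ∧ J (A q') (W q') ≠ 0 := by rw [hP1] at hq'; exact hq'
      rw [hg] at h
      obtain ⟨ha, hb⟩ := Prod.ext_iff.1 h
      have h3 : A q * W q' - A q' * W q = 0 := by
        refine eq_zero_of_Rt R ?_ fun α hα => ?_
        · have e1 := (hdeg q hqP.1 hqP.2).2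
          have e2 := (hdeg q' hqP'.1 hqP'.2).2
          rw [← hM] at e1 e2
          rw [hRcard]
          refine lt_of_le_of_lt (natDegree_sub_le _ _) (max_lt ?_ ?_)
          · refine lt_of_le_of_lt natDegree_mul_le ?_
            omega
          · refine lt_of_le_of_lt natDegree_mul_le ?_
            omega
        · exact val_eq (hcop q hqP.1) (hcop q' hqP'.1) (congrFun ha ⟨α, hα⟩)
      have h4 := congrArg (eval t) h3
      rw [eval_sub, eval_mul, eval_mul, eval_zero] at h4
      have h5 : q.1 = q'.1 := by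
        rw [hq1 q hqP.1, hq1 q' hqP'.1, div_eq_div_iff (hWt q hqP.1) (hWt q' hqP'.1)]
        linear_combination h4
      refine Prod.ext h5 ?_
      simp only at hb
      rw [h5] at hb
      by_cases h6 : q.2 = y0 q'.1
      · have h7 : q'.2 = y0 q'.1 := by
          rw [decide_eq_true h6] at hb
          exact of_decide_eq_true hb.symm
        rw [h6, h7]
      · have h7 : ¬ q'.2 = y0 q'.1 := by
          rw [decide_eq_false h6] at hb
          exact of_decide_eq_false hb.symm
        have h8 := hy0 q hqP.1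
        rw [h5] at h8
        rw [h8.resolve_left h6, (hy0 q' hqP'.1).resolve_left h7]
    refine ⟨Set.Finite.of_injOn hmaps hinj (Finset.finite_toSet _), ?_⟩
    refine (Set.ncard_le_ncard_of_injOn _ hmaps hinj (Finset.finite_toSet _)).trans ?_
    rw [Set.ncard_coe_finset, hT, Finset.card_product, Fintype.card_piFinset,
      Finset.prod_const, Finset.card_univ, Finset.card_univ, Fintype.card_bool,
      Fintype.card_coe, hRcard, mul_comm]
    refine Nat.mul_le_mul_left _ (Nat.pow_le_pow_left ?_ _)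
    exact (Zf_card _ f hf).trans (by omega)
  rw [hunion]
  refine ⟨h0.1.union h1.1, (Set.ncard_union_le _ _).trans ?_⟩
  omega

end count

end Pool.Agent.Q29.TW
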