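import Mathlib
import Pool.Agent.Q29.SE.NF

/-!
# Relations between integers with few digits are identities
-/

set_option autoImplicit false

namespace Pool.Agent.Q29.TW

open Finset Polynomial Pool.Agent.Q103.SD Pool.Agent.Q29.SE

/-- Vectors `p` of polynomials of the form `p = ∑ v_l X^(m_l) ∏_i F_i^(e_il)`, over the integers -/
def PVZ {τ : Type} (r D N H : ℕ) (p : τ → ℤ[X]) : Prop :=
  ∃ (q : ℕ) (F : Fin q → ℤ[X]) (m : Fin r → ℕ) (e : Fin r → Fin q → ℕ) (v : Fin r → τ → ℤ),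
    ∑ i, (F i).natDegree ≤ D ∧ (∀ i, |(F i).coeff 0| = 1) ∧ (∀ i j, |(F i).coeff j| ≤ H) ∧
    (∀ l, ∑ i, e l i ≤ N) ∧ (∀ l i, |v l i| ≤ H) ∧
    ∀ i, p i = ∑ l, C (v l i) * (X ^ m l * ∏ j, F j ^ e l j)

theorem sizeZ : SizeFn (fun x : ℤ => |(x : ℝ)|) where
  nonneg x := abs_nonneg _
  zero := by simp
  one := by simp
  add x y := by push_cast; exact abs_add_le _ _
  mul x y := by push_cast; exact (abs_mul _ _).le

theorem MP_one' {κ A : Type*} [Fintype κ] [CommRing A] (F : κ → A[X]) (m : ℕ) (e : κ → ℕ) :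
    MP F 1 m e = X ^ m * ∏ j, F j ^ e j := by
  unfold MP PP
  rw [map_one, one_mul]

theorem PVZ.snoc {τ : Type} {r D N H : ℕ} {p : τ → ℤ[X]}
    (hp : PVZ r D N H p) (g : ℤ[X]) {D' : ℕ} (hg : g.natDegree ≤ D')
    (hgH : ∀ j, |g.coeff j| ≤ H) :
    PVZ (r + (D' + 1)) D N H (fun i : Option τ => i.elim g p) := by
  obtain ⟨q, F, m, e, v, hD, hroot, hFH, heN, hvH, hpe⟩ := hp
  refine ⟨q, F, Fin.append m (fun j => (j : ℕ)), Fin.append e (fun _ _ => 0),
    Fin.append (fun l i => i.elim 0 (v l)) (fun j i => i.elim (g.coeff j) (fun _ => 0)),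
    hD, hroot, hFH, ?_, ?_, ?_⟩
  · intro l
    refine Fin.addCases (fun i => ?_) (fun i => ?_) l
    · rw [Fin.append_left]
      exact heN i
    · rw [Fin.append_right]
      simp
  · intro l i
    refine Fin.addCases (fun l => ?_) (fun l => ?_) l
    · rw [Fin.append_left]
      cases i with
      | none => simp only [Option.elim]; rw [abs_zero]; exact Int.natCast_nonneg _
      | some i => exact hvH l i
    · rw [Fin.append_right]
      cases i with
      | none => exact hgH _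
      | some i => simp only [Option.elim]; rw [abs_zero]; exact Int.natCast_nonneg _
  · intro i
    rw [Fin.sum_univ_add]
    simp only [Fin.append_left, Fin.append_right]
    cases i with
    | none =>
      simp only [Option.elim, C_0, zero_mul, Finset.sum_const_zero, zero_add, pow_zero,
        Finset.prod_const_one, mul_one]
      rw [Finset.sum_fin_eq_sum_range]
      conv_lhs => rw [as_sum_range_C_mul_X_pow' g (Nat.lt_succ_of_le hg)]
      refine Finset.sum_congr rfl fun j hj => ?_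
      rw [Finset.mem_range] at hj
      rw [dif_pos hj]
    | some i =>
      simp only [Option.elim, C_0, zero_mul, Finset.sum_const_zero, add_zero]
      exact hpe i

/-- the constant -/
def CZ (r D D' d c : ℕ) : ℕ :=
  max ((r + (D' + 1) + 1) * (d + 1) * c) (2 * (expo (r + (D' + 1)) d D + 1))

theorem liftZ {τ : Type} {r d D D' N H c : ℕ} (hd : 1 ≤ d) (hN : 1 ≤ N) (hH : 1 ≤ H)
    (hc : 1 ≤ c) {t : ℤ} (ht : ((CZ r D D' d c * (H * N)) ^ (CZ r D D' d c) : ℕ) ≤ |t|)
    (p : τ → ℤ[X]) (hp : PVZ r D N H p) (g : ℤ[X]) (hg : g.natDegree ≤ D')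
    (hgH : ∀ j, |g.coeff j| ≤ H) (G : MvPolynomial (Option τ) ℤ) (hG : G.totalDegree ≤ d)
    (hGW : Pool.Agent.Q29.SE.nrm (fun x : ℤ => |(x : ℝ)|) G ≤ c * H)
    (h0 : MvPolynomial.aeval (fun i : Option τ => (i.elim g p).eval t) G = 0) :
    MvPolynomial.aeval (fun i : Option τ => i.elim g p) G = 0 := by
  have hp' := hp.snoc g hg hgH
  obtain ⟨r', hr'⟩ : ∃ r', r' = r + (D' + 1) := ⟨_, rfl⟩
  rw [← hr'] at hp'
  obtain ⟨q, F, m, e, v, hD, hroot, hFH, heN, hvH, hpe⟩ := hp'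
  have hN1 : (1 : ℝ) ≤ N := by exact_mod_cast hN
  have hH1 : (1 : ℝ) ≤ H := by exact_mod_cast hH
  have hc1 : (1 : ℝ) ≤ c := by exact_mod_cast hc
  have hr1 : 1 ≤ r' := by omega
  have hr1' : (1 : ℝ) ≤ r' := by exact_mod_cast hr1
  have hHN : (1 : ℝ) ≤ (H : ℝ) * N := one_le_mul_of_one_le_of_one_le hH1 hN1
  obtain ⟨a, ha⟩ : ∃ a : ℕ, a = (r' + 1) * (d + 1) * c := ⟨_, rfl⟩
  have ha1 : 1 ≤ a := by
    rw [ha]
    exact Nat.mul_pos (Nat.mul_pos (Nat.succ_pos _) (Nat.succ_pos _)) hc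
  have ha1' : (1 : ℝ) ≤ a := by exact_mod_cast ha1
  have hCa : (a : ℝ) ≤ (CZ r D D' d c : ℕ) := by
    have : a ≤ CZ r D D' d c := by
      unfold CZ
      rw [ha, hr']
      exact le_max_left _ _
    exact_mod_cast this
  have hCe : 2 * (expo r' d D + 1) ≤ CZ r D D' d c := by
    unfold CZ
    rw [hr']
    exact le_max_right _ _
  have hle : (((r' : ℝ) + 1) * (d + 1) * (c * H) * H * N) ^ (expo r' d D) ≤
      ((CZ r D D' d c : ℕ) * ((H : ℝ) * N)) ^ (CZ r D D' d c) := by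
    have e1 : 1 ≤ (a : ℝ) * ((H : ℝ) * N) := one_le_mul_of_one_le_of_one_le ha1' hHN
    have e2 : (a : ℝ) * ((H : ℝ) * N) ≤ (CZ r D D' d c : ℕ) * ((H : ℝ) * N) :=
      mul_le_mul_of_nonneg_right hCa (by linarith)
    calc (((r' : ℝ) + 1) * (d + 1) * (c * H) * H * N) ^ (expo r' d D)
        = ((a * (H * N)) * H) ^ (expo r' d D) := by
          rw [ha]
          push_cast
          ring
      _ ≤ ((a * (H * N)) * (a * (H * N))) ^ (expo r' d D) := by
          apply pow_le_pow_left₀ (by positivity)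
          apply mul_le_mul_of_nonneg_left _ (by positivity)
          have h2 : (H : ℝ) ≤ H * N := le_mul_of_one_le_right (by linarith) hN1
          have h3 : (H : ℝ) * N ≤ a * (H * N) := le_mul_of_one_le_left (by linarith) ha1'
          linarith
      _ = ((a : ℝ) * (H * N)) ^ (2 * expo r' d D) := by rw [pow_mul]; ring
      _ ≤ ((CZ r D D' d c : ℕ) * ((H : ℝ) * N)) ^ (2 * expo r' d D) :=
          pow_le_pow_left₀ (by positivity) e2 _
      _ ≤ _ := pow_le_pow_right₀ (e1.trans e2) (by omega)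
  have htR : ((CZ r D D' d c : ℕ) * ((H : ℝ) * N)) ^ (CZ r D D' d c) ≤ |(t : ℝ)| := by
    have h1 : (((CZ r D D' d c * (H * N)) ^ (CZ r D D' d c) : ℕ) : ℝ) ≤ ((|t| : ℤ) : ℝ) := by
      exact_mod_cast ht
    push_cast at h1 ⊢
    exact h1
  have hsz := size_ok (r := r') (d := d) (D := D) (N := N) hr1 hd hN (W := c * H) (H := H)
    (one_le_mul_of_one_le_of_one_le hc1 hH1) hH1
  have hpt : (fun i : Option τ => i.elim g p) = pt F m e v := by
    funext i
    refine (hpe i).trans ?_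
    unfold pt
    simp only [MP_one']
  have ht0 : t ≠ 0 := by
    rintro rfl
    have h1 : (0 : ℝ) < ((CZ r D D' d c : ℕ) * ((H : ℝ) * N)) ^ (CZ r D D' d c) := by
      have : (0 : ℝ) < (CZ r D D' d c : ℕ) := by linarith
      positivity
    simp at htR
    linarith
  rw [hpt]
  refine zero_pt (T := |(t : ℝ)|) sizeZ ht0 ?_ hD (H := H) hH1 ?_ ?_ ?_ m e hN heN v (B := H)
    (one_le_mul_of_one_le_of_one_le hr1' hH1) ?_ G hd hG hGW ?_ ?_
  · intro x hx hlt
    by_contra hx0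
    obtain ⟨y, rfl⟩ := hx
    have hy : y ≠ 0 := by
      rintro rfl
      exact hx0 (mul_zero _)
    have h1 : (1 : ℝ) ≤ |(y : ℝ)| := by
      have : 1 ≤ |y| := Int.one_le_abs hy
      exact_mod_cast this
    push_cast at hlt
    rw [abs_mul] at hlt
    nlinarith [abs_nonneg (t : ℝ)]
  · intro i
    exact Int.isUnit_iff_abs_eq.2 (hroot i)
  · intro i
    have := hroot i
    have h1 : ((|(F i).coeff 0| : ℤ) : ℝ) = 1 := by rw [this]; norm_num
    rw [Int.cast_abs] at h1
    exact h1.le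
  · intro i j
    have := hFH i j
    have h1 : ((|(F i).coeff j| : ℤ) : ℝ) ≤ H := by exact_mod_cast this
    rwa [Int.cast_abs] at h1
  · intro l i
    have := hvH l i
    have h1 : ((|v l i| : ℤ) : ℝ) ≤ H := by exact_mod_cast this
    rwa [Int.cast_abs] at h1
  · exact lt_of_lt_of_le (lt_of_lt_of_le hsz hle) htR
  · rw [← h0]
    congr 2
    funext i
    rw [← hpt]

end Pool.Agent.Q29.TW
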