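import Mathlib
import Pool.Agent.Q29.TW.IntZ
import Pool.Agent.Q29.SE.Ht

/-!
# Values of integer polynomials with few digits
-/

set_option autoImplicit false

namespace Pool.Agent.Q29.TW

open Finset Polynomial Pool.Agent.Q103.SD Pool.Agent.Q29.SE

/-- the size of the coefficients -/
theorem PVZ.coeff_le {τ : Type} {r D N H : ℕ} (hN : 1 ≤ N) (hH : 1 ≤ H) {p : τ → ℤ[X]}
    (hp : PVZ r D N H p) (i : τ) (j : ℕ) : |(p i).coeff j| ≤ r * H * (N * H) ^ j := by
  obtain ⟨q, F, m, e, v, hD, hroot, hFH, heN, hvH, hpe⟩ := hp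
  have hH1 : (1 : ℝ) ≤ H := by exact_mod_cast hH
  have h1 : p i = ∑ l ∈ (Finset.univ : Finset (Fin r)), MP F (v l i) (m l) (e l) := by
    rw [hpe i]
    refine Finset.sum_congr rfl fun l _ => ?_
    unfold MP PP
    ring
  have h2 := coeff_sum_MP (s := fun x : ℤ => |(x : ℝ)|) sizeZ (F := F) (H := H) (B := H) hH1
    (fun i => by
      have := hroot i
      have h1 : ((|(F i).coeff 0| : ℤ) : ℝ) = 1 := by rw [this]; norm_num
      rw [Int.cast_abs] at h1
      exact h1.le)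
    (fun i j => by
      have := hFH i j
      have h1 : ((|(F i).coeff j| : ℤ) : ℝ) ≤ H := by exact_mod_cast this
      rwa [Int.cast_abs] at h1)
    (α := fun l => v l i)
    (fun l => by
      have := hvH l i
      have h1 : ((|v l i| : ℤ) : ℝ) ≤ H := by exact_mod_cast this
      rwa [Int.cast_abs] at h1) m e hN heN Finset.univ (c := r) (by simp) j (by positivity)
  rw [← h1] at h2
  have h3 : ((|(p i).coeff j| : ℤ) : ℝ) ≤ ((r * H * (N * H) ^ j : ℤ) : ℝ) := by
    rw [Int.cast_abs]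
    push_cast
    exact h2
  exact_mod_cast h3

/-- the size of a value -/
theorem eval_le (p : ℤ[X]) {M M' B R : ℕ} (hM : p.natDegree ≤ M) (hMM : M ≤ M') (hR : 1 ≤ R)
    (hB : ∀ j, |p.coeff j| ≤ B * (R : ℤ) ^ j) {t : ℤ} (ht : 1 ≤ |t|) :
    |p.eval t| ≤ ((M' + 1) * B * R ^ M' : ℕ) * |t| ^ M := by
  rw [eval_eq_sum_range' (Nat.lt_succ_of_le hM)]
  refine (Finset.abs_sum_le_sum_abs _ _).trans ?_
  have h1 : ∀ j ∈ range (M + 1), |p.coeff j * t ^ j| ≤ (B * R ^ M' : ℕ) * |t| ^ M := by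
    intro j hj
    rw [Finset.mem_range] at hj
    rw [abs_mul, abs_pow]
    have e1 : (B : ℤ) * (R : ℤ) ^ j ≤ ((B * R ^ M' : ℕ) : ℤ) := by
      have : B * R ^ j ≤ B * R ^ M' := Nat.mul_le_mul_left _ (Nat.pow_le_pow_right hR (by omega))
      exact_mod_cast this
    have e2 : |t| ^ j ≤ |t| ^ M := pow_le_pow_right₀ ht (by omega)
    exact mul_le_mul ((hB j).trans e1) e2 (by positivity) (by positivity)
  refine (Finset.sum_le_sum h1).trans ?_
  rw [Finset.sum_const, Finset.card_range, nsmul_eq_mul, ← mul_assoc]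
  apply mul_le_mul_of_nonneg_right _ (by positivity)
  have : (M + 1) * (B * R ^ M') ≤ (M' + 1) * B * R ^ M' := by
    rw [mul_assoc]
    exact Nat.mul_le_mul_right _ (by omega)
  exact_mod_cast this

/-- a lower bound for a value -/
theorem le_eval (d : ℤ[X]) {H : ℕ} (hd : 1 ≤ d.natDegree) (hH : ∀ j, |d.coeff j| ≤ H) {t : ℤ}
    (ht : 2 ≤ |t|) : |t| ^ (d.natDegree - 1) * (|t| - 2 * H) ≤ |d.eval t| := by
  obtain ⟨D, hD⟩ : ∃ D, d.natDegree = D + 1 := ⟨d.natDegree - 1, by omega⟩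
  rw [eval_eq_sum_range, hD, Nat.add_sub_cancel, Finset.sum_range_succ]
  have h1 : |∑ j ∈ range (D + 1), d.coeff j * t ^ j| ≤ H * (2 * |t| ^ D) := by
    refine (Finset.abs_sum_le_sum_abs _ _).trans ?_
    have e1 : ∀ j ∈ range (D + 1), |d.coeff j * t ^ j| ≤ H * |t| ^ j := by
      intro j _
      rw [abs_mul, abs_pow]
      exact mul_le_mul_of_nonneg_right (hH j) (by positivity)
    refine (Finset.sum_le_sum e1).trans ?_
    rw [← Finset.mul_sum]
    apply mul_le_mul_of_nonneg_left _ (by positivity)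
    clear e1 hD
    induction D with
    | zero => simp
    | succ D ih =>
      rw [Finset.sum_range_succ, pow_succ]
      nlinarith [pow_nonneg (abs_nonneg t) D]
  have h2 : |t| ^ (D + 1) ≤ |d.coeff (D + 1) * t ^ (D + 1)| := by
    rw [abs_mul, abs_pow]
    have e1 : 1 ≤ |d.coeff (D + 1)| := by
      apply Int.one_le_abs
      rw [← hD, coeff_natDegree]
      intro h0
      rw [leadingCoeff_eq_zero] at h0
      rw [h0, natDegree_zero] at hd
      omega
    exact le_mul_of_one_le_left (by positivity) e1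
  have h3 : |d.coeff (D + 1) * t ^ (D + 1)| - |∑ j ∈ range (D + 1), d.coeff j * t ^ j| ≤
      |∑ j ∈ range (D + 1), d.coeff j * t ^ j + d.coeff (D + 1) * t ^ (D + 1)| := by
    have := abs_sub_abs_le_abs_sub (d.coeff (D + 1) * t ^ (D + 1))
      (-∑ j ∈ range (D + 1), d.coeff j * t ^ j)
    rw [abs_neg, sub_neg_eq_add] at this
    rwa [add_comm (d.coeff (D + 1) * t ^ (D + 1))] at this
  have h4 : |t| ^ D * (|t| - 2 * H) = |t| ^ (D + 1) - H * (2 * |t| ^ D) := by ring
  rw [h4]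
  linarith

/-- the final constant -/
def CF (C r D' n : ℕ) : ℕ := C + 4 * (D' + 1) * (r + 1) * (n + 1) + 4

theorem CF_large {C r D' n H N : ℕ} (hN : 1 ≤ N) (hH : 1 ≤ H) :
    (C * (H * N)) ^ C ≤ (CF C r D' n * (H * N)) ^ CF C r D' n ∧
    ((D' + 1) * (r * H) * (N * H) ^ D') ^ n + 4 * H + 2 ≤
      (CF C r D' n * (H * N)) ^ CF C r D' n := by
  have hHN : 1 ≤ H * N := Nat.mul_pos hH hN
  obtain ⟨E, hE⟩ : ∃ E, E = CF C r D' n := ⟨_, rfl⟩
  rw [← hE]
  have hE4 : 4 ≤ E := by rw [hE]; unfold CF; omega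
  have hCE : C ≤ E := by rw [hE]; unfold CF; omega
  have h1 : 1 ≤ E * (H * N) := Nat.mul_pos (by omega) hHN
  constructor
  · calc (C * (H * N)) ^ C ≤ (E * (H * N)) ^ C :=
        Nat.pow_le_pow_left (Nat.mul_le_mul_right _ hCE) _
      _ ≤ _ := Nat.pow_le_pow_right h1 hCE
  · have h2 : (D' + 1) * (r + 1) * (n + 1) ≤ E := by
      rw [hE]; unfold CF
      have : 4 * (D' + 1) * (r + 1) * (n + 1) = 4 * ((D' + 1) * (r + 1) * (n + 1)) := by ring
      omega
    have h3 : (D' + 1) * (r + 1) ≤ E := le_trans (Nat.le_mul_of_pos_right _ (by omega)) h2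
    have h4 : (D' + 1) * (n + 1) ≤ E := by
      refine le_trans ?_ h2
      calc (D' + 1) * (n + 1) = (D' + 1) * 1 * (n + 1) := by ring
        _ ≤ (D' + 1) * (r + 1) * (n + 1) :=
          Nat.mul_le_mul_right _ (Nat.mul_le_mul_left _ (by omega))
    have h5 : (D' + 1) * (r * H) * (N * H) ^ D' ≤ (E * (H * N)) ^ (D' + 1) := by
      calc (D' + 1) * (r * H) * (N * H) ^ D' ≤ (D' + 1) * ((r + 1) * (H * N)) * (H * N) ^ D' := by
            apply Nat.mul_le_mul
            · apply Nat.mul_le_mul_left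
              exact Nat.mul_le_mul (by omega) (Nat.le_mul_of_pos_right _ hN)
            · rw [mul_comm N H]
        _ = ((D' + 1) * (r + 1) * (H * N)) * (H * N) ^ D' := by ring
        _ ≤ (E * (H * N)) * (E * (H * N)) ^ D' := by
            apply Nat.mul_le_mul (Nat.mul_le_mul_right _ h3)
            exact Nat.pow_le_pow_left (Nat.le_mul_of_pos_left _ (by omega)) _
        _ = _ := by ring
    have h6 : ((D' + 1) * (r * H) * (N * H) ^ D') ^ n ≤ (E * (H * N)) ^ ((D' + 1) * n) := by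
      rw [pow_mul]
      exact Nat.pow_le_pow_left h5 n
    have h7 : (D' + 1) * n + 2 ≤ E ∨ n = 0 := by
      by_cases hn : n = 0
      · exact Or.inr hn
      · left
        have : E = C + 4 * ((D' + 1) * (r + 1) * (n + 1)) + 4 := by
          rw [hE]; unfold CF; ring
        have h8 : (D' + 1) * (n + 1) ≤ (D' + 1) * (r + 1) * (n + 1) := by
          calc (D' + 1) * (n + 1) = (D' + 1) * 1 * (n + 1) := by ring
            _ ≤ (D' + 1) * (r + 1) * (n + 1) :=
              Nat.mul_le_mul_right _ (Nat.mul_le_mul_left _ (by omega))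
        have h9 : (D' + 1) * n ≤ (D' + 1) * (n + 1) := Nat.mul_le_mul_left _ (by omega)
        omega
    have h10 : 4 * H ≤ E * (H * N) := by
      calc 4 * H ≤ E * H := Nat.mul_le_mul_right _ hE4
        _ ≤ E * (H * N) := Nat.mul_le_mul_left _ (Nat.le_mul_of_pos_right _ hN)
    have hX4 : 4 ≤ E * (H * N) := le_trans hE4 (Nat.le_mul_of_pos_right _ hHN)
    obtain ⟨Y, hY⟩ : ∃ Y, Y = E * (H * N) := ⟨_, rfl⟩
    rw [← hY] at h1 h6 h10 hX4 ⊢
    have h11 : (D' + 1) * n + 2 ≤ E := by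
      rcases h7 with h7 | h7
      · exact h7
      · rw [h7]; omega
    calc ((D' + 1) * (r * H) * (N * H) ^ D') ^ n + 4 * H + 2 ≤ Y ^ ((D' + 1) * n) + Y + 2 := by
          omega
      _ ≤ Y ^ ((D' + 1) * n) * (Y * Y) := by
          have b1 : 1 ≤ Y ^ ((D' + 1) * n) := Nat.one_le_pow _ _ (by omega)
          have b2 : Y + 3 ≤ Y * Y := by nlinarith
          have b3 := Nat.mul_le_mul_left (Y ^ ((D' + 1) * n)) b2
          have b4 : Y ≤ Y ^ ((D' + 1) * n) * Y := Nat.le_mul_of_pos_left _ b1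
          rw [mul_add] at b3
          omega
      _ = Y ^ ((D' + 1) * n + 2) := by ring
      _ ≤ Y ^ E := Nat.pow_le_pow_right h1 h11

end Pool.Agent.Q29.TW
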