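import Mathlib
import Pool.Agent.H925R3.DC.Defs

/-!
# The invariant differential of an isotrivial elliptic curve and a derivation

Let `D` be a derivation of the field `L` and `y² = x³ + a x + b` an elliptic curve over `L` with
`D a = 4 κ a`, `D b = 6 κ b`. Then `(x, y) ↦ (D x - 2 κ x) / y` is additive.
-/

set_option autoImplicit false

namespace Pool.Agent.Q29.TW

open Pool.Agent.H925R3.DC WeierstrassCurve

section rel

variable {L : Type} [Field L] (D : Derivation ℤ L L) (κ a b : L)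

/-- the value `c` at the point `(x, y)` -/
def RelI (c x y : L) : Prop := D x - 2 * κ * x = c * y ∧ 2 * (D y - 3 * κ * y) = c * (3 * x ^ 2 + a)

variable {D κ a b}

theorem eqnD (ha : D a = 4 * κ * a) (hb : D b = 6 * κ * b) {x y : L}
    (h : y ^ 2 = x ^ 3 + a * x + b) :
    2 * y * (D y - 3 * κ * y) = (3 * x ^ 2 + a) * (D x - 2 * κ * x) := by
  have h1 := congrArg D h
  have h2 : y ^ 2 = y * y := sq y
  have h3 : x ^ 3 = x * (x * x) := by ring
  rw [h2, h3] at h1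
  simp only [map_add, Derivation.leibniz, smul_eq_mul, ha, hb] at h1
  linear_combination h1 - 6 * κ * h

theorem relI_exists (ha : D a = 4 * κ * a) (hb : D b = 6 * κ * b) {x y : L}
    (h : y ^ 2 = x ^ 3 + a * x + b) (hns : 3 * x ^ 2 + a ≠ 0 ∨ y ≠ 0) :
    ∃ c, RelI D κ a c x y := by
  have h1 := eqnD ha hb h
  by_cases hy : y = 0
  · subst hy
    have h2 : 3 * x ^ 2 + a ≠ 0 := hns.resolve_right (fun h => h rfl)
    refine ⟨0, ?_, ?_⟩
    · rw [zero_mul]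
      rw [mul_zero, zero_mul] at h1
      exact (mul_eq_zero.mp h1.symm).resolve_left h2
    · simp
  · refine ⟨(D x - 2 * κ * x) / y, by field_simp, ?_⟩
    apply mul_left_cancel₀ hy
    have h2 : y * ((D x - 2 * κ * x) / y * (3 * x ^ 2 + a)) =
        (D x - 2 * κ * x) * (3 * x ^ 2 + a) := by field_simp
    rw [h2]
    linear_combination h1

theorem relI_unique {c c' x y : L} (hns : 3 * x ^ 2 + a ≠ 0 ∨ y ≠ 0) (h : RelI D κ a c x y)
    (h' : RelI D κ a c' x y) : c = c' := by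
  rcases hns with h1 | h1
  · exact mul_right_cancel₀ h1 (h.2.symm.trans h'.2)
  · exact mul_right_cancel₀ h1 (h.1.symm.trans h'.1)

theorem relI_neg {c x y : L} (h : RelI D κ a c x y) : RelI D κ a (-c) x (-y) := by
  obtain ⟨h1, h2⟩ := h
  refine ⟨by linear_combination h1, ?_⟩
  rw [map_neg]
  linear_combination -h2

theorem relI_add {c₁ c₂ x₁ y₁ x₂ y₂ l x₃ y₃ : L}
    (e₁ : y₁ ^ 2 = x₁ ^ 3 + a * x₁ + b) (e₂ : y₂ ^ 2 = x₂ ^ 3 + a * x₂ + b) (hx : x₁ ≠ x₂)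
    (h₁ : RelI D κ a c₁ x₁ y₁) (h₂ : RelI D κ a c₂ x₂ y₂) (hl : l = (y₁ - y₂) / (x₁ - x₂))
    (hx₃ : x₃ = l ^ 2 - x₁ - x₂) (hy₃ : y₃ = -(l * (x₃ - x₁) + y₁)) :
    RelI D κ a (c₁ + c₂) x₃ y₃ := by
  have hD : x₁ - x₂ ≠ 0 := sub_ne_zero.2 hx
  obtain ⟨p₁, q₁⟩ := h₁
  obtain ⟨p₂, q₂⟩ := h₂
  have hm : l * (x₁ - x₂) = y₁ - y₂ := by rw [hl]; exact div_mul_cancel₀ _ hD
  have hy2 : y₂ = y₁ - l * (x₁ - x₂) := by rw [hm]; ring
  have key : l * (2 * y₁ - l * (x₁ - x₂)) = x₁ ^ 2 + x₁ * x₂ + x₂ ^ 2 + a := by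
    apply mul_right_cancel₀ hD
    have : l * (2 * y₁ - l * (x₁ - x₂)) * (x₁ - x₂) =
        (l * (x₁ - x₂)) * (2 * y₁ - l * (x₁ - x₂)) := by ring
    rw [this, hm]
    linear_combination e₁ - e₂
  have hn := congrArg D hm
  simp only [Derivation.leibniz, map_sub, smul_eq_mul] at hn
  -- twice the covariant derivative of the slope
  obtain ⟨w, hw⟩ : ∃ w, w = 2 * (D l - κ * l) := ⟨_, rfl⟩
  have hw1 : w * (x₁ - x₂) = c₁ * (3 * x₁ ^ 2 + a) - c₂ * (3 * x₂ ^ 2 + a) -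
      2 * l * (c₁ * y₁ - c₂ * y₂) := by
    rw [hw]
    linear_combination 2 * hn + q₁ - q₂ - 2 * l * (p₁ - p₂) - 6 * κ * hm
  have hDl : 2 * D l = w + 2 * κ * l := by rw [hw]; ring
  have hDx3 : D x₃ - 2 * κ * x₃ = l * w - c₁ * y₁ - c₂ * y₂ := by
    have : x₃ = l * l - x₁ - x₂ := by rw [hx₃]; ring
    rw [this]
    simp only [Derivation.leibniz, map_sub, smul_eq_mul]
    linear_combination l * hDl - p₁ - p₂
  have r1 : D x₃ - 2 * κ * x₃ = (c₁ + c₂) * y₃ := by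
    rw [hDx3, hy₃, hx₃]
    apply mul_right_cancel₀ hD
    have : (l * w - c₁ * y₁ - c₂ * y₂) * (x₁ - x₂) =
        l * (w * (x₁ - x₂)) - (c₁ * y₁ + c₂ * y₂) * (x₁ - x₂) := by ring
    rw [this, hw1, hy2]
    linear_combination (l * c₂ - l * c₁) * key
  refine ⟨r1, ?_⟩
  have hDy3 : 2 * (D y₃ - 3 * κ * y₃) = -(w * (x₃ - x₁) + 2 * l * ((c₁ + c₂) * y₃ - c₁ * y₁) +
      c₁ * (3 * x₁ ^ 2 + a)) := by
    have : D y₃ = -(l * (D x₃ - D x₁) + (x₃ - x₁) * D l + D y₁) := by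
      rw [hy₃]
      simp only [Derivation.leibniz, map_sub, map_add, map_neg, smul_eq_mul]
    rw [this]
    linear_combination (-(x₃ - x₁)) * hDl - 2 * l * (r1 - p₁) - q₁ - 6 * κ * hy₃
  rw [hDy3]
  apply mul_right_cancel₀ hD
  have : -(w * (x₃ - x₁) + 2 * l * ((c₁ + c₂) * y₃ - c₁ * y₁) + c₁ * (3 * x₁ ^ 2 + a)) *
      (x₁ - x₂) = -((w * (x₁ - x₂)) * (x₃ - x₁) + (2 * l * ((c₁ + c₂) * y₃ - c₁ * y₁) +
      c₁ * (3 * x₁ ^ 2 + a)) * (x₁ - x₂)) := by ring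
  rw [this, hw1, hy₃, hx₃, hy2]
  have ha : a = l * (2 * y₁ - l * (x₁ - x₂)) - x₁ ^ 2 - x₁ * x₂ - x₂ ^ 2 := by
    rw [key]; ring
  rw [ha]
  ring

theorem relI_dbl (h2 : (2 : L) ≠ 0) (ha : D a = 4 * κ * a) {c x₁ y₁ l x₃ y₃ : L}
    (hy : y₁ ≠ 0)
    (h₁ : RelI D κ a c x₁ y₁) (hl : l = (3 * x₁ ^ 2 + a) / (2 * y₁))
    (hx₃ : x₃ = l ^ 2 - x₁ - x₁) (hy₃ : y₃ = -(l * (x₃ - x₁) + y₁)) :
    RelI D κ a (c + c) x₃ y₃ := by
  obtain ⟨p₁, q₁⟩ := h₁
  have h2y : 2 * y₁ ≠ 0 := mul_ne_zero h2 hy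
  have hm : l * (2 * y₁) = 3 * x₁ ^ 2 + a := by rw [hl]; exact div_mul_cancel₀ _ h2y
  have hn : 2 * (l * D y₁ + y₁ * D l) = 6 * x₁ * D x₁ + 4 * κ * a := by
    have h3 : l * (y₁ + y₁) = x₁ * x₁ + x₁ * x₁ + x₁ * x₁ + a := by linear_combination hm
    have h4 := congrArg D h3
    simp only [Derivation.leibniz, map_add, smul_eq_mul, ha] at h4
    linear_combination h4
  obtain ⟨w, hw⟩ : ∃ w, w = 2 * (D l - κ * l) := ⟨_, rfl⟩
  have hDl : 2 * D l = w + 2 * κ * l := by rw [hw]; ring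
  have hw1 : w = 6 * c * x₁ - 2 * c * l ^ 2 := by
    apply mul_right_cancel₀ hy
    rw [hw]
    linear_combination hn - l * q₁ + 6 * x₁ * p₁ - 4 * κ * hm + c * l * hm
  have r1 : D x₃ - 2 * κ * x₃ = (c + c) * y₃ := by
    have h3 : D x₃ = 2 * l * D l - 2 * D x₁ := by
      have : x₃ = l * l - x₁ - x₁ := by rw [hx₃]; ring
      rw [this]
      simp only [Derivation.leibniz, map_sub, smul_eq_mul]
      ring
    rw [h3, hy₃, hx₃]
    linear_combination l * hDl - 2 * p₁ + l * hw1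
  refine ⟨r1, ?_⟩
  have hDy3 : 2 * (D y₃ - 3 * κ * y₃) = -(w * (x₃ - x₁) + 2 * l * ((c + c) * y₃ - c * y₁) +
      c * (3 * x₁ ^ 2 + a)) := by
    have : D y₃ = -(l * (D x₃ - D x₁) + (x₃ - x₁) * D l + D y₁) := by
      rw [hy₃]
      simp only [Derivation.leibniz, map_sub, map_add, map_neg, smul_eq_mul]
    rw [this]
    linear_combination (-(x₃ - x₁)) * hDl - 2 * l * (r1 - p₁) - q₁ - 6 * κ * hy₃
  rw [hDy3, hw1, hy₃, hx₃]
  have ha' : a = l * (2 * y₁) - 3 * x₁ ^ 2 := by rw [hm]; ring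
  rw [ha']
  ring

end rel

section pts

variable {F : Type} [Field F] {a b x₁ y₁ x₂ y₂ : F}

theorem crv_ns (x y : F) : (crv F a b).Nonsingular x y ↔
    y ^ 2 = x ^ 3 + a * x + b ∧ (3 * x ^ 2 + a ≠ 0 ∨ 2 * y ≠ 0) := by
  rw [WeierstrassCurve.Affine.nonsingular_iff', WeierstrassCurve.Affine.equation_iff]
  simp [crv]
  intro _
  constructor
  · rintro (h | h)
    · left
      intro h'
      apply h
      linear_combination -h'
    · right
      exact h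
  · rintro (h | h)
    · left
      intro h'
      apply h
      linear_combination -h'
    · right
      exact h

/-- sum of two points with `x₁ ≠ x₂` -/
theorem add_ne [DecidableEq F] (h₁ : (crv F a b).Nonsingular x₁ y₁)
    (h₂ : (crv F a b).Nonsingular x₂ y₂) (hx : x₁ ≠ x₂) (l x₃ y₃ : F)
    (hl : l = (y₁ - y₂) / (x₁ - x₂)) (hx₃ : x₃ = l ^ 2 - x₁ - x₂) (hy₃ : y₃ = -(l * (x₃ - x₁) + y₁)) :
    ∃ h₃ : (crv F a b).Nonsingular x₃ y₃,
      (Affine.Point.some x₁ y₁ h₁ + Affine.Point.some x₂ y₂ h₂ : (crv F a b).Point) =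
        Affine.Point.some x₃ y₃ h₃ := by
  have hs : (crv F a b).slope x₁ x₂ y₁ y₂ = l := by
    rw [Affine.slope_of_X_ne hx, hl]
  have hX : (crv F a b).addX x₁ x₂ ((crv F a b).slope x₁ x₂ y₁ y₂) = x₃ := by
    rw [hs, hx₃]; simp [Affine.addX, crv]
  have hY : (crv F a b).addY x₁ x₂ y₁ ((crv F a b).slope x₁ x₂ y₁ y₂) = y₃ := by
    rw [Affine.addY, Affine.negAddY, hX, hs, hy₃]
    simp [Affine.negY, crv]
  have hns := Affine.nonsingular_add h₁ h₂ (fun hxy => hx hxy.1)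
  rw [hX, hY] at hns
  refine ⟨hns, ?_⟩
  rw [Affine.Point.add_of_X_ne hx]
  congr 1

/-- sum of two points with `x₁ = x₂`, `y₁ ≠ - y₂` (so `y₁ = y₂`): doubling -/
theorem add_dbl [DecidableEq F] (h₁ : (crv F a b).Nonsingular x₁ y₁)
    (h₂ : (crv F a b).Nonsingular x₂ y₂) (hx : x₁ = x₂) (hy : y₁ ≠ -y₂) (l x₃ y₃ : F)
    (hl : l = (3 * x₁ ^ 2 + a) / (2 * y₁)) (hx₃ : x₃ = l ^ 2 - x₁ - x₂)
    (hy₃ : y₃ = -(l * (x₃ - x₁) + y₁)) :
    ∃ h₃ : (crv F a b).Nonsingular x₃ y₃,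
      (Affine.Point.some x₁ y₁ h₁ + Affine.Point.some x₂ y₂ h₂ : (crv F a b).Point) =
        Affine.Point.some x₃ y₃ h₃ := by
  have hy' : y₁ ≠ (crv F a b).negY x₂ y₂ := by
    simpa [Affine.negY, crv] using hy
  have hs : (crv F a b).slope x₁ x₂ y₁ y₂ = l := by
    rw [Affine.slope_of_Y_ne hx hy', hl]
    simp only [Affine.negY, crv]
    congr 1
    · ring
    · ring
  have hX : (crv F a b).addX x₁ x₂ ((crv F a b).slope x₁ x₂ y₁ y₂) = x₃ := by
    rw [hs, hx₃]; simp [Affine.addX, crv]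
  have hY : (crv F a b).addY x₁ x₂ y₁ ((crv F a b).slope x₁ x₂ y₁ y₂) = y₃ := by
    rw [Affine.addY, Affine.negAddY, hX, hs, hy₃]
    simp [Affine.negY, crv]
  have hns := Affine.nonsingular_add h₁ h₂ (fun hxy => hy' hxy.2)
  rw [hX, hY] at hns
  refine ⟨hns, ?_⟩
  rw [Affine.Point.add_of_Y_ne hy']
  congr 1

/-- sum of two opposite points -/
theorem add_opp [DecidableEq F] (h₁ : (crv F a b).Nonsingular x₁ y₁)
    (h₂ : (crv F a b).Nonsingular x₂ y₂) (hx : x₁ = x₂) (hy : y₁ = -y₂) :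
    (Affine.Point.some x₁ y₁ h₁ + Affine.Point.some x₂ y₂ h₂ : (crv F a b).Point) = 0 := by
  apply Affine.Point.add_of_Y_eq hx
  simpa [Affine.negY, crv] using hy

end pts

section hom

variable {L : Type} [Field L] (D : Derivation ℤ L L) (κ : L) {a b : L}

open Classical in
/-- the value at a point -/
noncomputable def inv : (crv L a b).Point → L
  | .zero => 0
  | .some x y _ => if h : ∃ c, RelI D κ a c x y then h.choose else 0

variable {D κ}

theorem inv_zero : inv D κ (0 : (crv L a b).Point) = 0 := rfl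

theorem inv_spec (h2 : (2 : L) ≠ 0) (ha : D a = 4 * κ * a) (hb : D b = 6 * κ * b) {x y : L}
    (h : (crv L a b).Nonsingular x y) :
    RelI D κ a (inv D κ (.some x y h : (crv L a b).Point)) x y := by
  have h1 := (crv_ns x y).1 h
  have h3 : ∃ c, RelI D κ a c x y := by
    refine relI_exists ha hb h1.1 ?_
    rcases h1.2 with h4 | h4
    · exact Or.inl h4
    · exact Or.inr (right_ne_zero_of_mul h4)
  simp only [inv]
  rw [dif_pos h3]
  exact h3.choose_spec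

theorem inv_eq (h2 : (2 : L) ≠ 0) (ha : D a = 4 * κ * a) (hb : D b = 6 * κ * b) {c x y : L}
    (h : (crv L a b).Nonsingular x y) (hc : RelI D κ a c x y) :
    inv D κ (.some x y h : (crv L a b).Point) = c := by
  have h1 := (crv_ns x y).1 h
  refine relI_unique ?_ (inv_spec h2 ha hb h) hc
  rcases h1.2 with h4 | h4
  · exact Or.inl h4
  · exact Or.inr (right_ne_zero_of_mul h4)

theorem inv_add [DecidableEq L] (h2 : (2 : L) ≠ 0) (ha : D a = 4 * κ * a)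
    (hb : D b = 6 * κ * b) (P Q : (crv L a b).Point) :
    inv D κ (P + Q) = inv D κ P + inv D κ Q := by
  rcases P with _ | ⟨x₁, y₁, n₁⟩
  · rw [← Affine.Point.zero_def, inv_zero, zero_add, zero_add]
  rcases Q with _ | ⟨x₂, y₂, n₂⟩
  · rw [← Affine.Point.zero_def, inv_zero, add_zero, add_zero]
  have s₁ := inv_spec h2 ha hb n₁
  have s₂ := inv_spec h2 ha hb n₂
  have e₁ := ((crv_ns x₁ y₁).1 n₁).1
  have e₂ := ((crv_ns x₂ y₂).1 n₂).1
  by_cases hx : x₁ = x₂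
  · by_cases hy : y₁ = -y₂
    · rw [add_opp n₁ n₂ hx hy, inv_zero]
      subst hx
      subst hy
      have h3 := relI_neg s₂
      rw [inv_eq h2 ha hb n₁ h3]
      ring
    · have hyy : y₁ = y₂ := by
        have h3 : (y₁ - y₂) * (y₁ + y₂) = 0 := by
          rw [hx] at e₁
          linear_combination e₁ - e₂
        rcases mul_eq_zero.mp h3 with h4 | h4
        · exact sub_eq_zero.mp h4
        · exact absurd (eq_neg_of_add_eq_zero_left h4) hy
      subst hx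
      subst hyy
      have hy0 : y₁ ≠ 0 := by
        rintro rfl
        exact hy (by rw [neg_zero])
      obtain ⟨h₃, hsum⟩ := add_dbl n₁ n₂ rfl hy _ _ _ rfl rfl rfl
      rw [hsum]
      exact inv_eq h2 ha hb h₃ (relI_dbl h2 ha hy0 s₁ rfl rfl rfl)
  · obtain ⟨h₃, hsum⟩ := add_ne n₁ n₂ hx _ _ _ rfl rfl rfl
    rw [hsum]
    exact inv_eq h2 ha hb h₃ (relI_add e₁ e₂ hx s₁ s₂ rfl rfl rfl)

end hom

end Pool.Agent.Q29.TW
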