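import Mathlib
import Pool.Agent.H328.LL.Der
import Pool.Agent.Q29.TW.Inv
import Pool.Agent.Q29.TW.Count

/-!
# The invariant of the points of a quadratic twist over the rational function field
-/

set_option autoImplicit false

namespace Pool.Agent.Q29.TW

open Polynomial Pool.Agent.H328.LL Pool.Agent.H925R3.DC WeierstrassCurve

section der

variable {k : Type} [Field k] {L : Type} [Field L] [Algebra k[X] L] [IsFractionRing k[X] L]

/-- `d/dT` as an additive map -/
noncomputable def derHom (k : Type) [Field k] (L : Type) [Field L] [Algebra k[X] L]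
    [IsFractionRing k[X] L] : L →+ L := AddMonoidHom.mk' (der (k := k)) (der_add k)

/-- `d/dT` -/
noncomputable def dR (k : Type) [Field k] (L : Type) [Field L] [Algebra k[X] L]
    [IsFractionRing k[X] L] : Derivation ℤ L L :=
  Derivation.mk' (derHom k L).toIntLinearMap (by
    intro a b
    show der (k := k) (a * b) = a • der (k := k) b + b • der (k := k) a
    rw [der_mul, smul_eq_mul, smul_eq_mul]
    ring)

theorem dR_apply (x : L) : dR k L x = der (k := k) x := rfl

theorem dR_poly (p : k[X]) : dR k L (algebraMap k[X] L p) = algebraMap k[X] L (derivative p) := by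
  rw [dR_apply]
  exact der_poly (K := L) k p

theorem dR_div (p q : k[X]) (hq : q ≠ 0) :
    dR k L (algebraMap k[X] L p / algebraMap k[X] L q) =
      algebraMap k[X] L (J p q) / algebraMap k[X] L q ^ 2 := by
  rw [dR_apply, der_mk k p q hq]
  unfold J
  rw [map_sub, map_mul, map_mul]

theorem am_inj {p q : k[X]} (h : algebraMap k[X] L p = algebraMap k[X] L q) :
    p = q := IsFractionRing.injective k[X] L h

theorem am_ne {p : k[X]} (h : p ≠ 0) : algebraMap k[X] L p ≠ 0 := by
  intro h0
  exact h (am_inj (L := L) (by rw [h0, map_zero]))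

/-- common denominators -/
theorem exists_common (k : Type) [Field k] {L : Type} [Field L] [Algebra k[X] L]
    [IsFractionRing k[X] L] (x y : L) : ∃ U V W : k[X], W ≠ 0 ∧
    x = algebraMap k[X] L U / algebraMap k[X] L W ∧
    y = algebraMap k[X] L V / algebraMap k[X] L W := by
  obtain ⟨a, b, hb, rfl⟩ := exists_rep (k := k) x
  obtain ⟨c, d, hd, rfl⟩ := exists_rep (k := k) y
  refine ⟨a * d, c * b, b * d, mul_ne_zero hb hd, ?_, ?_⟩
  · rw [map_mul, map_mul, mul_div_mul_right _ _ (am_ne hd)]
  · rw [map_mul, map_mul, mul_comm (algebraMap k[X] L b), mul_div_mul_right _ _ (am_ne hb)]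

end der

section cub

variable {k : Type} [Field k]

variable [CharZero k]

/-- the cubic polynomial -/
noncomputable def cub (a b : k) : k[X] := X ^ 3 + C a * X + C b

omit [CharZero k] in
theorem cub_deg (a b : k) : (cub a b).natDegree = 3 := by
  unfold cub
  compute_degree!

omit [CharZero k] in
theorem cub_coeff (a b : k) (i : ℕ) : (cub a b).coeff i =
    if i = 3 then 1 else if i = 1 then a else if i = 0 then b else 0 := by
  unfold cub
  rw [coeff_add, coeff_add, coeff_X_pow, coeff_C_mul, coeff_X, coeff_C]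
  rcases i with _ | _ | _ | _ | i
  · simp
  · simp
  · simp
  · simp
  · simp

omit [CharZero k] in
theorem Ph_cub (a b : k) (A W : k[X]) :
    Ph 4 (cub a b) A W = W * (A ^ 3 + C a * A * W ^ 2 + C b * W ^ 3) := by
  unfold Ph hm
  simp only [cub_coeff, Finset.sum_range_succ, Finset.sum_range_zero]
  simp
  ring

theorem cub_sep {a b : k} (h : 4 * a ^ 3 + 27 * b ^ 2 ≠ 0) : (cub a b).Separable := by
  refine ⟨C (4 * a ^ 3 + 27 * b ^ 2)⁻¹ * (C (-18 * a) * X + C (27 * b)),
    C (4 * a ^ 3 + 27 * b ^ 2)⁻¹ * (C (6 * a) * X ^ 2 - C (9 * b) * X + C (4 * a ^ 2)), ?_⟩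
  have h1 : derivative (cub a b) = 3 * X ^ 2 + C a := by
    unfold cub
    have e3 : (C (3 : k) : k[X]) = 3 := map_ofNat C 3
    rw [derivative_add, derivative_add, derivative_X_pow, derivative_C_mul, derivative_X,
      derivative_C, mul_one, add_zero, Nat.cast_ofNat, e3]
  rw [h1]
  have h2 : (C (-18 * a) * X + C (27 * b)) * cub a b +
      (C (6 * a) * X ^ 2 - C (9 * b) * X + C (4 * a ^ 2)) * (3 * X ^ 2 + C a) =
      C (4 * a ^ 3 + 27 * b ^ 2) := by
    unfold cub
    simp only [map_add, map_mul, map_pow, map_neg, map_ofNat]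
    ring
  calc _ = C (4 * a ^ 3 + 27 * b ^ 2)⁻¹ * ((C (-18 * a) * X + C (27 * b)) * cub a b +
      (C (6 * a) * X ^ 2 - C (9 * b) * X + C (4 * a ^ 2)) * (3 * X ^ 2 + C a)) := by ring
    _ = 1 := by rw [h2, ← C_mul, inv_mul_cancel₀ h, C_1]

end cub

end Pool.Agent.Q29.TW
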