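import Mathlib
import Pool.Agent.Q29.TW.RF

/-!
# Integral points over the polynomial ring
-/

set_option autoImplicit false

namespace Pool.Agent.Q29.TW

open Polynomial Finset

section field

variable {k : Type} [Field k] [CharZero k]

/-- integral points of `y² = G f(x)` -/
theorem int_pt (n : ℕ) (hn : 3 ≤ n) (f : k[X]) (hf : f.natDegree = n) (hs : f.Separable)
    {G U V : k[X]} (hG : Squarefree G) (hG1 : 1 ≤ G.natDegree) (h : V ^ 2 = G * f.comp U) :
    (U.natDegree = 0 ∧ V = 0) ∨ (1 ≤ U.natDegree ∧ (n - 2) * U.natDegree + 2 ≤ G.natDegree) := by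
  have hG0 : G ≠ 0 := hG.ne_zero
  obtain ⟨S, hS⟩ : G ∣ V := (hG.dvd_pow_iff_dvd two_ne_zero).1 ⟨_, h⟩
  have h1 : G * S ^ 2 = f.comp U := by
    apply mul_left_cancel₀ hG0
    rw [← h, hS]
    ring
  by_cases hU : U.natDegree = 0
  · left
    refine ⟨hU, ?_⟩
    by_cases hS0 : S = 0
    · rw [hS, hS0, mul_zero]
    · exfalso
      have h2 := congrArg natDegree h1
      rw [natDegree_mul hG0 (pow_ne_zero _ hS0), natDegree_comp, hU, mul_zero] at h2
      omega
  · right
    have hU1 : 1 ≤ U.natDegree := by omega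
    refine ⟨hU1, ?_⟩
    have hU' : derivative U ≠ 0 := fun h0 => hU (natDegree_eq_zero_of_derivative_eq_zero h0)
    have hdvd : S ∣ derivative U := by
      obtain ⟨a, b, hab⟩ := hs
      have h2 := congrArg (fun p => p.comp U) hab
      simp only [add_comp, mul_comp, one_comp] at h2
      have h3 : S ∣ f.comp U := ⟨G * S, by rw [← h1]; ring⟩
      have h4 : S ∣ derivative U * (derivative f).comp U := by
        rw [← derivative_comp, ← h1, derivative_mul, derivative_pow]
        refine dvd_add (Dvd.dvd.mul_left (dvd_pow_self S two_ne_zero) _) ?_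
        refine Dvd.dvd.mul_left ?_ _
        refine Dvd.dvd.mul_right ?_ _
        refine Dvd.dvd.mul_left ?_ _
        simp
      have h5 : derivative U = derivative U * a.comp U * f.comp U +
          b.comp U * (derivative U * (derivative f).comp U) := by
        linear_combination (-(derivative U)) * h2
      rw [h5]
      exact dvd_add (h3.mul_left _) (h4.mul_left _)
    have h2 := natDegree_le_of_dvd hdvd hU'
    have h3 := natDegree_derivative_lt hU
    have hS0 : S ≠ 0 := by
      rintro rfl
      rw [zero_dvd_iff] at hdvd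
      exact hU' hdvd
    have h4 := congrArg natDegree h1
    rw [natDegree_mul hG0 (pow_ne_zero _ hS0), natDegree_comp, natDegree_pow, hf] at h4
    obtain ⟨m, rfl⟩ : ∃ m, n = m + 2 := ⟨n - 2, by omega⟩
    have e1 : m + 2 - 2 = m := by omega
    rw [e1]
    have e2 : (m + 2) * U.natDegree = m * U.natDegree + 2 * U.natDegree := by ring
    rw [e2] at h4
    omega

/-- integral points of the Weierstrass equation of a quadratic twist -/
theorem int_ptW {a b : k} (hd : 4 * a ^ 3 + 27 * b ^ 2 ≠ 0) {G U V : k[X]} (hG : Squarefree G)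
    (h : V ^ 2 = U ^ 3 + C a * G ^ 2 * U + C b * G ^ 3) :
    U.natDegree ≤ max G.natDegree (2 * G.natDegree - 2) := by
  classical
  have hG0 : G ≠ 0 := hG.ne_zero
  obtain ⟨g, hg⟩ : ∃ g, g = EuclideanDomain.gcd U G := ⟨_, rfl⟩
  have hg0 : g ≠ 0 := by
    intro h0
    rw [hg, EuclideanDomain.gcd_eq_zero_iff] at h0
    exact hG0 h0.2
  obtain ⟨A, hA⟩ : g ∣ U := by rw [hg]; exact EuclideanDomain.gcd_dvd_left _ _
  obtain ⟨W, hW⟩ : g ∣ G := by rw [hg]; exact EuclideanDomain.gcd_dvd_right _ _
  have hcop : IsCoprime A W := by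
    have h1 := EuclideanDomain.gcd_eq_gcd_ab U G
    rw [← hg] at h1
    refine ⟨EuclideanDomain.gcdA U G, EuclideanDomain.gcdB U G, ?_⟩
    apply mul_left_cancel₀ hg0
    rw [mul_one]
    conv_rhs => rw [h1]
    conv_lhs => rw [mul_add]
    rw [← mul_assoc, ← mul_assoc, mul_comm g, mul_comm g, mul_assoc, mul_assoc]
    rw [← hA, ← hW]
    ring
  have hW0 : W ≠ 0 := by
    rintro rfl
    rw [mul_zero] at hW
    exact hG0 hW
  have hgsq : Squarefree g := hG.squarefree_of_dvd ⟨W, hW⟩
  have h1 : V ^ 2 = g ^ 3 * (A ^ 3 + C a * A * W ^ 2 + C b * W ^ 3) := by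
    rw [h, hA, hW]
    ring
  -- g² divides V
  have h2 : g ∣ V := (hgsq.dvd_pow_iff_dvd two_ne_zero).1 ⟨g ^ 2 * (A ^ 3 + C a * A * W ^ 2 +
    C b * W ^ 3), by rw [h1]; ring⟩
  obtain ⟨V1, hV1⟩ := h2
  have h3 : V1 ^ 2 = g * (A ^ 3 + C a * A * W ^ 2 + C b * W ^ 3) := by
    apply mul_left_cancel₀ (pow_ne_zero 2 hg0)
    calc g ^ 2 * V1 ^ 2 = V ^ 2 := by rw [hV1]; ring
      _ = _ := by rw [h1]; ring
  obtain ⟨S, hS⟩ : g ∣ V1 := (hgsq.dvd_pow_iff_dvd two_ne_zero).1 ⟨_, h3⟩
  have h4 : g * S ^ 2 = A ^ 3 + C a * A * W ^ 2 + C b * W ^ 3 := by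
    apply mul_left_cancel₀ hg0
    calc g * (g * S ^ 2) = V1 ^ 2 := by rw [hS]; ring
      _ = _ := h3
  have h5 : G * S ^ 2 = Ph 4 (cub a b) A W := by
    rw [Ph_cub, ← h4, hW]
    ring
  have hdegU : U.natDegree ≤ g.natDegree + A.natDegree := by
    rw [hA]
    exact natDegree_mul_le
  have hdegG : G.natDegree = g.natDegree + W.natDegree := by
    rw [hW, natDegree_mul hg0 hW0]
  by_cases hle : A.natDegree ≤ W.natDegree
  · exact (hdegU.trans (by omega)).trans (le_max_left _ _)
  · refine le_trans ?_ (le_max_right _ _)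
    have hJ : J A W ≠ 0 := by
      intro hJ
      have := (J_zero hcop hJ).1
      omega
    have hSJ := S_dvd 4 (by omega) (cub a b) (by rw [cub_deg]; omega) (by rw [cub_deg])
      (cub_sep hd) hcop h5
    have h6 := natDegree_le_of_dvd hSJ hJ
    have h7 : (J A W).natDegree + 1 ≤ A.natDegree + W.natDegree := by
      have e1 : (derivative A * W).natDegree + 1 ≤ A.natDegree + W.natDegree := by
        have e2 := natDegree_mul_le (p := derivative A) (q := W)
        have e3 := natDegree_derivative_lt (p := A) (by omega)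
        omega
      have e4 : (A * derivative W).natDegree + 1 ≤ A.natDegree + W.natDegree := by
        have e2 := natDegree_mul_le (p := A) (q := derivative W)
        by_cases hw : W.natDegree = 0
        · have : derivative W = 0 := by
            rw [eq_C_of_natDegree_eq_zero hw, derivative_C]
          rw [this, mul_zero, natDegree_zero]
          omega
        · have e3 := natDegree_derivative_lt hw
          omega
      unfold J
      have e5 := natDegree_sub_le (derivative A * W) (A * derivative W)
      omega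
    -- the degree of the cubic form
    have hS0 : S ≠ 0 := by
      rintro rfl
      rw [zero_dvd_iff] at hSJ
      exact hJ hSJ
    have h8 : (A ^ 3 + C a * A * W ^ 2 + C b * W ^ 3).natDegree = 3 * A.natDegree := by
      have e1 : (C a * A * W ^ 2 + C b * W ^ 3).natDegree < (A ^ 3).natDegree := by
        rw [natDegree_pow]
        refine lt_of_le_of_lt (natDegree_add_le _ _) (max_lt ?_ ?_)
        · have s1 := natDegree_mul_le (p := C a * A) (q := W ^ 2)
          have s2 := natDegree_C_mul_le a A
          have s3 := natDegree_pow_le (p := W) (n := 2)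
          omega
        · have s1 := natDegree_C_mul_le b (W ^ 3)
          have s3 := natDegree_pow_le (p := W) (n := 3)
          omega
      rw [add_assoc, natDegree_add_eq_left_of_natDegree_lt e1, natDegree_pow]
    have h9 := congrArg natDegree h4
    rw [h8, natDegree_mul hg0 (pow_ne_zero _ hS0), natDegree_pow] at h9
    omega

end field

end Pool.Agent.Q29.TW
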