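import Mathlib
import Pool.Agent.Q29.TW.IntEval
import Pool.Agent.Q29.TW.Intg

/-!
# Integral points with few digits on quadratic twists
-/

set_option autoImplicit false

namespace Pool.Agent.Q29.TW

open Finset Polynomial Pool.Agent.Q103.SD Pool.Agent.Q29.SE

section rel

theorem hX_deg (i : Option (Fin 2)) (e : ℕ) :
    ((MvPolynomial.X i : MvPolynomial (Option (Fin 2)) ℤ) ^ e).totalDegree ≤ e := by
  refine (MvPolynomial.totalDegree_pow _ _).trans ?_
  rw [MvPolynomial.totalDegree_X]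
  omega

theorem hX_nrm (i : Option (Fin 2)) (e : ℕ) : Pool.Agent.Q29.SE.nrm (fun x : ℤ => |(x : ℝ)|)
    ((MvPolynomial.X i : MvPolynomial (Option (Fin 2)) ℤ) ^ e) ≤ 1 := by
  have := nrm_pow sizeZ (MvPolynomial.X i : MvPolynomial (Option (Fin 2)) ℤ) 1 (nrm_X sizeZ i) e
  rwa [one_pow] at this

theorem hneg_nrm (G : MvPolynomial (Option (Fin 2)) ℤ) :
    Pool.Agent.Q29.SE.nrm (fun x : ℤ => |(x : ℝ)|) (-G) ≤
      Pool.Agent.Q29.SE.nrm (fun x : ℤ => |(x : ℝ)|) G := by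
  unfold Pool.Agent.Q29.SE.nrm
  rw [MvPolynomial.support_neg]
  refine Finset.sum_le_sum fun α _ => ?_
  rw [MvPolynomial.coeff_neg]
  push_cast
  rw [abs_neg]

/-- `y² = g f(x)` -/
noncomputable def relI2 (n : ℕ) (f : ℤ[X]) : MvPolynomial (Option (Fin 2)) ℤ :=
  MvPolynomial.X (some 1) ^ 2 +
    -∑ i ∈ range (n + 1), MvPolynomial.C (f.coeff i) *
      (MvPolynomial.X none ^ 1 * MvPolynomial.X (some 0) ^ i)

theorem relI2_deg (n : ℕ) (hn : 1 ≤ n) (f : ℤ[X]) : (relI2 n f).totalDegree ≤ n + 1 := by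
  unfold relI2
  refine (MvPolynomial.totalDegree_add _ _).trans (max_le ?_ ?_)
  · exact (hX_deg _ _).trans (by omega)
  · rw [MvPolynomial.totalDegree_neg]
    refine MvPolynomial.totalDegree_finsetSum_le fun i hi => ?_
    rw [Finset.mem_range] at hi
    have h1 := MvPolynomial.totalDegree_mul (MvPolynomial.C (f.coeff i) :
      MvPolynomial (Option (Fin 2)) ℤ) (MvPolynomial.X none ^ 1 * MvPolynomial.X (some 0) ^ i)
    have h2 := MvPolynomial.totalDegree_mul (MvPolynomial.X none ^ 1 :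
      MvPolynomial (Option (Fin 2)) ℤ) (MvPolynomial.X (some 0) ^ i)
    have h3 := hX_deg none 1
    have h4 := hX_deg (some 0) i
    rw [MvPolynomial.totalDegree_C] at h1
    omega

theorem relI2_nrm (n : ℕ) (f : ℤ[X]) {H : ℕ} (hH : 1 ≤ H) (hf : ∀ i, |f.coeff i| ≤ H) :
    Pool.Agent.Q29.SE.nrm (fun x : ℤ => |(x : ℝ)|) (relI2 n f) ≤ (n + 2 : ℕ) * H := by
  have hH1 : (1 : ℝ) ≤ H := by exact_mod_cast hH
  unfold relI2
  refine (nrm_add sizeZ _ _).trans ?_
  have h1 := hX_nrm (some 1) 2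
  have h2 : Pool.Agent.Q29.SE.nrm (fun x : ℤ => |(x : ℝ)|)
      (∑ i ∈ range (n + 1), MvPolynomial.C (f.coeff i) *
        (MvPolynomial.X none ^ 1 * MvPolynomial.X (some 0) ^ i) :
          MvPolynomial (Option (Fin 2)) ℤ) ≤ (n + 1 : ℕ) * H := by
    refine (nrm_sum sizeZ _ _).trans ?_
    have h3 : ∀ i ∈ range (n + 1), Pool.Agent.Q29.SE.nrm (fun x : ℤ => |(x : ℝ)|)
        (MvPolynomial.C (f.coeff i) * (MvPolynomial.X none ^ 1 * MvPolynomial.X (some 0) ^ i) :
          MvPolynomial (Option (Fin 2)) ℤ) ≤ H := by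
      intro i _
      have e1 : Pool.Agent.Q29.SE.nrm (fun x : ℤ => |(x : ℝ)|)
          (MvPolynomial.X none ^ 1 * MvPolynomial.X (some 0) ^ i :
            MvPolynomial (Option (Fin 2)) ℤ) ≤ 1 :=
        (nrm_mul sizeZ _ _).trans (mul_le_one₀ (hX_nrm _ _) (nrm_nonneg sizeZ _) (hX_nrm _ _))
      have e2 : |((f.coeff i : ℤ) : ℝ)| ≤ H := by
        have := hf i
        have e3 : ((|f.coeff i| : ℤ) : ℝ) ≤ H := by exact_mod_cast this
        rwa [Int.cast_abs] at e3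
      refine (nrm_mul sizeZ _ _).trans ?_
      calc _ ≤ (H : ℝ) * 1 :=
            mul_le_mul ((nrm_C sizeZ _).trans e2) e1 (nrm_nonneg sizeZ _) (by linarith)
        _ = H := mul_one _
    refine (Finset.sum_le_sum h3).trans ?_
    rw [Finset.sum_const, Finset.card_range, nsmul_eq_mul]
  have h3 := (hneg_nrm _).trans h2
  push_cast at h3 ⊢
  nlinarith

/-- `y² = x³ + a g² x + b g³` -/
noncomputable def relI3 (a b : ℤ) : MvPolynomial (Option (Fin 2)) ℤ :=
  MvPolynomial.X (some 1) ^ 2 +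
    (-(MvPolynomial.X (some 0) ^ 3) +
    (MvPolynomial.C (-a) * (MvPolynomial.X none ^ 2 * MvPolynomial.X (some 0) ^ 1) +
    MvPolynomial.C (-b) * MvPolynomial.X none ^ 3))

theorem relI3_deg (a b : ℤ) : (relI3 a b).totalDegree ≤ 3 := by
  have hM : ∀ (P Q : MvPolynomial (Option (Fin 2)) ℤ) (u v : ℕ), P.totalDegree ≤ u →
      Q.totalDegree ≤ v → (P * Q).totalDegree ≤ u + v := by
    intro P Q u v h1 h2
    have := MvPolynomial.totalDegree_mul P Q
    omega
  have hA : ∀ (P Q : MvPolynomial (Option (Fin 2)) ℤ) (u : ℕ), P.totalDegree ≤ u →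
      Q.totalDegree ≤ u → (P + Q).totalDegree ≤ u := by
    intro P Q u h1 h2
    exact (MvPolynomial.totalDegree_add P Q).trans (max_le h1 h2)
  have hC : ∀ c : ℤ, (MvPolynomial.C c : MvPolynomial (Option (Fin 2)) ℤ).totalDegree ≤ 0 := by
    intro c
    rw [MvPolynomial.totalDegree_C]
  unfold relI3
  refine hA _ _ _ ((hX_deg _ _).trans (by omega)) (hA _ _ _ ?_ (hA _ _ _ ?_ ?_))
  · rw [MvPolynomial.totalDegree_neg]
    exact hX_deg _ _
  · exact (hM _ _ _ _ (hC _) (hM _ _ _ _ (hX_deg _ _) (hX_deg _ _))).trans (by omega)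
  · exact (hM _ _ _ _ (hC _) (hX_deg _ _)).trans (by omega)

theorem relI3_nrm (a b : ℤ) {H : ℕ} (hH : 1 ≤ H) (ha : |a| ≤ H) (hb : |b| ≤ H) :
    Pool.Agent.Q29.SE.nrm (fun x : ℤ => |(x : ℝ)|) (relI3 a b) ≤ (4 : ℕ) * H := by
  have hH1 : (1 : ℝ) ≤ H := by exact_mod_cast hH
  have hM : ∀ (P Q : MvPolynomial (Option (Fin 2)) ℤ),
      Pool.Agent.Q29.SE.nrm (fun x : ℤ => |(x : ℝ)|) P ≤ 1 →
      Pool.Agent.Q29.SE.nrm (fun x : ℤ => |(x : ℝ)|) Q ≤ 1 →
      Pool.Agent.Q29.SE.nrm (fun x : ℤ => |(x : ℝ)|) (P * Q) ≤ 1 := by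
    intro P Q h1 h2
    exact (nrm_mul sizeZ _ _).trans (mul_le_one₀ h1 (nrm_nonneg sizeZ _) h2)
  have hMC : ∀ (c : ℤ) (Q : MvPolynomial (Option (Fin 2)) ℤ), |c| ≤ H →
      Pool.Agent.Q29.SE.nrm (fun x : ℤ => |(x : ℝ)|) Q ≤ 1 →
      Pool.Agent.Q29.SE.nrm (fun x : ℤ => |(x : ℝ)|) (MvPolynomial.C (-c) * Q) ≤ H := by
    intro c Q h1 h2
    have e2 : |((-c : ℤ) : ℝ)| ≤ H := by
      have e3 : ((|c| : ℤ) : ℝ) ≤ H := by exact_mod_cast h1
      rw [Int.cast_abs] at e3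
      push_cast
      rwa [abs_neg]
    refine (nrm_mul sizeZ _ _).trans ?_
    calc _ ≤ (H : ℝ) * 1 :=
          mul_le_mul ((nrm_C sizeZ _).trans e2) h2 (nrm_nonneg sizeZ _) (by linarith)
      _ = H := mul_one _
  have hadd := fun P Q : MvPolynomial (Option (Fin 2)) ℤ => nrm_add sizeZ P Q
  unfold relI3
  refine (hadd _ _).trans ?_
  have h1 := hX_nrm (some 1) 2
  have h2 := (hneg_nrm (MvPolynomial.X (some 0) ^ 3)).trans (hX_nrm (some 0) 3)
  have h3 := hMC a (MvPolynomial.X none ^ 2 * MvPolynomial.X (some 0) ^ 1) ha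
    (hM _ _ (hX_nrm _ _) (hX_nrm _ _))
  have h4 := hMC b (MvPolynomial.X none ^ 3) hb (hX_nrm _ _)
  have h5 := hadd (MvPolynomial.C (-a) * (MvPolynomial.X none ^ 2 * MvPolynomial.X (some 0) ^ 1))
    (MvPolynomial.C (-b) * MvPolynomial.X none ^ 3)
  have h6 := hadd (-(MvPolynomial.X (some 0) ^ 3))
    (MvPolynomial.C (-a) * (MvPolynomial.X none ^ 2 * MvPolynomial.X (some 0) ^ 1) +
      MvPolynomial.C (-b) * MvPolynomial.X none ^ 3)
  push_cast
  linarith

end rel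

/-- **Integral points on `y² = d(t) f(x)`.** -/
theorem int_res2 (n r D D' : ℕ) (hn : 3 ≤ n) : ∃ C : ℕ, ∀ (H N : ℕ) (t : ℤ), 1 ≤ H → 1 ≤ N →
    (((C * (H * N)) ^ C : ℕ) : ℤ) ≤ |t| → ∀ f d : ℤ[X], f.natDegree = n →
    (f.map (Int.castRingHom ℚ)).Separable → Squarefree (d.map (Int.castRingHom ℚ)) →
    1 ≤ d.natDegree → d.natDegree ≤ D' → (∀ i, |f.coeff i| ≤ H) → (∀ i, |d.coeff i| ≤ H) →
    ∀ p : Fin 2 → ℤ[X], PVZ r D N H p →
      (p 1).eval t ^ 2 = d.eval t * f.eval ((p 0).eval t) →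
      |(p 0).eval t| ^ (n - 2) ≤ |d.eval t| ∧ (d.natDegree < n → (p 1).eval t = 0) := by
  refine ⟨CF (CZ r D D' (n + 1) (n + 2)) r D' n, ?_⟩
  intro H N t hH hN ht f d hfn hsep hsq hd1 hdD hfH hdH p hp hrel
  obtain ⟨hC1, hC2⟩ := CF_large (C := CZ r D D' (n + 1) (n + 2)) (r := r) (D' := D') (n := n) hN hH
  have ht1 : (((CZ r D D' (n + 1) (n + 2) * (H * N)) ^ CZ r D D' (n + 1) (n + 2) : ℕ) : ℤ) ≤
      |t| := le_trans (by exact_mod_cast hC1) ht
  have ht2 : ((((D' + 1) * (r * H) * (N * H) ^ D') ^ n + 4 * H + 2 : ℕ) : ℤ) ≤ |t| :=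
    le_trans (by exact_mod_cast hC2) ht
  have hinj : Function.Injective (Int.castRingHom ℚ) := Int.cast_injective
  have hco : ∀ (q : ℕ) (G : ℤ[X]) (w : Fin 2 → ℤ[X]), MvPolynomial.aeval
      (fun i : Option (Fin 2) => i.elim G w) (relI2 q f) =
        w 1 ^ 2 - G * ∑ i ∈ range (q + 1), C (f.coeff i) * w 0 ^ i := by
    intro q G w
    unfold relI2
    simp only [map_add, map_neg, map_sum, map_mul, map_pow, MvPolynomial.aeval_X,
      MvPolynomial.aeval_C, Option.elim, pow_one]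
    rw [Finset.mul_sum, sub_eq_add_neg]
    congr 2
    refine Finset.sum_congr rfl fun i _ => ?_
    simp only [Polynomial.algebraMap_apply, Algebra.algebraMap_self, RingHom.id_apply]
    ring
  have hlift := liftZ (by omega) hN hH (by omega : 1 ≤ n + 2) ht1 p hp d hdD hdH (relI2 n f)
    (relI2_deg n (by omega) f) (relI2_nrm n f hH hfH) (by
      have h1 := congrArg (eval t) (hco n d p)
      have h2 : eval t (MvPolynomial.aeval (fun i : Option (Fin 2) => i.elim d p) (relI2 n f)) =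
          MvPolynomial.aeval (fun i : Option (Fin 2) => (i.elim d p).eval t) (relI2 n f) := by
        rw [← Polynomial.coe_evalRingHom, MvPolynomial.aeval_def, MvPolynomial.aeval_def,
          MvPolynomial.hom_eval₂]
        congr 1
        exact RingHom.ext_int _ _
      rw [← h2, h1, eval_sub, eval_pow, eval_mul, eval_finsetSum, hrel,
        eval_eq_sum_range' (Nat.lt_succ_of_le hfn.le), sub_eq_zero]
      congr 1
      refine Finset.sum_congr rfl fun i _ => ?_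
      rw [eval_mul, eval_pow, eval_C])
  rw [hco, sub_eq_zero] at hlift
  have hcomp : ∑ i ∈ range (n + 1), C (f.coeff i) * p 0 ^ i = f.comp (p 0) := by
    unfold comp
    rw [eval₂_eq_sum_range, hfn]
  rw [hcomp] at hlift
  have hQ := congrArg (Polynomial.map (Int.castRingHom ℚ)) hlift
  rw [Polynomial.map_pow, Polynomial.map_mul, Polynomial.map_comp] at hQ
  have hdeg : ∀ q : ℤ[X], (q.map (Int.castRingHom ℚ)).natDegree = q.natDegree :=
    fun q => natDegree_map_eq_of_injective hinj q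
  have hmain := int_pt n hn (f.map (Int.castRingHom ℚ)) (by rw [hdeg, hfn]) hsep hsq
    (by rw [hdeg]; exact hd1) hQ
  rw [hdeg, hdeg] at hmain
  -- sizes
  obtain ⟨B, hB⟩ : ∃ B : ℕ, B = (D' + 1) * (r * H) * (N * H) ^ D' := ⟨_, rfl⟩
  rw [← hB] at ht2
  push_cast at ht2
  have hH0 : (0 : ℤ) ≤ H := Int.natCast_nonneg _
  have hBn : (0 : ℤ) ≤ (B : ℤ) ^ n := by positivity
  have htt : 2 ≤ |t| := by linarith
  have hlow := le_eval d hd1 hdH htt
  have hco' := hp.coeff_le hN hH 0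
  have hev : ∀ M, (p 0).natDegree ≤ M → M ≤ D' → |(p 0).eval t| ≤ (B : ℤ) * |t| ^ M := by
    intro M h1 h2
    have := eval_le (p 0) (M := M) (M' := D') (B := r * H) (R := N * H) h1 h2
      (Nat.mul_pos hN hH) (by
        intro j
        have := hco' j
        push_cast
        exact this) (by linarith : 1 ≤ |t|)
    rw [hB]
    exact this
  have hBn2 : (B : ℤ) ^ (n - 2) ≤ |t| - 2 * H := by
    have h1 : (B : ℤ) ^ (n - 2) ≤ (B : ℤ) ^ n + 1 := by
      rcases Nat.eq_zero_or_pos B with h0 | h0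
      · rw [h0]
        have h2 : ((0 : ℕ) : ℤ) ^ (n - 2) = 0 := by
          rw [Nat.cast_zero, zero_pow (by omega)]
        rw [h2]
        positivity
      · have : (B : ℤ) ^ (n - 2) ≤ (B : ℤ) ^ n := pow_le_pow_right₀ (by exact_mod_cast h0) (by omega)
        linarith
    linarith
  have hDpos : (1 : ℤ) ≤ |t| ^ (d.natDegree - 1) := one_le_pow₀ (by linarith)
  rcases hmain with ⟨hU, hV⟩ | ⟨hU1, hU2⟩
  · have hV0 : p 1 = 0 := by
      apply Polynomial.map_injective _ hinj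
      rw [hV, Polynomial.map_zero]
    refine ⟨?_, fun _ => by rw [hV0, eval_zero]⟩
    have h1 := hev 0 (by omega) (Nat.zero_le _)
    rw [pow_zero, mul_one] at h1
    calc |(p 0).eval t| ^ (n - 2) ≤ (B : ℤ) ^ (n - 2) := pow_le_pow_left₀ (abs_nonneg _) h1 _
      _ ≤ |t| - 2 * H := hBn2
      _ ≤ |t| ^ (d.natDegree - 1) * (|t| - 2 * H) := by
          apply le_mul_of_one_le_left _ hDpos
          linarith
      _ ≤ _ := hlow
  · have hnM : (n - 2) * (p 0).natDegree ≤ d.natDegree - 1 := by omega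
    have hMD : (p 0).natDegree ≤ D' := by
      have : 1 * (p 0).natDegree ≤ (n - 2) * (p 0).natDegree := Nat.mul_le_mul_right _ (by omega)
      omega
    refine ⟨?_, ?_⟩
    · have h1 := hev _ le_rfl hMD
      calc |(p 0).eval t| ^ (n - 2) ≤ ((B : ℤ) * |t| ^ (p 0).natDegree) ^ (n - 2) :=
            pow_le_pow_left₀ (abs_nonneg _) h1 _
        _ = (B : ℤ) ^ (n - 2) * |t| ^ ((n - 2) * (p 0).natDegree) := by
            rw [mul_pow, ← pow_mul, mul_comm (p 0).natDegree]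
        _ ≤ (|t| - 2 * H) * |t| ^ (d.natDegree - 1) := by
            apply mul_le_mul hBn2 (pow_le_pow_right₀ (by linarith) hnM) (by positivity)
            linarith
        _ = |t| ^ (d.natDegree - 1) * (|t| - 2 * H) := mul_comm _ _
        _ ≤ _ := hlow
    · intro hlt
      exfalso
      have : (n - 2) * 1 ≤ (n - 2) * (p 0).natDegree := Nat.mul_le_mul_left _ hU1
      omega

end Pool.Agent.Q29.TW
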