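import Mathlib
import Pool.Agent.Q29.SE.HtNF
import Pool.Agent.Q29.SE.Dich

/-!
# Relations at numbers of large height are identities
-/

set_option autoImplicit false

namespace Pool.Agent.Q29.TW

open Finset Polynomial Pool.Agent.Q103.SD NumberField Pool.Agent.H458.Sp Pool.Agent.Q29.SE Height

variable {K : Type} [Field K] [NumberField K]

/-- **Lifting relations.** -/
theorem lift_rel {τ : Type} {r d D N : ℕ} (hr : 1 ≤ r) (hd : 1 ≤ d) (hN : 1 ≤ N) {W H : ℝ}
    (hW : 1 ≤ W) (hH : 1 ≤ H) {t : K} (ht0 : t ≠ 0)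
    (ht : ((((r : ℝ) + 1) * (d + 1) * W * H * N) ^ (expo r d D + 1)) ^ Module.finrank ℚ K ≤
      mulHeight₁ t) (p : τ → (𝓞 K)[X]) (hp : PowerVec r D N H p)
    (G : MvPolynomial τ (𝓞 K)) (hG : G.totalDegree ≤ d)
    (hGW : Pool.Agent.Q29.SE.nrm (fun x : 𝓞 K => hs x) G ≤ W)
    (h0 : aeval t (MvPolynomial.aeval p G) = 0) : MvPolynomial.aeval p G = 0 := by
  obtain ⟨q, F, m, e, v, hD, hroot, hFH, heN, hvH, hpe⟩ := hp
  have hpt : p = pt F m e v := by
    funext i
    rw [hpe i]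
    unfold pt
    simp only [MP_one]
  have hFu : ∀ i, IsUnit ((F i).coeff 0) := fun i => by
    obtain ⟨j, hj, h⟩ := hroot i
    exact isUnit_root hj h
  have hF0 : ∀ i, hs ((F i).coeff 0) ≤ 1 := fun i => by
    obtain ⟨j, hj, h⟩ := hroot i
    exact hs_root hj h
  have hr1 : (1 : ℝ) ≤ r := by exact_mod_cast hr
  have hN1 : (1 : ℝ) ≤ N := by exact_mod_cast hN
  have hd1 : (1 : ℝ) ≤ d := by exact_mod_cast hd
  rw [hpt] at h0 ⊢
  obtain ⟨φ, hφ⟩ : ∃ φ : (𝓞 K)[X] →+* K, φ = (aeval t : (𝓞 K)[X] →ₐ[𝓞 K] K).toRingHom := ⟨_, rfl⟩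
  have hφa : ∀ P, φ P = aeval t P := fun P => by rw [hφ]; rfl
  refine zero_ptH sizeHs φ (by rw [hφa, aeval_X]; exact ht0) hD hH hFu hF0 hFH m e hN heN v
    (one_le_mul_of_one_le_of_one_le hr1 hH) hvH G hd hG hGW ?_ (by rw [hφa]; exact h0)
  intro P hP hP0
  rw [hφa] at hP0
  have hsz := size_ok (r := r) (d := d) (D := D) hr hd hN hW hH
  obtain ⟨Z, hZ⟩ : ∃ Z : ℝ, Z = ((r : ℝ) + 1) * (d + 1) * W * H * N := ⟨_, rfl⟩
  rw [← hZ] at hsz ht
  have hZ2 : 2 ≤ Z := by
    have a1 : (2 : ℝ) ≤ (r : ℝ) + 1 := by linarith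
    have a2 : (1 : ℝ) ≤ ((d : ℝ) + 1) := by linarith
    have b1 : (2 : ℝ) ≤ ((r : ℝ) + 1) * (d + 1) := by nlinarith
    have b2 : (2 : ℝ) ≤ ((r : ℝ) + 1) * (d + 1) * W := by nlinarith
    have b3 : (2 : ℝ) ≤ ((r : ℝ) + 1) * (d + 1) * W * H := by nlinarith
    rw [hZ]
    nlinarith
  have hR1 : (1 : ℝ) ≤ ((d * N : ℕ) : ℝ) * H := by
    push_cast
    exact one_le_mul_of_one_le_of_one_le (one_le_mul_of_one_le_of_one_le hd1 hN1) hH
  have hM0 : (0 : ℝ) ≤ (((d + 1) ^ r : ℕ) : ℝ) * (W * (r * H) ^ d) := by positivity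
  refine dvd_of_height ht0 hM0 hR1 _ (lt_of_lt_of_le ?_ ht) P hP hP0
  have hfr : Module.finrank ℚ K ≠ 0 := Module.finrank_pos.ne'
  refine pow_lt_pow_left₀ ?_ (by positivity) hfr
  have h5 : (0 : ℝ) ≤ Z ^ expo r d D := by positivity
  calc 2 * ((((d + 1) ^ r : ℕ) : ℝ) * (W * (r * H) ^ d)) *
        (((d * N : ℕ) : ℝ) * H) ^ JJ (D + 1) ((d + 1) ^ r)
      = 2 * ((((d + 1) ^ r : ℕ) : ℝ) * (W * (r * H) ^ d) *
        (((d * N : ℕ) : ℝ) * H) ^ JJ (D + 1) ((d + 1) ^ r)) := by ring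
    _ < 2 * Z ^ expo r d D := by linarith
    _ ≤ Z * Z ^ expo r d D := mul_le_mul_of_nonneg_right hZ2 h5
    _ = Z ^ (expo r d D + 1) := by ring

/-- adding a polynomial of small degree to a vector of power sums -/
theorem PowerVec.snoc {τ : Type} {r D N : ℕ} {H : ℝ} (hH : 1 ≤ H) {p : τ → (𝓞 K)[X]}
    (hp : PowerVec r D N H p) (g : (𝓞 K)[X]) {D' : ℕ} (hg : g.natDegree ≤ D')
    (hgH : ∀ j, hs (g.coeff j) ≤ H) :
    PowerVec (r + (D' + 1)) D N H (fun i : Option τ => i.elim g p) := by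
  obtain ⟨q, F, m, e, v, hD, hroot, hFH, heN, hvH, hpe⟩ := hp
  refine ⟨q, F, Fin.append m (fun j => (j : ℕ)), Fin.append e (fun _ _ => 0),
    Fin.append (fun l i => i.elim 0 (v l)) (fun j i => i.elim (g.coeff j) (fun _ => 0)),
    hD, hroot, hFH, ?_, ?_, ?_⟩
  · intro l
    refine Fin.addCases (fun i => ?_) (fun i => ?_) l
    · rw [Fin.append_left]
      exact heN i
    · rw [Fin.append_right]
      simp
  · intro l i
    refine Fin.addCases (fun l => ?_) (fun l => ?_) l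
    · rw [Fin.append_left]
      cases i with
      | none => simp only [Option.elim]; rw [hs_zero]; linarith
      | some i => exact hvH l i
    · rw [Fin.append_right]
      cases i with
      | none => exact hgH _
      | some i => simp only [Option.elim]; rw [hs_zero]; linarith
  · intro i
    rw [Fin.sum_univ_add]
    simp only [Fin.append_left, Fin.append_right]
    cases i with
    | none =>
      simp only [Option.elim, C_0, zero_mul, Finset.sum_const_zero, zero_add, pow_zero,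
        Finset.prod_const_one, mul_one]
      rw [Finset.sum_fin_eq_sum_range]
      conv_lhs => rw [as_sum_range_C_mul_X_pow' g (Nat.lt_succ_of_le hg)]
      refine Finset.sum_congr rfl fun j hj => ?_
      rw [Finset.mem_range] at hj
      rw [dif_pos hj]
    | some i =>
      simp only [Option.elim, C_0, zero_mul, Finset.sum_const_zero, add_zero]
      exact hpe i

end Pool.Agent.Q29.TW
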