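import Mathlib
import Pool.Agent.Q29.TW.Lift
import Pool.Agent.Q29.TW.Count
import Pool.Agent.Q29.SE.OneNF

/-!
# From points with few digits to points over the function field
-/

set_option autoImplicit false

namespace Pool.Agent.Q29.TW

open Finset Polynomial Pool.Agent.Q103.SD NumberField Pool.Agent.H458.Sp Pool.Agent.Q29.SE Height

variable {K : Type} [Field K] [NumberField K]

/-- the constant -/
def Cst (r D D' d c : ℕ) : ℕ :=
  max ((r + (D' + 1) + 1) * (d + 1) * c) (2 * (expo (r + (D' + 1)) d D + 1))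

theorem liftG {τ : Type} {r d D D' N c : ℕ} (hd : 1 ≤ d) (hN : 1 ≤ N) (hc : 1 ≤ c) {H : ℝ}
    (hH : 1 ≤ H) {t : K}
    (ht : (((Cst r D D' d c : ℕ) * (H * N)) ^ (Cst r D D' d c)) ^ Module.finrank ℚ K ≤
      mulHeight₁ t)
    (p : τ → (𝓞 K)[X]) (hp : PowerVec r D N H p) (g : (𝓞 K)[X]) (hg : g.natDegree ≤ D')
    (hgH : ∀ j, hs (g.coeff j) ≤ H) (G : MvPolynomial (Option τ) (𝓞 K)) (hG : G.totalDegree ≤ d)
    (hGW : Pool.Agent.Q29.SE.nrm (fun x : 𝓞 K => hs x) G ≤ c * H)
    (h0 : aeval t (MvPolynomial.aeval (fun i : Option τ => i.elim g p) G) = 0) :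
    MvPolynomial.aeval (fun i : Option τ => i.elim g p) G = 0 := by
  have hN1 : (1 : ℝ) ≤ N := by exact_mod_cast hN
  have hHN : 1 ≤ H * N := one_le_mul_of_one_le_of_one_le hH hN1
  obtain ⟨r', hr'⟩ : ∃ r', r' = r + (D' + 1) := ⟨_, rfl⟩
  obtain ⟨a, ha⟩ : ∃ a : ℕ, a = (r' + 1) * (d + 1) * c := ⟨_, rfl⟩
  have ha1 : 1 ≤ a := by
    rw [ha]
    exact Nat.mul_pos (Nat.mul_pos (Nat.succ_pos _) (Nat.succ_pos _)) hc
  have ha1' : (1 : ℝ) ≤ a := by exact_mod_cast ha1
  have hCa : (a : ℝ) ≤ (Cst r D D' d c : ℕ) := by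
    have : a ≤ Cst r D D' d c := by
      unfold Cst
      rw [ha, hr']
      exact le_max_left _ _
    exact_mod_cast this
  have hCe : 2 * (expo r' d D + 1) ≤ Cst r D D' d c := by
    unfold Cst
    rw [hr']
    exact le_max_right _ _
  have hle : (((r' : ℝ) + 1) * (d + 1) * (c * H) * H * N) ^ (expo r' d D + 1) ≤
      ((Cst r D D' d c : ℕ) * (H * N)) ^ (Cst r D D' d c) := by
    refine le_trans ?_ (pow_const ha1' hHN hCa hCe)
    rw [pow_mul]
    apply pow_le_pow_left₀ (by positivity)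
    calc ((r' : ℝ) + 1) * (d + 1) * (c * H) * H * N = (a * (H * N)) * H := by
          rw [ha]
          push_cast
          ring
      _ ≤ (a * (H * N)) * (a * (H * N)) := by
          apply mul_le_mul_of_nonneg_left _ (by positivity)
          have h2 : H ≤ H * N := le_mul_of_one_le_right (by linarith) hN1
          have h3 : H * N ≤ a * (H * N) := le_mul_of_one_le_left (by linarith) ha1'
          linarith
      _ = _ := by ring
  have ht0 : t ≠ 0 := by
    rintro rfl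
    rw [mulHeight₁_zero] at ht
    have h1 : (2 : ℝ) ≤ (Cst r D D' d c : ℕ) := by
      have : 2 ≤ Cst r D D' d c := le_trans (by omega) hCe
      exact_mod_cast this
    have h2 : (2 : ℝ) ≤ (Cst r D D' d c : ℕ) * (H * N) := by nlinarith
    have h3 : (1 : ℝ) < ((Cst r D D' d c : ℕ) * (H * N)) ^ (Cst r D D' d c) :=
      one_lt_pow₀ (by linarith) (by
        have : 2 ≤ Cst r D D' d c := le_trans (by omega) hCe
        omega)
    have h4 := one_lt_pow₀ h3 (Module.finrank_pos (R := ℚ) (M := K)).ne'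
    linarith
  refine lift_rel (r := r') (d := d) (D := D) (N := N) (W := c * H) (H := H) (by omega) hd hN ?_
    hH ht0 ?_ _ ?_ G hG hGW h0
  · have : (1 : ℝ) ≤ c := by exact_mod_cast hc
    exact one_le_mul_of_one_le_of_one_le this hH
  · refine le_trans ?_ ht
    exact pow_le_pow_left₀ (by positivity) hle _
  · rw [hr']
    exact PowerVec.snoc hH hp g hg hgH

section rel

/-- the relation polynomial of the twist -/
noncomputable def relP (m : ℕ) (f : (𝓞 K)[X]) : MvPolynomial (Option (Fin 3)) (𝓞 K) :=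
  MvPolynomial.X none * MvPolynomial.X (some 1) ^ 2 * MvPolynomial.X (some 2) ^ (2 * m) -
    ∑ i ∈ range (2 * (m + 1) + 1), MvPolynomial.C (f.coeff i) * MvPolynomial.X (some 0) ^ i *
      MvPolynomial.X (some 2) ^ (2 * (m + 1) - i)

theorem relP_deg (m : ℕ) (f : (𝓞 K)[X]) : (relP m f).totalDegree ≤ 2 * m + 3 := by
  have hX : ∀ (i : Option (Fin 3)) (e : ℕ),
      ((MvPolynomial.X i : MvPolynomial (Option (Fin 3)) (𝓞 K)) ^ e).totalDegree ≤ e := by
    intro i e
    refine (MvPolynomial.totalDegree_pow _ _).trans ?_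
    rw [MvPolynomial.totalDegree_X]
    omega
  unfold relP
  refine (MvPolynomial.totalDegree_sub _ _).trans (max_le ?_ ?_)
  · have h1 := MvPolynomial.totalDegree_mul
      (MvPolynomial.X none * MvPolynomial.X (some 1) ^ 2 : MvPolynomial (Option (Fin 3)) (𝓞 K))
      (MvPolynomial.X (some 2) ^ (2 * m))
    have h2 := MvPolynomial.totalDegree_mul
      (MvPolynomial.X none : MvPolynomial (Option (Fin 3)) (𝓞 K)) (MvPolynomial.X (some 1) ^ 2)
    have h3 := hX (some 1) 2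
    have h4 := hX (some 2) (2 * m)
    have h5 : (MvPolynomial.X none : MvPolynomial (Option (Fin 3)) (𝓞 K)).totalDegree = 1 :=
      MvPolynomial.totalDegree_X _
    omega
  · refine MvPolynomial.totalDegree_finsetSum_le fun i hi => ?_
    rw [Finset.mem_range] at hi
    have h1 := MvPolynomial.totalDegree_mul
      (MvPolynomial.C (f.coeff i) * MvPolynomial.X (some 0) ^ i :
        MvPolynomial (Option (Fin 3)) (𝓞 K)) (MvPolynomial.X (some 2) ^ (2 * (m + 1) - i))
    have h2 := MvPolynomial.totalDegree_mul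
      (MvPolynomial.C (f.coeff i) : MvPolynomial (Option (Fin 3)) (𝓞 K))
      (MvPolynomial.X (some 0) ^ i)
    have h3 := hX (some 0) i
    have h4 := hX (some 2) (2 * (m + 1) - i)
    rw [MvPolynomial.totalDegree_C] at h2
    omega

theorem relP_nrm (m : ℕ) (f : (𝓞 K)[X]) {H : ℝ} (hH : 1 ≤ H) (hf : ∀ i, hs (f.coeff i) ≤ H) :
    Pool.Agent.Q29.SE.nrm (fun x : 𝓞 K => hs x) (relP m f) ≤ (2 * m + 4 : ℕ) * H := by
  have sz := sizeHs (k := K)
  have hX : ∀ (i : Option (Fin 3)) (e : ℕ), Pool.Agent.Q29.SE.nrm (fun x : 𝓞 K => hs x)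
      ((MvPolynomial.X i : MvPolynomial (Option (Fin 3)) (𝓞 K)) ^ e) ≤ 1 := by
    intro i e
    have := nrm_pow sz (MvPolynomial.X i : MvPolynomial (Option (Fin 3)) (𝓞 K)) 1 (nrm_X sz i) e
    rwa [one_pow] at this
  have hneg : ∀ G : MvPolynomial (Option (Fin 3)) (𝓞 K),
      Pool.Agent.Q29.SE.nrm (fun x : 𝓞 K => hs x) (-G) ≤
        Pool.Agent.Q29.SE.nrm (fun x : 𝓞 K => hs x) G := by
    intro G
    unfold Pool.Agent.Q29.SE.nrm
    rw [MvPolynomial.support_neg]
    refine Finset.sum_le_sum fun α _ => ?_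
    rw [MvPolynomial.coeff_neg]
    exact (hs_neg _).le
  unfold relP
  rw [sub_eq_add_neg]
  refine (nrm_add sz _ _).trans ?_
  have h1 : Pool.Agent.Q29.SE.nrm (fun x : 𝓞 K => hs x) (MvPolynomial.X none *
      MvPolynomial.X (some 1) ^ 2 * MvPolynomial.X (some 2) ^ (2 * m) :
        MvPolynomial (Option (Fin 3)) (𝓞 K)) ≤ 1 := by
    refine (nrm_mul sz _ _).trans ?_
    refine mul_le_one₀ ((nrm_mul sz _ _).trans ?_) (nrm_nonneg sz _) (hX _ _)
    exact mul_le_one₀ (nrm_X sz _) (nrm_nonneg sz _) (hX _ _)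
  have h2 : Pool.Agent.Q29.SE.nrm (fun x : 𝓞 K => hs x)
      (∑ i ∈ range (2 * (m + 1) + 1), MvPolynomial.C (f.coeff i) * MvPolynomial.X (some 0) ^ i *
        MvPolynomial.X (some 2) ^ (2 * (m + 1) - i) : MvPolynomial (Option (Fin 3)) (𝓞 K)) ≤
      (2 * m + 3 : ℕ) * H := by
    refine (nrm_sum sz _ _).trans ?_
    have h3 : ∀ i ∈ range (2 * (m + 1) + 1), Pool.Agent.Q29.SE.nrm (fun x : 𝓞 K => hs x)
        (MvPolynomial.C (f.coeff i) * MvPolynomial.X (some 0) ^ i *
        MvPolynomial.X (some 2) ^ (2 * (m + 1) - i) : MvPolynomial (Option (Fin 3)) (𝓞 K)) ≤ H := by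
      intro i _
      have e1 : Pool.Agent.Q29.SE.nrm (fun x : 𝓞 K => hs x) (MvPolynomial.C (f.coeff i) *
          MvPolynomial.X (some 0) ^ i : MvPolynomial (Option (Fin 3)) (𝓞 K)) ≤ H * 1 := by
        refine (nrm_mul sz _ _).trans ?_
        exact mul_le_mul ((nrm_C sz _).trans (hf i)) (hX _ _) (nrm_nonneg sz _) (by linarith)
      refine (nrm_mul sz _ _).trans ?_
      calc _ ≤ (H * 1) * 1 := mul_le_mul e1 (hX _ _) (nrm_nonneg sz _) (by linarith)
        _ = H := by ring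
    refine (Finset.sum_le_sum h3).trans ?_
    rw [Finset.sum_const, Finset.card_range, nsmul_eq_mul]
    have : 2 * (m + 1) + 1 = 2 * m + 3 := by ring
    rw [this]
  have h3 := (hneg (∑ i ∈ range (2 * (m + 1) + 1), MvPolynomial.C (f.coeff i) *
    MvPolynomial.X (some 0) ^ i * MvPolynomial.X (some 2) ^ (2 * (m + 1) - i) :
      MvPolynomial (Option (Fin 3)) (𝓞 K))).trans h2
  push_cast at h3 ⊢
  nlinarith

theorem relP_aeval (m : ℕ) (f g : (𝓞 K)[X]) (p : Fin 3 → (𝓞 K)[X]) :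
    MvPolynomial.aeval (fun i : Option (Fin 3) => i.elim g p) (relP m f) =
      g * p 1 ^ 2 * p 2 ^ (2 * m) - hm (2 * (m + 1)) (fun i => C (f.coeff i)) (p 0) (p 2) := by
  unfold relP hm
  rw [map_sub, map_sum]
  congr 1
  · simp
  · refine Finset.sum_congr rfl fun i _ => ?_
    simp only [map_mul, map_pow, MvPolynomial.aeval_X, MvPolynomial.aeval_C]
    rfl

/-- **Points with few digits come from points over the function field.** -/
theorem lift_tw (m : ℕ) {r D D' N : ℕ} (hN : 1 ≤ N) {H : ℝ} (hH : 1 ≤ H) {t : K}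
    (ht : (((Cst r D D' (2 * m + 3) (2 * m + 4) : ℕ) * (H * N)) ^
      (Cst r D D' (2 * m + 3) (2 * m + 4))) ^ Module.finrank ℚ K ≤ mulHeight₁ t)
    (f g : (𝓞 K)[X]) (hf : ∀ i, hs (f.coeff i) ≤ H)
    (hg : g.natDegree ≤ D') (hgH : ∀ j, hs (g.coeff j) ≤ H)
    (p : Fin 3 → (𝓞 K)[X]) (hp : PowerVec r D N H p)
    (h0 : aeval t g * aeval t (p 1) ^ 2 * aeval t (p 2) ^ (2 * m) =
      hm (2 * (m + 1)) (fun i => algebraMap (𝓞 K) K (f.coeff i)) (aeval t (p 0))
        (aeval t (p 2))) :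
    g.map (algebraMap (𝓞 K) K) * (p 1).map (algebraMap (𝓞 K) K) ^ 2 *
      (p 2).map (algebraMap (𝓞 K) K) ^ (2 * m) =
      Ph (2 * (m + 1)) (f.map (algebraMap (𝓞 K) K)) ((p 0).map (algebraMap (𝓞 K) K))
        ((p 2).map (algebraMap (𝓞 K) K)) := by
  have h1 := liftG (by omega) hN (by omega) hH ht p hp g hg hgH (relP m f) (relP_deg m f)
    (relP_nrm m f hH hf) (by
      rw [relP_aeval, map_sub, map_mul, map_mul, map_pow, map_pow, h0]
      rw [show aeval t (hm (2 * (m + 1)) (fun i => C (f.coeff i)) (p 0) (p 2)) =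
        (aeval t : (𝓞 K)[X] →ₐ[𝓞 K] K).toRingHom
          (hm (2 * (m + 1)) (fun i => C (f.coeff i)) (p 0) (p 2)) from rfl, hm_map]
      rw [sub_eq_zero]
      congr 1
      funext i
      exact (aeval_C t (f.coeff i)).symm)
  rw [relP_aeval, sub_eq_zero] at h1
  have h2 := congrArg (Polynomial.mapRingHom (algebraMap (𝓞 K) K)) h1
  rw [map_mul, map_mul, map_pow, map_pow, hm_map] at h2
  simp only [Polynomial.coe_mapRingHom] at h2
  rw [h2]
  unfold Ph
  congr 1
  funext i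
  rw [Polynomial.map_C, coeff_map]

end rel

end Pool.Agent.Q29.TW
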