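import Mathlib
import Pool.Agent.Q29.TW.Pts

/-!
# `Φ(x, y) = d(t)` with few digits: from points at `t` to points over the function field
-/

set_option autoImplicit false

namespace Pool.Agent.Q29.TW

open Finset Polynomial Pool.Agent.Q103.SD NumberField Pool.Agent.H458.Sp Pool.Agent.Q29.SE Height

variable {K : Type} [Field K] [NumberField K]

/-- the relation polynomial of `Φ(x, y) = g` -/
noncomputable def relT (n : ℕ) (f : (𝓞 K)[X]) : MvPolynomial (Option (Fin 3)) (𝓞 K) :=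
  MvPolynomial.X none * MvPolynomial.X (some 2) ^ n -
    ∑ i ∈ range (n + 1), MvPolynomial.C (f.coeff i) * MvPolynomial.X (some 0) ^ i *
      MvPolynomial.X (some 1) ^ (n - i)

theorem relT_deg (n : ℕ) (f : (𝓞 K)[X]) : (relT n f).totalDegree ≤ n + 1 := by
  have hX : ∀ (i : Option (Fin 3)) (e : ℕ),
      ((MvPolynomial.X i : MvPolynomial (Option (Fin 3)) (𝓞 K)) ^ e).totalDegree ≤ e := by
    intro i e
    refine (MvPolynomial.totalDegree_pow _ _).trans ?_
    rw [MvPolynomial.totalDegree_X]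
    omega
  unfold relT
  refine (MvPolynomial.totalDegree_sub _ _).trans (max_le ?_ ?_)
  · have h1 := MvPolynomial.totalDegree_mul
      (MvPolynomial.X none : MvPolynomial (Option (Fin 3)) (𝓞 K)) (MvPolynomial.X (some 2) ^ n)
    have h4 := hX (some 2) n
    have h5 : (MvPolynomial.X none : MvPolynomial (Option (Fin 3)) (𝓞 K)).totalDegree = 1 :=
      MvPolynomial.totalDegree_X _
    omega
  · refine MvPolynomial.totalDegree_finsetSum_le fun i hi => ?_
    rw [Finset.mem_range] at hi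
    have h1 := MvPolynomial.totalDegree_mul
      (MvPolynomial.C (f.coeff i) * MvPolynomial.X (some 0) ^ i :
        MvPolynomial (Option (Fin 3)) (𝓞 K)) (MvPolynomial.X (some 1) ^ (n - i))
    have h2 := MvPolynomial.totalDegree_mul
      (MvPolynomial.C (f.coeff i) : MvPolynomial (Option (Fin 3)) (𝓞 K))
      (MvPolynomial.X (some 0) ^ i)
    have h3 := hX (some 0) i
    have h4 := hX (some 1) (n - i)
    rw [MvPolynomial.totalDegree_C] at h2
    omega

theorem relT_nrm (n : ℕ) (f : (𝓞 K)[X]) {H : ℝ} (hH : 1 ≤ H) (hf : ∀ i, hs (f.coeff i) ≤ H) :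
    Pool.Agent.Q29.SE.nrm (fun x : 𝓞 K => hs x) (relT n f) ≤ (n + 2 : ℕ) * H := by
  have sz := sizeHs (k := K)
  have hX : ∀ (i : Option (Fin 3)) (e : ℕ), Pool.Agent.Q29.SE.nrm (fun x : 𝓞 K => hs x)
      ((MvPolynomial.X i : MvPolynomial (Option (Fin 3)) (𝓞 K)) ^ e) ≤ 1 := by
    intro i e
    have := nrm_pow sz (MvPolynomial.X i : MvPolynomial (Option (Fin 3)) (𝓞 K)) 1 (nrm_X sz i) e
    rwa [one_pow] at this
  have hneg : ∀ G : MvPolynomial (Option (Fin 3)) (𝓞 K),
      Pool.Agent.Q29.SE.nrm (fun x : 𝓞 K => hs x) (-G) ≤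
        Pool.Agent.Q29.SE.nrm (fun x : 𝓞 K => hs x) G := by
    intro G
    unfold Pool.Agent.Q29.SE.nrm
    rw [MvPolynomial.support_neg]
    refine Finset.sum_le_sum fun α _ => ?_
    rw [MvPolynomial.coeff_neg]
    exact (hs_neg _).le
  unfold relT
  rw [sub_eq_add_neg]
  refine (nrm_add sz _ _).trans ?_
  have h1 : Pool.Agent.Q29.SE.nrm (fun x : 𝓞 K => hs x) (MvPolynomial.X none *
      MvPolynomial.X (some 2) ^ n : MvPolynomial (Option (Fin 3)) (𝓞 K)) ≤ 1 := by
    refine (nrm_mul sz _ _).trans ?_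
    exact mul_le_one₀ (nrm_X sz _) (nrm_nonneg sz _) (hX _ _)
  have h2 : Pool.Agent.Q29.SE.nrm (fun x : 𝓞 K => hs x)
      (∑ i ∈ range (n + 1), MvPolynomial.C (f.coeff i) * MvPolynomial.X (some 0) ^ i *
        MvPolynomial.X (some 1) ^ (n - i) : MvPolynomial (Option (Fin 3)) (𝓞 K)) ≤
      (n + 1 : ℕ) * H := by
    refine (nrm_sum sz _ _).trans ?_
    have h3 : ∀ i ∈ range (n + 1), Pool.Agent.Q29.SE.nrm (fun x : 𝓞 K => hs x)
        (MvPolynomial.C (f.coeff i) * MvPolynomial.X (some 0) ^ i *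
        MvPolynomial.X (some 1) ^ (n - i) : MvPolynomial (Option (Fin 3)) (𝓞 K)) ≤ H := by
      intro i _
      have e1 : Pool.Agent.Q29.SE.nrm (fun x : 𝓞 K => hs x) (MvPolynomial.C (f.coeff i) *
          MvPolynomial.X (some 0) ^ i : MvPolynomial (Option (Fin 3)) (𝓞 K)) ≤ H * 1 := by
        refine (nrm_mul sz _ _).trans ?_
        exact mul_le_mul ((nrm_C sz _).trans (hf i)) (hX _ _) (nrm_nonneg sz _) (by linarith)
      refine (nrm_mul sz _ _).trans ?_
      calc _ ≤ (H * 1) * 1 := mul_le_mul e1 (hX _ _) (nrm_nonneg sz _) (by linarith)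
        _ = H := by ring
    refine (Finset.sum_le_sum h3).trans ?_
    rw [Finset.sum_const, Finset.card_range, nsmul_eq_mul]
  have h3 := (hneg (∑ i ∈ range (n + 1), MvPolynomial.C (f.coeff i) *
    MvPolynomial.X (some 0) ^ i * MvPolynomial.X (some 1) ^ (n - i) :
      MvPolynomial (Option (Fin 3)) (𝓞 K))).trans h2
  push_cast at h3 ⊢
  nlinarith

theorem relT_aeval (n : ℕ) (f g : (𝓞 K)[X]) (p : Fin 3 → (𝓞 K)[X]) :
    MvPolynomial.aeval (fun i : Option (Fin 3) => i.elim g p) (relT n f) =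
      g * p 2 ^ n - hm n (fun i => C (f.coeff i)) (p 0) (p 1) := by
  unfold relT hm
  rw [map_sub, map_sum]
  congr 1
  · simp
  · refine Finset.sum_congr rfl fun i _ => ?_
    simp only [map_mul, map_pow, MvPolynomial.aeval_X, MvPolynomial.aeval_C]
    rfl

/-- **Points with few digits come from points over the function field.** -/
theorem lift_t (n : ℕ) {r D D' N : ℕ} (hN : 1 ≤ N) {H : ℝ} (hH : 1 ≤ H) {t : K}
    (ht : (((Cst r D D' (n + 1) (n + 2) : ℕ) * (H * N)) ^
      (Cst r D D' (n + 1) (n + 2))) ^ Module.finrank ℚ K ≤ mulHeight₁ t)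
    (f g : (𝓞 K)[X]) (hf : ∀ i, hs (f.coeff i) ≤ H)
    (hg : g.natDegree ≤ D') (hgH : ∀ j, hs (g.coeff j) ≤ H)
    (p : Fin 3 → (𝓞 K)[X]) (hp : PowerVec r D N H p)
    (h0 : aeval t g * aeval t (p 2) ^ n =
      hm n (fun i => algebraMap (𝓞 K) K (f.coeff i)) (aeval t (p 0)) (aeval t (p 1))) :
    g.map (algebraMap (𝓞 K) K) * (p 2).map (algebraMap (𝓞 K) K) ^ n =
      Ph n (f.map (algebraMap (𝓞 K) K)) ((p 0).map (algebraMap (𝓞 K) K))
        ((p 1).map (algebraMap (𝓞 K) K)) := by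
  have h1 := liftG (by omega) hN (by omega) hH ht p hp g hg hgH (relT n f) (relT_deg n f)
    (relT_nrm n f hH hf) (by
      rw [relT_aeval, map_sub, map_mul, map_pow, h0]
      rw [show aeval t (hm n (fun i => C (f.coeff i)) (p 0) (p 1)) =
        (aeval t : (𝓞 K)[X] →ₐ[𝓞 K] K).toRingHom
          (hm n (fun i => C (f.coeff i)) (p 0) (p 1)) from rfl, hm_map]
      rw [sub_eq_zero]
      congr 1
      funext i
      exact (aeval_C t (f.coeff i)).symm)
  rw [relT_aeval, sub_eq_zero] at h1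
  have h2 := congrArg (Polynomial.mapRingHom (algebraMap (𝓞 K) K)) h1
  rw [map_mul, map_pow, hm_map] at h2
  simp only [Polynomial.coe_mapRingHom] at h2
  rw [h2]
  unfold Ph
  congr 1
  funext i
  rw [Polynomial.map_C, coeff_map]

end Pool.Agent.Q29.TW
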