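import Mathlib
import Pool.Agent.Q29.TW.Pts

/-!
# Weierstrass equations with few digits: from points at `t` to points over the function field
-/

set_option autoImplicit false

namespace Pool.Agent.Q29.TW

open Finset Polynomial Pool.Agent.Q103.SD NumberField Pool.Agent.H458.Sp Pool.Agent.Q29.SE Height

variable {K : Type} [Field K] [NumberField K]

/-- the relation polynomial of `y² = x³ + a g^i x + b g^j` -/
noncomputable def relW (a b : 𝓞 K) (i j : ℕ) : MvPolynomial (Option (Fin 3)) (𝓞 K) :=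
  MvPolynomial.X (some 1) ^ 2 * MvPolynomial.X (some 2) +
    (-(MvPolynomial.X (some 0) ^ 3) +
    (MvPolynomial.C (-a) * (MvPolynomial.X none ^ i * MvPolynomial.X (some 0) *
      MvPolynomial.X (some 2) ^ 2) +
    MvPolynomial.C (-b) * (MvPolynomial.X none ^ j * MvPolynomial.X (some 2) ^ 3)))

theorem relW_deg (a b : 𝓞 K) (i j : ℕ) : (relW a b i j).totalDegree ≤ i + j + 3 := by
  have hX : ∀ (i : Option (Fin 3)) (e : ℕ),
      ((MvPolynomial.X i : MvPolynomial (Option (Fin 3)) (𝓞 K)) ^ e).totalDegree ≤ e := by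
    intro i e
    refine (MvPolynomial.totalDegree_pow _ _).trans ?_
    rw [MvPolynomial.totalDegree_X]
    omega
  have hX1 : ∀ i : Option (Fin 3),
      (MvPolynomial.X i : MvPolynomial (Option (Fin 3)) (𝓞 K)).totalDegree ≤ 1 := by
    intro i
    rw [MvPolynomial.totalDegree_X]
  have hM : ∀ (P Q : MvPolynomial (Option (Fin 3)) (𝓞 K)) (u v : ℕ), P.totalDegree ≤ u →
      Q.totalDegree ≤ v → (P * Q).totalDegree ≤ u + v := by
    intro P Q u v h1 h2
    have := MvPolynomial.totalDegree_mul P Q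
    omega
  have hA : ∀ (P Q : MvPolynomial (Option (Fin 3)) (𝓞 K)) (u : ℕ), P.totalDegree ≤ u →
      Q.totalDegree ≤ u → (P + Q).totalDegree ≤ u := by
    intro P Q u h1 h2
    exact (MvPolynomial.totalDegree_add P Q).trans (max_le h1 h2)
  have hC : ∀ c : 𝓞 K, (MvPolynomial.C c : MvPolynomial (Option (Fin 3)) (𝓞 K)).totalDegree ≤ 0 := by
    intro c
    rw [MvPolynomial.totalDegree_C]
  unfold relW
  refine hA _ _ _ ((hM _ _ _ _ (hX _ _) (hX1 _)).trans (by omega)) (hA _ _ _ ?_ (hA _ _ _ ?_ ?_))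
  · rw [MvPolynomial.totalDegree_neg]
    exact (hX _ _).trans (by omega)
  · exact (hM _ _ _ _ (hC _) (hM _ _ _ _ (hM _ _ _ _ (hX _ _) (hX1 _)) (hX _ _))).trans
      (by omega)
  · exact (hM _ _ _ _ (hC _) (hM _ _ _ _ (hX _ _) (hX _ _))).trans (by omega)

theorem relW_nrm (a b : 𝓞 K) (i j : ℕ) {H : ℝ} (hH : 1 ≤ H) (ha : hs a ≤ H) (hb : hs b ≤ H) :
    Pool.Agent.Q29.SE.nrm (fun x : 𝓞 K => hs x) (relW a b i j) ≤ (4 : ℕ) * H := by
  have sz := sizeHs (k := K)
  have hX : ∀ (i : Option (Fin 3)) (e : ℕ), Pool.Agent.Q29.SE.nrm (fun x : 𝓞 K => hs x)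
      ((MvPolynomial.X i : MvPolynomial (Option (Fin 3)) (𝓞 K)) ^ e) ≤ 1 := by
    intro i e
    have := nrm_pow sz (MvPolynomial.X i : MvPolynomial (Option (Fin 3)) (𝓞 K)) 1 (nrm_X sz i) e
    rwa [one_pow] at this
  have hneg : ∀ G : MvPolynomial (Option (Fin 3)) (𝓞 K),
      Pool.Agent.Q29.SE.nrm (fun x : 𝓞 K => hs x) (-G) ≤
        Pool.Agent.Q29.SE.nrm (fun x : 𝓞 K => hs x) G := by
    intro G
    unfold Pool.Agent.Q29.SE.nrm
    rw [MvPolynomial.support_neg]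
    refine Finset.sum_le_sum fun α _ => ?_
    rw [MvPolynomial.coeff_neg]
    exact (hs_neg _).le
  have hM : ∀ (P Q : MvPolynomial (Option (Fin 3)) (𝓞 K)),
      Pool.Agent.Q29.SE.nrm (fun x : 𝓞 K => hs x) P ≤ 1 →
      Pool.Agent.Q29.SE.nrm (fun x : 𝓞 K => hs x) Q ≤ 1 →
      Pool.Agent.Q29.SE.nrm (fun x : 𝓞 K => hs x) (P * Q) ≤ 1 := by
    intro P Q h1 h2
    exact (nrm_mul sz _ _).trans (mul_le_one₀ h1 (nrm_nonneg sz _) h2)
  have hMC : ∀ (c : 𝓞 K) (Q : MvPolynomial (Option (Fin 3)) (𝓞 K)), hs c ≤ H →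
      Pool.Agent.Q29.SE.nrm (fun x : 𝓞 K => hs x) Q ≤ 1 →
      Pool.Agent.Q29.SE.nrm (fun x : 𝓞 K => hs x) (MvPolynomial.C c * Q) ≤ H := by
    intro c Q h1 h2
    refine (nrm_mul sz _ _).trans ?_
    calc _ ≤ H * 1 := mul_le_mul ((nrm_C sz _).trans h1) h2 (nrm_nonneg sz _) (by linarith)
      _ = H := mul_one H
  have hadd := fun P Q : MvPolynomial (Option (Fin 3)) (𝓞 K) => nrm_add sz P Q
  unfold relW
  refine (hadd _ _).trans ?_
  have h1 : Pool.Agent.Q29.SE.nrm (fun x : 𝓞 K => hs x)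
      (MvPolynomial.X (some 1) ^ 2 * MvPolynomial.X (some 2) :
        MvPolynomial (Option (Fin 3)) (𝓞 K)) ≤ 1 := hM _ _ (hX _ _) (nrm_X sz _)
  have h2 := (hneg (MvPolynomial.X (some 0) ^ 3)).trans (hX (some 0) 3)
  have h3 := hMC (-a) (MvPolynomial.X none ^ i * MvPolynomial.X (some 0) *
      MvPolynomial.X (some 2) ^ 2) (by rw [hs_neg]; exact ha)
      (hM _ _ (hM _ _ (hX _ _) (nrm_X sz _)) (hX _ _))
  have h4 := hMC (-b) (MvPolynomial.X none ^ j * MvPolynomial.X (some 2) ^ 3)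
      (by rw [hs_neg]; exact hb) (hM _ _ (hX _ _) (hX _ _))
  have h5 := hadd (MvPolynomial.C (-a) * (MvPolynomial.X none ^ i * MvPolynomial.X (some 0) *
      MvPolynomial.X (some 2) ^ 2))
      (MvPolynomial.C (-b) * (MvPolynomial.X none ^ j * MvPolynomial.X (some 2) ^ 3))
  have h6 := hadd (-(MvPolynomial.X (some 0) ^ 3))
    (MvPolynomial.C (-a) * (MvPolynomial.X none ^ i * MvPolynomial.X (some 0) *
      MvPolynomial.X (some 2) ^ 2) +
      MvPolynomial.C (-b) * (MvPolynomial.X none ^ j * MvPolynomial.X (some 2) ^ 3))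
  push_cast
  linarith

theorem relW_aeval (a b : 𝓞 K) (i j : ℕ) (g : (𝓞 K)[X]) (p : Fin 3 → (𝓞 K)[X]) :
    MvPolynomial.aeval (fun i : Option (Fin 3) => i.elim g p) (relW a b i j) =
      p 1 ^ 2 * p 2 - (p 0 ^ 3 + C a * g ^ i * p 0 * p 2 ^ 2 + C b * g ^ j * p 2 ^ 3) := by
  unfold relW
  simp only [map_add, map_mul, map_pow, map_neg, MvPolynomial.aeval_X, MvPolynomial.aeval_C]
  simp only [Option.elim, Polynomial.algebraMap_apply, Algebra.algebraMap_self, RingHom.id_apply]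
  ring

/-- **Points with few digits come from points over the function field.** -/
theorem lift_w (i j : ℕ) {r D D' N : ℕ} (hN : 1 ≤ N) {H : ℝ} (hH : 1 ≤ H) {t : K}
    (ht : (((Cst r D D' (i + j + 3) 4 : ℕ) * (H * N)) ^
      (Cst r D D' (i + j + 3) 4)) ^ Module.finrank ℚ K ≤ mulHeight₁ t)
    (a b : 𝓞 K) (ha : hs a ≤ H) (hb : hs b ≤ H) (g : (𝓞 K)[X])
    (hg : g.natDegree ≤ D') (hgH : ∀ j, hs (g.coeff j) ≤ H)
    (p : Fin 3 → (𝓞 K)[X]) (hp : PowerVec r D N H p)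
    (h0 : aeval t (p 1) ^ 2 * aeval t (p 2) = aeval t (p 0) ^ 3 +
      algebraMap (𝓞 K) K a * aeval t g ^ i * aeval t (p 0) * aeval t (p 2) ^ 2 +
      algebraMap (𝓞 K) K b * aeval t g ^ j * aeval t (p 2) ^ 3) :
    (p 1).map (algebraMap (𝓞 K) K) ^ 2 * (p 2).map (algebraMap (𝓞 K) K) =
      (p 0).map (algebraMap (𝓞 K) K) ^ 3 + C (algebraMap (𝓞 K) K a) *
        g.map (algebraMap (𝓞 K) K) ^ i * (p 0).map (algebraMap (𝓞 K) K) *
          (p 2).map (algebraMap (𝓞 K) K) ^ 2 +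
        C (algebraMap (𝓞 K) K b) * g.map (algebraMap (𝓞 K) K) ^ j *
          (p 2).map (algebraMap (𝓞 K) K) ^ 3 := by
  have h1 := liftG (by omega) hN (by omega) hH ht p hp g hg hgH (relW a b i j) (relW_deg a b i j)
    (relW_nrm a b i j hH ha hb) (by
      rw [relW_aeval]
      simp only [map_sub, map_add, map_mul, map_pow, aeval_C]
      rw [h0]
      ring)
  rw [relW_aeval, sub_eq_zero] at h1
  have h2 := congrArg (Polynomial.map (algebraMap (𝓞 K) K)) h1
  simpa only [Polynomial.map_add, Polynomial.map_mul, Polynomial.map_pow, Polynomial.map_C]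
    using h2

end Pool.Agent.Q29.TW
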