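import Mathlib

/-!
# Ranks of groups with a homomorphism to polynomials of small degree
-/

set_option autoImplicit false

namespace Pool.Agent.Q29.TW

open Polynomial

theorem rank_fin_fun (k : Type) [Field k] [NumberField k] (m : ℕ) :
    Module.rank ℤ (Fin m → k) = (Module.finrank ℚ k * m : ℕ) := by
  rw [← IsLocalization.rank_eq ℚ (nonZeroDivisors ℤ) le_rfl]
  have h1 : Module.rank ℚ (Fin m → k) = (Module.finrank ℚ (Fin m → k) : ℕ) :=
    (Module.finrank_eq_rank ℚ (Fin m → k)).symm
  rw [h1, Module.finrank_pi_fintype]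
  simp [mul_comm]

theorem rank_of_hom {M : Type} [AddCommGroup M] {k : Type} [Field k] [NumberField k] (m : ℕ)
    (Q : M →+ k[X]) (hdeg : ∀ P, Q P = 0 ∨ (Q P).natDegree < m)
    (hker : ∀ P, Q P = 0 → ∃ n : ℤ, n ≠ 0 ∧ n • P = 0) :
    Module.rank ℤ M ≤ (Module.finrank ℚ k * m : ℕ) := by
  obtain ⟨ψ, hψ⟩ : ∃ ψ : M →+ (Fin m → k), ∀ P i, ψ P i = (Q P).coeff i := by
    refine ⟨AddMonoidHom.mk' (fun P i => (Q P).coeff i) ?_, fun P i => rfl⟩
    intro P P'
    funext i
    rw [map_add, coeff_add]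
    rfl
  have h1 := LinearMap.rank_range_add_rank_ker ψ.toIntLinearMap
  have h2 : Module.rank ℤ (LinearMap.ker ψ.toIntLinearMap) = 0 := by
    rw [rank_eq_zero_iff]
    rintro ⟨P, hP⟩
    have h3 : Q P = 0 := by
      rcases hdeg P with h | h
      · exact h
      · ext i
        rw [coeff_zero]
        by_cases hi : i < m
        · have h4 := congrFun (LinearMap.mem_ker.1 hP) ⟨i, hi⟩
          have h5 := hψ P ⟨i, hi⟩
          rw [← h5]
          exact h4
        · exact coeff_eq_zero_of_natDegree_lt (by omega)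
    obtain ⟨n, hn, hn'⟩ := hker P h3
    exact ⟨n, hn, Subtype.ext hn'⟩
  rw [h2, add_zero] at h1
  rw [← h1, ← rank_fin_fun k m]
  exact Submodule.rank_le _

/-- the image of a group -/
theorem rank_range {M M' : Type} [AddCommGroup M] [AddCommGroup M'] (f : M →+ M') :
    Module.rank ℤ f.range ≤ Module.rank ℤ M :=
  LinearMap.rank_le_of_surjective f.rangeRestrict.toIntLinearMap f.rangeRestrict_surjective

end Pool.Agent.Q29.TW
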