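import Mathlib
import Pool.Agent.H475R2.DC_RED
import Pool.Agent.H439DC.DC_REDA
import Pool.Agent.H816R2.DC_REDB
import Pool.Agent.Helper171.DC_REDC

/-!
# Specialization of the points of an elliptic curve over a rational function field
-/

set_option autoImplicit false

namespace Pool.Agent.Q29.TW

open Polynomial Pool.Agent.H925R3.DC Pool.Agent.H475R2.DC_RED

section place

variable {k : Type} [Field k] (t : k)

theorem eval_ne_of_dvd {p q : k[X]} (h : p ∣ q) (hq : q.eval t ≠ 0) : p.eval t ≠ 0 := by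
  rintro h0
  obtain ⟨c, hc⟩ := h
  apply hq
  rw [hc, eval_mul, h0, zero_mul]

/-- the rational functions that are regular at `t` -/
def OT : Subring (RatFunc k) where
  carrier := {x | x.denom.eval t ≠ 0}
  mul_mem' := by
    intro x y hx hy
    refine eval_ne_of_dvd t (RatFunc.denom_mul_dvd x y) ?_
    rw [eval_mul]
    exact mul_ne_zero hx hy
  one_mem' := by
    show (RatFunc.denom (1 : RatFunc k)).eval t ≠ 0
    rw [RatFunc.denom_one, eval_one]
    exact one_ne_zero
  add_mem' := by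
    intro x y hx hy
    refine eval_ne_of_dvd t (RatFunc.denom_add_dvd x y) ?_
    rw [eval_mul]
    exact mul_ne_zero hx hy
  zero_mem' := by
    show (RatFunc.denom (0 : RatFunc k)).eval t ≠ 0
    rw [RatFunc.denom_zero, eval_one]
    exact one_ne_zero
  neg_mem' := by
    intro x hx
    refine eval_ne_of_dvd t ((RatFunc.denom_dvd (RatFunc.denom_ne_zero x)).2 ⟨-x.num, ?_⟩) hx
    rw [map_neg, neg_div, RatFunc.num_div_denom]

theorem mem_OT (x : RatFunc k) : x ∈ OT t ↔ x.denom.eval t ≠ 0 := Iff.rfl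

theorem div_mem_OT {p q : k[X]} (hq : q.eval t ≠ 0) :
    algebraMap k[X] (RatFunc k) p / algebraMap k[X] (RatFunc k) q ∈ OT t :=
  eval_ne_of_dvd t (RatFunc.denom_div_dvd p q) hq

theorem poly_mem_OT (p : k[X]) : algebraMap k[X] (RatFunc k) p ∈ OT t := by
  have := div_mem_OT t (p := p) (q := 1) (by rw [eval_one]; exact one_ne_zero)
  rwa [map_one, div_one] at this

/-- the value at `t` -/
noncomputable def phT : OT t →+* k where
  toFun x := RatFunc.eval (RingHom.id k) t x
  map_one' := by simp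
  map_mul' := by
    intro x y
    exact RatFunc.eval_mul (RingHom.id k) t (x := (x : RatFunc k)) (y := (y : RatFunc k))
      (by rw [eval₂_id]; exact x.2) (by rw [eval₂_id]; exact y.2)
  map_zero' := by simp
  map_add' := by
    intro x y
    exact RatFunc.eval_add (RingHom.id k) t (x := (x : RatFunc k)) (y := (y : RatFunc k))
      (by rw [eval₂_id]; exact x.2) (by rw [eval₂_id]; exact y.2)

theorem phT_poly (p : k[X]) : phT t ⟨algebraMap k[X] (RatFunc k) p, poly_mem_OT t p⟩ =
    p.eval t := by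
  show RatFunc.eval (RingHom.id k) t (algebraMap k[X] (RatFunc k) p) = _
  rw [RatFunc.eval_algebraMap, Algebra.algebraMap_self, RingHom.id_apply, eval₂_id]

theorem phT_div {p q : k[X]} (hq : q.eval t ≠ 0) :
    phT t ⟨algebraMap k[X] (RatFunc k) p / algebraMap k[X] (RatFunc k) q, div_mem_OT t hq⟩ =
      p.eval t / q.eval t := by
  rw [eq_div_iff hq, ← phT_poly t q, ← phT_poly t p, ← map_mul]
  congr 1
  apply Subtype.ext
  have hq0 : algebraMap k[X] (RatFunc k) q ≠ 0 := by
    intro h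
    rw [FaithfulSMul.algebraMap_eq_zero_iff] at h
    rw [h, eval_zero] at hq
    exact hq rfl
  show algebraMap k[X] (RatFunc k) p / algebraMap k[X] (RatFunc k) q *
    algebraMap k[X] (RatFunc k) q = algebraMap k[X] (RatFunc k) p
  rw [div_mul_cancel₀ _ hq0]

theorem val_OT (x : RatFunc k) : x ∈ OT t ∨ x⁻¹ ∈ OT t := by
  by_cases h : x ∈ OT t
  · exact Or.inl h
  · right
    have hx0 : x ≠ 0 := by
      rintro rfl
      exact h (OT t).zero_mem
    rw [mem_OT, not_not] at h
    refine eval_ne_of_dvd t (RatFunc.denom_inv_dvd hx0) ?_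
    intro h2
    obtain ⟨a, b, hab⟩ := RatFunc.isCoprime_num_denom x
    have h3 := congrArg (eval t) hab
    rw [eval_add, eval_mul, eval_mul, h, h2, mul_zero, mul_zero, add_zero, eval_one] at h3
    exact zero_ne_one h3

theorem unit_OT (x : OT t) (h : phT t x ≠ 0) : (x : RatFunc k)⁻¹ ∈ OT t := by
  have hx0 : (x : RatFunc k) ≠ 0 := by
    intro h0
    apply h
    have : x = 0 := Subtype.ext h0
    rw [this, map_zero]
  refine eval_ne_of_dvd t (RatFunc.denom_inv_dvd hx0) ?_
  intro h2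
  apply h
  have h3 : x = ⟨algebraMap k[X] (RatFunc k) (x : RatFunc k).num /
      algebraMap k[X] (RatFunc k) (x : RatFunc k).denom, div_mem_OT t x.2⟩ :=
    Subtype.ext (RatFunc.num_div_denom _).symm
  rw [h3, phT_div t x.2, h2, zero_div]

/-- **Specialization.** -/
theorem spec (h20 : (2 : k) ≠ 0) (A B : k[X])
    (hd : 4 * A.eval t ^ 3 + 27 * B.eval t ^ 2 ≠ 0) [DecidableEq (RatFunc k)] [DecidableEq k] :
    ∃ red : (crv (RatFunc k) (algebraMap k[X] (RatFunc k) A)
        (algebraMap k[X] (RatFunc k) B)).Point →+ (crv k (A.eval t) (B.eval t)).Point,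
      ∀ (U V W : k[X]) (_ : W.eval t ≠ 0) (h : (crv (RatFunc k) (algebraMap k[X] (RatFunc k) A)
        (algebraMap k[X] (RatFunc k) B)).Nonsingular
          (algebraMap k[X] (RatFunc k) U / algebraMap k[X] (RatFunc k) W)
          (algebraMap k[X] (RatFunc k) V / algebraMap k[X] (RatFunc k) W)),
        ∃ h', red (.some _ _ h) = .some (U.eval t / W.eval t) (V.eval t / W.eval t) h' := by
  obtain ⟨a, ha⟩ : ∃ a : OT t, a = ⟨algebraMap k[X] (RatFunc k) A, poly_mem_OT t A⟩ := ⟨_, rfl⟩
  obtain ⟨b, hb⟩ : ∃ b : OT t, b = ⟨algebraMap k[X] (RatFunc k) B, poly_mem_OT t B⟩ := ⟨_, rfl⟩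
  have ea : algebraMap k[X] (RatFunc k) A = (a : RatFunc k) := by rw [ha]
  have eb : algebraMap k[X] (RatFunc k) B = (b : RatFunc k) := by rw [hb]
  have fa : A.eval t = phT t a := by rw [ha, phT_poly]
  have fb : B.eval t = phT t b := by rw [hb, phT_poly]
  rw [fa, fb] at hd ⊢
  rw [ea, eb]
  refine ⟨⟨⟨redF (phT t) (val_OT t) h20 a b hd, redF_zero _ _ _ _ _ _⟩,
    redF_add (phT t) (val_OT t) h20 a b hd Pool.Agent.H439DC.reda
      Pool.Agent.H816R2.DCREDB.redb Pool.Agent.Helper171.DCREDC.redc (unit_OT t)⟩, ?_⟩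
  intro U V W hW h
  have hx := div_mem_OT t (p := U) hW
  have hy := div_mem_OT t (p := V) hW
  have h1 := red_ns (phT t) h20 a b hd ⟨_, hx⟩ ⟨_, hy⟩ h
  have h2 := redF_mem (phT t) (val_OT t) h20 a b hd ⟨_, hx⟩ ⟨_, hy⟩ h h1
  have e1 := phT_div t (p := U) hW
  have e2 := phT_div t (p := V) hW
  rw [e1, e2] at h1
  refine ⟨h1, ?_⟩
  refine Eq.trans h2 ?_
  exact some_congr _ _ e1 e2

end place

end Pool.Agent.Q29.TW
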