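import Mathlib
import Pool.Agent.Q29.TW.Pts

/-!
# Twists of plane curves `Φ(x, y) = d`
-/

set_option autoImplicit false

namespace Pool.Agent.Q29.TW

open Polynomial Finset

section field

variable {k : Type*} [Field k] [CharZero k]

theorem S_dvd' (n : ℕ) (hn : 2 ≤ n) (f : k[X]) (hf : f.natDegree ≤ n) (hf' : n ≤ f.natDegree + 1)
    (hs : f.Separable) {A W F S : k[X]} (hAW : IsCoprime A W) (h : F * S ^ n = Ph n f A W) :
    S ^ (n - 1) ∣ J A W := by
  have hsn : S ^ (n - 1) ∣ S ^ n := pow_dvd_pow S (by omega)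
  have h1 : S ^ (n - 1) ∣ Ph n f A W := by
    rw [← h]
    exact Dvd.dvd.mul_left hsn _
  have h2 : S ^ (n - 1) ∣ derivative (Ph n f A W) := by
    rw [← h, derivative_mul, derivative_pow]
    refine dvd_add (Dvd.dvd.mul_left hsn _) ?_
    refine Dvd.dvd.mul_left ?_ _
    exact Dvd.dvd.mul_right (Dvd.dvd.mul_left dvd_rfl _) _
  have h3 : S ^ (n - 1) ∣ PA n f A W * J A W := by
    rw [← id1]
    exact dvd_sub (h2.mul_left _) (h1.mul_left _)
  have h4 : S ^ (n - 1) ∣ PW n f A W * J A W := by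
    rw [← dvd_neg, ← id2]
    exact dvd_sub (h2.mul_left _) (h1.mul_left _)
  obtain ⟨u, v, huv⟩ := cop n hn f hf hf' hs hAW
  have h5 : J A W = u * (PA n f A W * J A W) + v * (PW n f A W * J A W) := by
    linear_combination (-(J A W)) * huv
  rw [h5]
  exact dvd_add (h3.mul_left _) (h4.mul_left _)

theorem max_pos_of_J {A W : k[X]} (hJ : J A W ≠ 0) : 1 ≤ max A.natDegree W.natDegree := by
  by_contra hcon
  apply hJ
  have h1 : derivative A = 0 := by
    rw [eq_C_of_natDegree_eq_zero (p := A) (by omega), derivative_C]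
  have h2 : derivative W = 0 := by
    rw [eq_C_of_natDegree_eq_zero (p := W) (by omega), derivative_C]
  unfold J
  rw [h1, h2]
  ring

/-- the basic inequality for the degrees -/
theorem key_deg (n : ℕ) (hn : 2 ≤ n) (f : k[X]) (hf : f.natDegree ≤ n)
    (hf' : n ≤ f.natDegree + 1) (hs : f.Separable) {A W : k[X]} (hJ : J A W ≠ 0) :
    (n - 1) * max A.natDegree W.natDegree + (J A W).natDegree + 1 ≤
      max A.natDegree W.natDegree + (Ph n f A W).natDegree := by
  have hM1 := max_pos_of_J hJ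
  obtain ⟨M, hM⟩ : ∃ M, M = max A.natDegree W.natDegree := ⟨_, rfl⟩
  rw [← hM] at hM1 ⊢
  have hA : A.natDegree ≤ M := by omega
  have hW : W.natDegree ≤ M := by omega
  have haw : A.coeff M ≠ 0 ∨ W.coeff M ≠ 0 := by
    by_contra hcon
    push Not at hcon
    rcases max_choice A.natDegree W.natDegree with h1 | h1
    · rw [hM, h1, coeff_natDegree, leadingCoeff_eq_zero] at hcon
      rw [h1, hcon.1, natDegree_zero] at hM
      omega
    · rw [hM, h1, coeff_natDegree, leadingCoeff_eq_zero] at hcon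
      rw [h1, hcon.2, natDegree_zero] at hM
      omega
  have hprod : ∀ B : k[X], B.natDegree ≤ M →
      (B * derivative (Ph n f A W) - (n : k[X]) * derivative B * Ph n f A W).natDegree + 1 ≤
        M + (Ph n f A W).natDegree := by
    intro B hB
    have h1 : (B * derivative (Ph n f A W)).natDegree + 1 ≤ M + (Ph n f A W).natDegree := by
      by_cases h0 : (Ph n f A W).natDegree = 0
      · have : derivative (Ph n f A W) = 0 := by
          rw [eq_C_of_natDegree_eq_zero h0, derivative_C]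
        rw [this, mul_zero, natDegree_zero]
        omega
      · have h2 := natDegree_mul_le (p := B) (q := derivative (Ph n f A W))
        have h3 := natDegree_derivative_le (Ph n f A W)
        omega
    have h2 : ((n : k[X]) * derivative B * Ph n f A W).natDegree + 1 ≤
        M + (Ph n f A W).natDegree := by
      have h3 := natDegree_mul_le (p := (n : k[X]) * derivative B) (q := Ph n f A W)
      have h4 := natDegree_mul_le (p := (n : k[X])) (q := derivative B)
      have h5 := natDegree_derivative_le B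
      rw [natDegree_natCast] at h4
      omega
    have h3 := natDegree_sub_le (B * derivative (Ph n f A W))
      ((n : k[X]) * derivative B * Ph n f A W)
    omega
  rcases ns n hn f hf hf' hs haw with h1 | h1
  · rw [← top_PA n M (by omega) f hA hW] at h1
    have h2 : PA n f A W ≠ 0 := by
      intro h3
      rw [h3, coeff_zero] at h1
      exact h1 rfl
    have h3 := le_natDegree_of_ne_zero h1
    have h4 := hprod W hW
    rw [id1, natDegree_mul h2 hJ] at h4
    omega
  · rw [← top_PW n M (by omega) f hA hW] at h1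
    have h2 : PW n f A W ≠ 0 := by
      intro h3
      rw [h3, coeff_zero] at h1
      exact h1 rfl
    have h3 := le_natDegree_of_ne_zero h1
    have h4 := hprod A hA
    rw [id2, natDegree_neg, natDegree_mul h2 hJ] at h4
    omega

/-- **The degrees** for `F S ^ n = Φ(A, W)`. -/
theorem thue_deg (m : ℕ) (f : k[X]) (hf : f.natDegree ≤ m + 3)
    (hf' : m + 3 ≤ f.natDegree + 1) (hs : f.Separable) {A W F S : k[X]} (hF : F ≠ 0) (hS : S ≠ 0)
    (hAW : IsCoprime A W) (h : F * S ^ (m + 3) = Ph (m + 3) f A W) (hJ : J A W ≠ 0) :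
    ∃ c : k[X], J A W = S ^ (m + 2) * c ∧
      (m + 3) * m * max A.natDegree W.natDegree + (m + 3) * c.natDegree + m + 4 ≤
        (m + 2) * F.natDegree := by
  obtain ⟨c, hc⟩ := S_dvd' (m + 3) (by omega) f hf hf' hs hAW h
  have e0 : m + 3 - 1 = m + 2 := by omega
  rw [e0] at hc
  refine ⟨c, hc, ?_⟩
  have hc0 : c ≠ 0 := by
    rintro rfl
    rw [mul_zero] at hc
    exact hJ hc
  have h1 := key_deg (m + 3) (by omega) f hf hf' hs hJ
  have hM1 := max_pos_of_J hJ
  have h2 := J_deg hM1 (le_max_left _ _) (le_max_right A.natDegree W.natDegree)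
  obtain ⟨M, hM⟩ : ∃ M, M = max A.natDegree W.natDegree := ⟨_, rfl⟩
  rw [← hM] at h1 h2 hM1 ⊢
  rw [← h, e0, natDegree_mul hF (pow_ne_zero _ hS), natDegree_pow] at h1
  rw [hc, natDegree_mul (pow_ne_zero _ hS) hc0, natDegree_pow] at h1 h2
  have h3 : (m + 2) * S.natDegree + c.natDegree + 2 ≤ 2 * M := by omega
  have h4 := Nat.mul_le_mul_left (m + 2) h1
  nlinarith [h3, h4]

theorem Ph_zero (n : ℕ) (hn : 1 ≤ n) (f : k[X]) : Ph n f 0 0 = 0 := by
  unfold Ph hm
  refine Finset.sum_eq_zero fun i hi => ?_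
  rcases Nat.eq_zero_or_pos i with h | h
  · subst h
    rw [zero_pow (by omega : n - 0 ≠ 0), mul_zero]
  · rw [zero_pow (by omega : i ≠ 0), mul_zero, zero_mul]

/-- reduction to lowest terms -/
theorem lift_thue (n : ℕ) (hn : 2 ≤ n) (f : k[X]) {U V W0 G : k[X]} (hG : Squarefree G)
    (hW0 : W0 ≠ 0) (h : G * W0 ^ n = Ph n f U V) :
    ∃ A B S : k[X], IsCoprime A B ∧ S ≠ 0 ∧ U * S = A * W0 ∧ V * S = B * W0 ∧ S ∣ W0 ∧
      G * S ^ n = Ph n f A B := by
  classical
  have hG0 : G ≠ 0 := hG.ne_zero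
  obtain ⟨g, hg⟩ : ∃ g, g = EuclideanDomain.gcd U V := ⟨_, rfl⟩
  have hg0 : g ≠ 0 := by
    intro h0
    rw [hg, EuclideanDomain.gcd_eq_zero_iff] at h0
    rw [h0.1, h0.2, Ph_zero n (by omega)] at h
    exact mul_ne_zero hG0 (pow_ne_zero _ hW0) h
  obtain ⟨A, hA⟩ : g ∣ U := by rw [hg]; exact EuclideanDomain.gcd_dvd_left _ _
  obtain ⟨B, hB⟩ : g ∣ V := by rw [hg]; exact EuclideanDomain.gcd_dvd_right _ _
  have hcop : IsCoprime A B := by
    have h1 := EuclideanDomain.gcd_eq_gcd_ab U V
    rw [← hg] at h1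
    refine ⟨EuclideanDomain.gcdA U V, EuclideanDomain.gcdB U V, ?_⟩
    apply mul_left_cancel₀ hg0
    rw [mul_one]
    conv_rhs => rw [h1]
    rw [hA, hB]
    ring
  rw [hA, hB, Ph_mul] at h
  have h3 : g ^ n ∣ (G * W0) ^ n := by
    refine ⟨G ^ (n - 1) * Ph n f A B, ?_⟩
    have e : G ^ n = G ^ (n - 1) * G := by rw [← pow_succ]; congr 1; omega
    rw [mul_pow, e]
    linear_combination G ^ (n - 1) * h
  obtain ⟨Y, hY⟩ := (IsIntegrallyClosed.pow_dvd_pow_iff (by omega : n ≠ 0)).1 h3
  have h4 : Y ^ n = G ^ (n - 1) * Ph n f A B := by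
    apply mul_left_cancel₀ (pow_ne_zero n hg0)
    have e : G ^ n = G ^ (n - 1) * G := by rw [← pow_succ]; congr 1; omega
    calc g ^ n * Y ^ n = (G * W0) ^ n := by rw [hY]; ring
      _ = _ := by
        rw [mul_pow, e]
        linear_combination G ^ (n - 1) * h
  obtain ⟨S, hS⟩ : G ∣ Y := by
    refine (hG.dvd_pow_iff_dvd (by omega : n ≠ 0)).1 ?_
    rw [h4]
    exact Dvd.dvd.mul_right (dvd_pow_self G (by omega)) _
  have h5 : W0 = g * S := by
    apply mul_left_cancel₀ hG0
    rw [hY, hS]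
    ring
  have hS0 : S ≠ 0 := by
    rintro rfl
    rw [mul_zero] at h5
    exact hW0 h5
  refine ⟨A, B, S, hcop, hS0, by rw [hA, h5]; ring, by rw [hB, h5]; ring, ⟨g, by rw [h5]; ring⟩, ?_⟩
  apply mul_left_cancel₀ (pow_ne_zero n hg0)
  rw [← h, h5]
  ring

end field

end Pool.Agent.Q29.TW
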