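import Mathlib
import Pool.Agent.Q29.TW.Thue

/-!
# Counting the solutions of `Φ(x, y) = G` in rational functions
-/

set_option autoImplicit false

namespace Pool.Agent.Q29.TW

open Polynomial Finset

theorem hm_mul {R : Type*} [CommRing R] (n : ℕ) (f : ℕ → R) (l a w : R) :
    hm n f (l * a) (l * w) = l ^ n * hm n f a w := by
  unfold hm
  rw [Finset.mul_sum]
  refine Finset.sum_congr rfl fun i hi => ?_
  rw [Finset.mem_range] at hi
  have h1 : l ^ n = l ^ i * l ^ (n - i) := by rw [← pow_add]; congr 1; omega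
  rw [h1]
  ring

variable {k : Type} [Field k] [CharZero k]

theorem val_mem' (n : ℕ) (hn : 1 ≤ n) (f : k[X]) (hf : f.natDegree ≤ n) (hf0 : f ≠ 0)
    {A W G S : k[X]} (hAW : IsCoprime A W) (h : G * S ^ n = Ph n f A W) {α : AlgebraicClosure k}
    (hα : aeval α G = 0) : val A W α ∈ Zf n f := by
  classical
  have h2 := congrArg (aeval α) h
  rw [map_mul, hα, zero_mul] at h2
  have h3 : aeval α (Ph n f A W) = hm n (f.map (algebraMap k (AlgebraicClosure k))).coeff
      (aeval α A) (aeval α W) := by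
    have h4 := hm_map (aeval α : k[X] →ₐ[k] AlgebraicClosure k).toRingHom n
      (fun i => C (f.coeff i)) A W
    unfold Ph
    refine Eq.trans h4 ?_
    congr 1
    funext i
    rw [coeff_map]
    show aeval α (C (f.coeff i)) = _
    rw [aeval_C]
  rw [h3] at h2
  unfold val Zf
  by_cases h1 : aeval α W = 0
  · rw [if_pos h1]
    refine Finset.mem_union_left _ ?_
    have hne : f.natDegree ≠ n := by
      intro hn
      rw [h1, hm_zero_right] at h2
      rcases mul_eq_zero.mp h2.symm with h5 | h5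
      · rw [coeff_map, ← hn, coeff_natDegree, map_eq_zero] at h5
        exact hf0 (leadingCoeff_eq_zero.mp h5)
      · have h6 : aeval α A = 0 := eq_zero_of_pow_eq_zero h5
        obtain ⟨a, b, hab⟩ := hAW
        have h7 := congrArg (aeval α) hab
        rw [map_add, map_mul, map_mul, h6, h1, mul_zero, mul_zero, add_zero, map_one] at h7
        exact zero_ne_one h7
    rw [if_neg hne]
    exact Finset.mem_singleton_self _
  · rw [if_neg h1]
    refine Finset.mem_union_right _ (Finset.mem_image.2 ⟨_, ?_, rfl⟩)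
    rw [Multiset.mem_toFinset]
    rw [hm_of_ne n _ (by rwa [natDegree_map]) h1] at h2
    have h5 := (mul_eq_zero.mp h2.symm).resolve_left (pow_ne_zero _ h1)
    rw [mem_roots']
    refine ⟨?_, h5⟩
    intro h6
    rw [Polynomial.map_eq_zero] at h6
    exact hf0 h6

/-- **The count.** -/
theorem count_thue (m : ℕ) (hm2 : 2 ≤ m) (f : k[X]) (hf : f.natDegree ≤ m + 3)
    (hf' : m + 3 ≤ f.natDegree + 1) (hs : f.Separable) {G : k[X]} (hG : Squarefree G)
    (hG1 : 1 ≤ G.natDegree) (t : k) (hGt : G.eval t ≠ 0) (P : Set (k × k))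
    (hP : ∀ q ∈ P, hm (m + 3) f.coeff q.1 q.2 = G.eval t ∧ ∃ U V W0 : k[X], W0.eval t ≠ 0 ∧
      q.1 = U.eval t / W0.eval t ∧ q.2 = V.eval t / W0.eval t ∧
      G * W0 ^ (m + 3) = Ph (m + 3) f U V) :
    (P.Finite ∧ P.ncard ≤ (m + 3) ^ (2 * (((m + 2) * G.natDegree - (m + 4)) / ((m + 3) * m)) + 2))
      ∧ (G.natDegree ≤ m + 1 → P = ∅) := by
  classical
  have hf0 : f ≠ 0 := by
    rintro rfl
    simp at hf'
  have hlow : ∀ q ∈ P, ∃ A B S : k[X], IsCoprime A B ∧ S.eval t ≠ 0 ∧ S ≠ 0 ∧
      q.1 = A.eval t / S.eval t ∧ q.2 = B.eval t / S.eval t ∧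
        G * S ^ (m + 3) = Ph (m + 3) f A B := by
    intro q hq
    obtain ⟨_, U, V, W0, hW0, hq1, hq2, hrel⟩ := hP q hq
    have hW00 : W0 ≠ 0 := by
      rintro rfl
      rw [eval_zero] at hW0
      exact hW0 rfl
    obtain ⟨A, B, S, hcop, hS0, hU, hV, hSW, hS⟩ := lift_thue (m + 3) (by omega) f hG hW00 hrel
    have hSt : S.eval t ≠ 0 := by
      intro h0
      obtain ⟨c, hc⟩ := hSW
      apply hW0
      rw [hc, eval_mul, h0, zero_mul]
    refine ⟨A, B, S, hcop, hSt, hS0, ?_, ?_, hS⟩
    · rw [hq1, div_eq_div_iff hW0 hSt, ← eval_mul, ← eval_mul, hU]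
    · rw [hq2, div_eq_div_iff hW0 hSt, ← eval_mul, ← eval_mul, hV]
  choose! A B S hcop hSt hS0 hq1 hq2 hrel using hlow
  have hJ : ∀ q ∈ P, J (A q) (B q) ≠ 0 := by
    intro q hq hJ
    obtain ⟨hA0, hB0⟩ := J_zero (hcop q hq) hJ
    have h2 : (Ph (m + 3) f (A q) (B q)).natDegree = 0 := by
      have h3 : Ph (m + 3) f (A q) (B q) =
          C (hm (m + 3) f.coeff ((A q).coeff 0) ((B q).coeff 0)) := by
        rw [hm_map (C : k →+* k[X])]
        unfold Ph
        rw [← eq_C_of_natDegree_eq_zero hA0, ← eq_C_of_natDegree_eq_zero hB0]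
      rw [h3, natDegree_C]
    rw [← hrel q hq, natDegree_mul hG.ne_zero (pow_ne_zero _ (hS0 q hq))] at h2
    omega
  have hdeg : ∀ q ∈ P, m + 2 ≤ G.natDegree ∧ max (A q).natDegree (B q).natDegree ≤
      ((m + 2) * G.natDegree - (m + 4)) / ((m + 3) * m) := by
    intro q hq
    obtain ⟨c, _, hc⟩ := thue_deg m f hf hf' hs hG.ne_zero (hS0 q hq) (hcop q hq) (hrel q hq)
      (hJ q hq)
    have hM1 := max_pos_of_J (hJ q hq)
    constructor
    · by_contra hcon
      have h1 : G.natDegree ≤ m + 1 := by omega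
      have h2 := Nat.mul_le_mul_left (m + 2) h1
      have h3 := Nat.mul_le_mul_left ((m + 3) * m) hM1
      nlinarith [h2, h3, hc, Nat.zero_le ((m + 3) * c.natDegree)]
    · rw [Nat.le_div_iff_mul_le (Nat.mul_pos (by omega) (by omega)), mul_comm]
      omega
  refine ⟨?_, ?_⟩
  swap
  · intro hG2
    rw [Set.eq_empty_iff_forall_notMem]
    intro q hq
    have := (hdeg q hq).1
    omega
  by_cases hne : P = ∅
  · rw [hne]
    exact ⟨Set.finite_empty, by rw [Set.ncard_empty]; exact Nat.zero_le _⟩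
  obtain ⟨q1, hq1'⟩ := Set.nonempty_iff_ne_empty.2 hne
  obtain ⟨M, hM⟩ : ∃ M, M = ((m + 2) * G.natDegree - (m + 4)) / ((m + 3) * m) := ⟨_, rfl⟩
  rw [← hM]
  have hMG : 2 * M + 1 ≤ (Rt G).card := by
    rw [Rt_card hG]
    have h2 := (hdeg q1 hq1').1
    have h3 : M * ((m + 3) * m) ≤ (m + 2) * G.natDegree - (m + 4) := by
      rw [hM]
      exact Nat.div_mul_le_self _ _
    have h5 : (m + 2) * (m + 2) ≤ (m + 2) * G.natDegree := Nat.mul_le_mul_left _ h2
    have h4 : M * ((m + 3) * m) + (m + 4) ≤ (m + 2) * G.natDegree := by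
      have : m + 4 ≤ (m + 2) * (m + 2) := by nlinarith
      omega
    by_contra hcon
    have h6 : G.natDegree ≤ 2 * M := by omega
    have h7 : G.natDegree * ((m + 3) * m) ≤ 2 * M * ((m + 3) * m) := Nat.mul_le_mul_right _ h6
    have h8 : 2 * (m + 2) * G.natDegree ≤ G.natDegree * ((m + 3) * m) := by
      have : 2 * (m + 2) ≤ (m + 3) * m := by nlinarith
      calc 2 * (m + 2) * G.natDegree ≤ ((m + 3) * m) * G.natDegree := Nat.mul_le_mul_right _ this
        _ = _ := by ring
    nlinarith [h4, h7, h8]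
  obtain ⟨R, hRsub, hRcard⟩ := Finset.exists_subset_card_eq hMG
  -- finite sets of points
  have hfin : ∀ s : Finset (k × k), (↑s : Set (k × k)) ⊆ P → s.card ≤ (m + 3) ^ (2 * M + 2) := by
    intro s hsP
    obtain ⟨T, hT⟩ : ∃ T : Finset (↥R → Option (AlgebraicClosure k)),
      T = (Fintype.piFinset fun _ : ↥R => Zf (m + 3) f) := ⟨_, rfl⟩
    obtain ⟨g, hg⟩ : ∃ g : k × k → (↥R → Option (AlgebraicClosure k)),
      g = fun q => fun α => val (A q) (B q) α.1 := ⟨_, rfl⟩
    have himg : s.image g ⊆ T := by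
      intro z hz
      obtain ⟨q, hq, rfl⟩ := Finset.mem_image.1 hz
      have hqP : q ∈ P := hsP hq
      rw [hT, Fintype.mem_piFinset, hg]
      intro α
      exact val_mem' (m + 3) (by omega) f hf hf0 (hcop q hqP) (hrel q hqP) (Rt_mem (hRsub α.2))
    have hTcard : T.card ≤ (m + 3) ^ (2 * M + 1) := by
      rw [hT, Fintype.card_piFinset, Finset.prod_const, Finset.card_univ, Fintype.card_coe, hRcard]
      exact Nat.pow_le_pow_left (Zf_card _ f hf) _
    have hfib : ∀ z ∈ s.image g, (s.filter fun q => g q = z).card ≤ m + 3 := by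
      intro z hz
      obtain ⟨q0, hq0, rfl⟩ := Finset.mem_image.1 hz
      have hq0P : q0 ∈ P := hsP hq0
      have hsub : (s.filter fun q => g q = g q0) ⊆
          (nthRoots (m + 3) (1 : k)).toFinset.image fun l => (l * q0.1, l * q0.2) := by
        intro q hq
        obtain ⟨hqs, hqg⟩ := Finset.mem_filter.1 hq
        have hqP : q ∈ P := hsP hqs
        have h3 : A q * B q0 - A q0 * B q = 0 := by
          refine eq_zero_of_Rt R ?_ fun α hα => ?_
          · have e1 := (hdeg q hqP).2
            have e2 := (hdeg q0 hq0P).2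
            rw [← hM] at e1 e2
            rw [hRcard]
            refine lt_of_le_of_lt (natDegree_sub_le _ _) (max_lt ?_ ?_)
            · refine lt_of_le_of_lt natDegree_mul_le ?_
              omega
            · refine lt_of_le_of_lt natDegree_mul_le ?_
              omega
          · rw [hg] at hqg
            exact val_eq (hcop q hqP) (hcop q0 hq0P) (congrFun hqg ⟨α, hα⟩)
        have h4 := congrArg (eval t) h3
        rw [eval_sub, eval_mul, eval_mul, eval_zero] at h4
        have h5 : q.1 * q0.2 = q0.1 * q.2 := by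
          have s1 := hSt q hqP
          have s2 := hSt q0 hq0P
          rw [hq1 q hqP, hq2 q hqP, hq1 q0 hq0P, hq2 q0 hq0P]
          field_simp
          linear_combination h4
        have e1 := (hP q hqP).1
        have e0 := (hP q0 hq0P).1
        have hne0 : q0.1 ≠ 0 ∨ q0.2 ≠ 0 := by
          by_contra hcon
          push Not at hcon
          rw [hcon.1, hcon.2, hm_zero_right] at e0
          rw [zero_pow (by omega), mul_zero] at e0
          exact hGt e0.symm
        have hl : ∃ l : k, q.1 = l * q0.1 ∧ q.2 = l * q0.2 := by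
          rcases hne0 with h0 | h0
          · refine ⟨q.1 / q0.1, by field_simp, ?_⟩
            field_simp
            linear_combination (-1 : k) * h5
          · refine ⟨q.2 / q0.2, ?_, by field_simp⟩
            field_simp
            linear_combination h5
        obtain ⟨l, hl1, hl2⟩ := hl
        refine Finset.mem_image.2 ⟨l, ?_, Prod.ext hl1.symm hl2.symm⟩
        rw [Multiset.mem_toFinset, mem_nthRoots (by omega)]
        rw [hl1, hl2, hm_mul, e0] at e1
        exact mul_right_cancel₀ hGt (by rw [e1, one_mul])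
      refine (Finset.card_le_card hsub).trans ?_
      refine Finset.card_image_le.trans ?_
      exact (Multiset.toFinset_card_le _).trans (card_nthRoots _ _)
    calc s.card ≤ (m + 3) * (s.image g).card := Finset.card_le_mul_card_image s (m + 3) hfib
      _ ≤ (m + 3) * (m + 3) ^ (2 * M + 1) :=
          Nat.mul_le_mul_left _ ((Finset.card_le_card himg).trans hTcard)
      _ = _ := by ring
  have hPfin : P.Finite := by
    by_contra hinf
    obtain ⟨s, hsP, hcard⟩ := Set.Infinite.exists_subset_card_eq hinf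
      ((m + 3) ^ (2 * M + 2) + 1)
    have := hfin s hsP
    omega
  refine ⟨hPfin, ?_⟩
  have := hfin hPfin.toFinset (by rw [Set.Finite.coe_toFinset])
  rwa [Set.ncard_eq_toFinset_card P hPfin]

end Pool.Agent.Q29.TW
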