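import Mathlib
import Pool.Agent.Q29.TW.RF

/-!
# The invariants of the points of a quadratic twist are polynomials of small degree
-/

set_option autoImplicit false

namespace Pool.Agent.Q29.TW

open Polynomial Pool.Agent.H328.LL Pool.Agent.H925R3.DC WeierstrassCurve

variable {k : Type} [Field k] [CharZero k] {L : Type} [Field L] [Algebra k[X] L]
  [IsFractionRing k[X] L]

/-- the weight -/
noncomputable def kap (L : Type) [Field L] [Algebra k[X] L] (G : k[X]) : L :=
  algebraMap k[X] L (derivative G) / (2 * algebraMap k[X] L G)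

/-- the coefficients of the twist -/
noncomputable def tA (a : k) (G : k[X]) : k[X] := C a * G ^ 2

noncomputable def tB (b : k) (G : k[X]) : k[X] := C b * G ^ 3

theorem two_ne (L : Type) [Field L] [Algebra k[X] L] [IsFractionRing k[X] L] : (2 : L) ≠ 0 := by
  have h : algebraMap k[X] L 2 ≠ 0 := am_ne two_ne_zero
  rwa [map_ofNat] at h

theorem hA_tw (a : k) {G : k[X]} (hG : G ≠ 0) :
    dR k L (algebraMap k[X] L (tA a G)) = 4 * kap L G * algebraMap k[X] L (tA a G) := by
  have hg : algebraMap k[X] L G ≠ 0 := am_ne hG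
  have h2 := two_ne (k := k) L
  have h3 : tA a G = C a * (G * G) := by unfold tA; ring
  rw [dR_poly, h3]
  unfold kap
  rw [derivative_C_mul, derivative_mul]
  simp only [map_mul, map_add]
  field_simp
  ring

theorem hB_tw (b : k) {G : k[X]} (hG : G ≠ 0) :
    dR k L (algebraMap k[X] L (tB b G)) = 6 * kap L G * algebraMap k[X] L (tB b G) := by
  have hg : algebraMap k[X] L G ≠ 0 := am_ne hG
  have h2 := two_ne (k := k) L
  have h3 : tB b G = C b * (G * (G * G)) := by unfold tB; ring
  rw [dR_poly, h3]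
  unfold kap
  rw [derivative_C_mul, derivative_mul, derivative_mul]
  simp only [map_mul, map_add]
  field_simp
  ring

theorem tw_point {G : k[X]} (hG : Squarefree G) (hG1 : 1 ≤ G.natDegree) {a b : k}
    (hd : 4 * a ^ 3 + 27 * b ^ 2 ≠ 0) {x y : L}
    (h : y ^ 2 = x ^ 3 + algebraMap k[X] L (tA a G) * x + algebraMap k[X] L (tB b G)) :
    ∃ q : k[X], (q = 0 ∨ 2 * q.natDegree + 3 ≤ G.natDegree) ∧ (q = 0 → y = 0) ∧
      ∀ c, RelI (dR k L) (kap L G) (algebraMap k[X] L (tA a G)) c x y →
        (3 * x ^ 2 + algebraMap k[X] L (tA a G) ≠ 0 ∨ y ≠ 0) →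
        c * algebraMap k[X] L G = algebraMap k[X] L q := by
  have hG0 : G ≠ 0 := hG.ne_zero
  have hg : algebraMap k[X] L G ≠ 0 := am_ne hG0
  by_cases hy : y = 0
  · refine ⟨0, Or.inl rfl, fun _ => hy, ?_⟩
    intro c hc hns
    have h1 := hns.resolve_right (fun h => h hy)
    have h2 := hc.2
    rw [hy, map_zero, mul_zero, sub_zero, mul_zero] at h2
    rw [(mul_eq_zero.mp h2.symm).resolve_right h1, zero_mul, map_zero]
  obtain ⟨U, V, W0, hW0, rfl, rfl⟩ := exists_common k x y
  have hw : algebraMap k[X] L W0 ≠ 0 := am_ne hW0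
  have h1 : V ^ 2 * W0 = U ^ 3 + C a * G ^ 2 * U * W0 ^ 2 + C b * G ^ 3 * W0 ^ 3 := by
    apply am_inj (L := L)
    unfold tA tB at h
    simp only [map_mul, map_pow, map_add] at h ⊢
    field_simp at h
    linear_combination h
  obtain ⟨A, W, S, hcop, hW, hUW, hS⟩ := lift_point 1 (cub a b) (U := U * G) (V := V)
    (W0 := G ^ 2 * W0) hG (mul_ne_zero (pow_ne_zero _ hG0) hW0) (by
      show G * V ^ 2 * (G ^ 2 * W0) ^ (2 * 1) = Ph 4 (cub a b) (U * G) (G ^ 2 * W0)
      rw [Ph_cub]
      linear_combination G ^ 5 * W0 * h1)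
  have hS' : G * S ^ 2 = Ph 4 (cub a b) A W := hS
  have hwW : algebraMap k[X] L W ≠ 0 := am_ne hW
  -- the abscissa
  have hx : algebraMap k[X] L U / algebraMap k[X] L W0 =
      algebraMap k[X] L G * (algebraMap k[X] L A / algebraMap k[X] L W) := by
    have h2 := congrArg (algebraMap k[X] L) hUW
    simp only [map_mul, map_pow] at h2
    have h3 : algebraMap k[X] L U * algebraMap k[X] L W =
        algebraMap k[X] L G * algebraMap k[X] L W0 * algebraMap k[X] L A := by
      apply mul_left_cancel₀ hg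
      linear_combination h2
    field_simp
    linear_combination h3
  -- the ordinate
  have hy2 : (algebraMap k[X] L V / algebraMap k[X] L W0) ^ 2 =
      (algebraMap k[X] L G ^ 2 * algebraMap k[X] L S / algebraMap k[X] L W ^ 2) ^ 2 := by
    rw [h, hx]
    have h2 := congrArg (algebraMap k[X] L) hS'
    rw [Ph_cub] at h2
    unfold tA tB
    simp only [map_mul, map_pow, map_add] at h2 ⊢
    field_simp
    linear_combination (-1 : L) * h2
  have hsign : ∃ S' : k[X], G * S' ^ 2 = Ph 4 (cub a b) A W ∧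
      algebraMap k[X] L V / algebraMap k[X] L W0 =
        algebraMap k[X] L G ^ 2 * algebraMap k[X] L S' / algebraMap k[X] L W ^ 2 := by
    rcases sq_eq_sq_iff_eq_or_eq_neg.1 hy2 with h2 | h2
    · exact ⟨S, hS', h2⟩
    · refine ⟨-S, by rw [neg_sq]; exact hS', ?_⟩
      rw [h2, map_neg]
      ring
  obtain ⟨S', hSS, hyS⟩ := hsign
  have hS0 : S' ≠ 0 := by
    rintro rfl
    apply hy
    rw [hyS, map_zero, mul_zero, zero_div]
  have hJ : J A W ≠ 0 := by
    intro hJ
    obtain ⟨hA0, hW0'⟩ := J_zero hcop hJ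
    have h2 : (Ph 4 (cub a b) A W).natDegree = 0 := by
      rw [Ph_cub, eq_C_of_natDegree_eq_zero hA0, eq_C_of_natDegree_eq_zero hW0']
      simp only [← C_pow, ← C_mul, ← C_add]
      exact natDegree_C _
    rw [← hSS, natDegree_mul hG0 (pow_ne_zero _ hS0)] at h2
    omega
  obtain ⟨q, hq, hqdeg⟩ := main_deg 4 le_rfl (cub a b) (by rw [cub_deg]; omega)
    (by rw [cub_deg]) (cub_sep hd) hcop hSS hJ
  refine ⟨q, Or.inr (by omega), ?_, ?_⟩
  · rintro rfl
    rw [mul_zero] at hq
    exact absurd hq hJ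
  · intro c hc _
    have h2 := hc.1
    have hs0 : algebraMap k[X] L S' ≠ 0 := am_ne hS0
    have h4 : dR k L (algebraMap k[X] L U / algebraMap k[X] L W0) =
        algebraMap k[X] L (derivative G) * (algebraMap k[X] L A / algebraMap k[X] L W) +
        algebraMap k[X] L G * (algebraMap k[X] L (J A W) / algebraMap k[X] L W ^ 2) := by
      rw [hx, Derivation.leibniz, dR_poly, dR_div _ _ hW, smul_eq_mul, smul_eq_mul]
      ring
    rw [h4, hyS, hx, hq] at h2
    unfold kap at h2
    have h20 := two_ne (k := k) L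
    rw [map_mul] at h2
    field_simp at h2
    have h5 : algebraMap k[X] L G * algebraMap k[X] L S' * (c * algebraMap k[X] L G) =
        algebraMap k[X] L G * algebraMap k[X] L S' * algebraMap k[X] L q := by
      linear_combination (-1 : L) * h2
    exact mul_left_cancel₀ (mul_ne_zero hg hs0) h5

end Pool.Agent.Q29.TW
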