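import Mathlib
import Pool.Agent.Q29.TW.TwInv
import Pool.Agent.Q29.TW.Rk
import Pool.Agent.Q29.TW.Spec

/-!
# The rank of a quadratic twist over the rational function field, and its specializations
-/

set_option autoImplicit false

namespace Pool.Agent.Q29.TW

open Polynomial Pool.Agent.H328.LL Pool.Agent.H925R3.DC WeierstrassCurve

variable {k : Type} [Field k] [CharZero k]

theorem two_tor {F : Type} [Field F] [DecidableEq F] {a b x y : F} (h : (crv F a b).Nonsingular x y)
    (hy : y = 0) : (.some x y h : (crv F a b).Point) + .some x y h = 0 := by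
  refine add_opp h h rfl ?_
  rw [hy, neg_zero]

/-- the homomorphism to the polynomials -/
theorem exists_Q {L : Type} [Field L] [Algebra k[X] L] [IsFractionRing k[X] L] [DecidableEq L]
    {G : k[X]} (hG : Squarefree G) (hG1 : 1 ≤ G.natDegree) {a b : k}
    (hd : 4 * a ^ 3 + 27 * b ^ 2 ≠ 0) :
    ∃ Q : (crv L (algebraMap k[X] L (tA a G)) (algebraMap k[X] L (tB b G))).Point →+ k[X],
      (∀ P, Q P = 0 ∨ 2 * (Q P).natDegree + 3 ≤ G.natDegree) ∧ ∀ P, Q P = 0 → P + P = 0 := by
  have hG0 : G ≠ 0 := hG.ne_zero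
  have h20 := two_ne (k := k) L
  have hA := hA_tw (L := L) a hG0
  have hB := hB_tw (L := L) b hG0
  have key : ∀ P : (crv L (algebraMap k[X] L (tA a G)) (algebraMap k[X] L (tB b G))).Point,
      ∃ q : k[X], (q = 0 ∨ 2 * q.natDegree + 3 ≤ G.natDegree) ∧ (q = 0 → P + P = 0) ∧
        inv (dR k L) (kap L G) P * algebraMap k[X] L G = algebraMap k[X] L q := by
    intro P
    rcases P with _ | ⟨x, y, h⟩
    · refine ⟨0, Or.inl rfl, fun _ => ?_, ?_⟩
      · rw [← Affine.Point.zero_def, add_zero]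
      · rw [← Affine.Point.zero_def, inv_zero, zero_mul, map_zero]
    · have h1 := (crv_ns x y).1 h
      obtain ⟨q, hq1, hq2, hq3⟩ := tw_point (L := L) hG hG1 hd h1.1
      refine ⟨q, hq1, fun h0 => two_tor h (hq2 h0), ?_⟩
      refine hq3 _ (inv_spec h20 hA hB h) ?_
      rcases h1.2 with h4 | h4
      · exact Or.inl h4
      · exact Or.inr (right_ne_zero_of_mul h4)
  choose q hq1 hq2 hq3 using key
  refine ⟨AddMonoidHom.mk' q ?_, hq1, hq2⟩
  intro P P'
  apply am_inj (L := L)
  rw [map_add, ← hq3, ← hq3, ← hq3, inv_add h20 hA hB, add_mul]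

/-- the points of a twist that come from the function field -/
theorem tw_main {k : Type} [Field k] [NumberField k] [DecidableEq k] {G : k[X]}
    (hG : Squarefree G) (hG1 : 1 ≤ G.natDegree) {a b : k} (hd : 4 * a ^ 3 + 27 * b ^ 2 ≠ 0)
    (t : k) (hGt : G.eval t ≠ 0) :
    ∃ Γ : AddSubgroup (crv k ((tA a G).eval t) ((tB b G).eval t)).Point,
      Module.rank ℤ Γ ≤ (Module.finrank ℚ k * ((G.natDegree - 1) / 2) : ℕ) ∧
      (G.natDegree ≤ 2 → ∀ P ∈ Γ, P + P = 0) ∧
      ∀ U V W : k[X], W.eval t ≠ 0 →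
        V ^ 2 * W = U ^ 3 + tA a G * U * W ^ 2 + tB b G * W ^ 3 →
        ∀ h : (crv k ((tA a G).eval t) ((tB b G).eval t)).Nonsingular (U.eval t / W.eval t)
          (V.eval t / W.eval t), .some _ _ h ∈ Γ := by
  classical
  obtain ⟨Q, hQ1, hQ2⟩ := exists_Q (L := RatFunc k) hG hG1 hd
  have hdt : 4 * (tA a G).eval t ^ 3 + 27 * (tB b G).eval t ^ 2 ≠ 0 := by
    have h1 : 4 * (tA a G).eval t ^ 3 + 27 * (tB b G).eval t ^ 2 =
        (4 * a ^ 3 + 27 * b ^ 2) * G.eval t ^ 6 := by
      unfold tA tB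
      simp only [eval_mul, eval_C, eval_pow]
      ring
    rw [h1]
    exact mul_ne_zero hd (pow_ne_zero _ hGt)
  obtain ⟨red, hred⟩ := spec t two_ne_zero (tA a G) (tB b G) hdt
  refine ⟨red.range, ?_, ?_, ?_⟩
  · refine (rank_range red).trans ?_
    refine rank_of_hom ((G.natDegree - 1) / 2) Q ?_ ?_
    · intro P
      rcases hQ1 P with h | h
      · exact Or.inl h
      · right
        omega
    · intro P hP
      refine ⟨2, two_ne_zero, ?_⟩
      rw [two_zsmul]
      exact hQ2 P hP
  · rintro hG2 _ ⟨P, rfl⟩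
    rw [← map_add]
    have h1 : Q P = 0 := by
      rcases hQ1 P with h | h
      · exact h
      · omega
    rw [hQ2 P h1, map_zero]
  · intro U V W hW hrel h
    have hW0 : W ≠ 0 := by
      rintro rfl
      rw [eval_zero] at hW
      exact hW rfl
    have hw : algebraMap k[X] (RatFunc k) W ≠ 0 := am_ne hW0
    have heq : (algebraMap k[X] (RatFunc k) V / algebraMap k[X] (RatFunc k) W) ^ 2 =
        (algebraMap k[X] (RatFunc k) U / algebraMap k[X] (RatFunc k) W) ^ 3 +
        algebraMap k[X] (RatFunc k) (tA a G) *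
          (algebraMap k[X] (RatFunc k) U / algebraMap k[X] (RatFunc k) W) +
        algebraMap k[X] (RatFunc k) (tB b G) := by
      have h1 := congrArg (algebraMap k[X] (RatFunc k)) hrel
      simp only [map_mul, map_pow, map_add] at h1
      field_simp
      linear_combination h1
    have hdL : 4 * algebraMap k[X] (RatFunc k) (tA a G) ^ 3 +
        27 * algebraMap k[X] (RatFunc k) (tB b G) ^ 2 ≠ 0 := by
      have h1 : 4 * (tA a G) ^ 3 + 27 * (tB b G) ^ 2 ≠ 0 := by
        intro h0
        apply hdt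
        have := congrArg (eval t) h0
        simpa using this
      have h2 := am_ne (L := RatFunc k) h1
      rwa [map_add, map_mul, map_mul, map_pow, map_pow, map_ofNat, map_ofNat] at h2
    have hns : (crv (RatFunc k) (algebraMap k[X] (RatFunc k) (tA a G))
        (algebraMap k[X] (RatFunc k) (tB b G))).Nonsingular
        (algebraMap k[X] (RatFunc k) U / algebraMap k[X] (RatFunc k) W)
        (algebraMap k[X] (RatFunc k) V / algebraMap k[X] (RatFunc k) W) := by
      rw [crv_ns]
      refine ⟨heq, ?_⟩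
      by_contra hcon
      push Not at hcon
      obtain ⟨e1, e2⟩ := hcon
      have e3 := (mul_eq_zero.mp e2).resolve_left (two_ne (k := k) (RatFunc k))
      apply hdL
      rw [e3] at heq
      obtain ⟨x, hx⟩ : ∃ x, x = algebraMap k[X] (RatFunc k) U / algebraMap k[X] (RatFunc k) W :=
        ⟨_, rfl⟩
      rw [← hx] at e1 heq
      have ea : algebraMap k[X] (RatFunc k) (tA a G) = -3 * x ^ 2 := by linear_combination e1
      have eb : algebraMap k[X] (RatFunc k) (tB b G) = 2 * x ^ 3 := by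
        rw [ea] at heq
        linear_combination -heq
      rw [ea, eb]
      ring
    obtain ⟨h', hr⟩ := hred U V W hW hns
    exact ⟨_, hr⟩

theorem tw_main' {k : Type} [Field k] [NumberField k] [DecidableEq k] {G : k[X]}
    (hG : Squarefree G) (hG1 : 1 ≤ G.natDegree) {a b : k} (hd : 4 * a ^ 3 + 27 * b ^ 2 ≠ 0)
    (t : k) (hGt : G.eval t ≠ 0) (E : WeierstrassCurve.Affine k)
    (hE : E = crv k ((tA a G).eval t) ((tB b G).eval t)) :
    ∃ Γ : AddSubgroup E.Point,
      Module.rank ℤ Γ ≤ (Module.finrank ℚ k * ((G.natDegree - 1) / 2) : ℕ) ∧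
      (G.natDegree ≤ 2 → ∀ P ∈ Γ, P + P = 0) ∧
      ∀ U V W : k[X], W.eval t ≠ 0 →
        V ^ 2 * W = U ^ 3 + tA a G * U * W ^ 2 + tB b G * W ^ 3 →
        ∀ x y : k, x = U.eval t / W.eval t → y = V.eval t / W.eval t →
        ∀ h : E.Nonsingular x y, .some x y h ∈ Γ := by
  subst hE
  obtain ⟨Γ, h1, h2, h3⟩ := tw_main hG hG1 hd t hGt
  refine ⟨Γ, h1, h2, ?_⟩
  intro U V W hW hrel x y hx hy h
  subst hx
  subst hy
  exact h3 U V W hW hrel h

end Pool.Agent.Q29.TW
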